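import Pool.Agent.PIRing.Strong

/-!
A finitely generated ring with a multilinear identity satisfies a Capelli identity.
-/

set_option autoImplicit false

namespace Pool.Agent.PIRing

open Equiv

section Cap

variable {R : Type*} [Ring R] {n : ℕ}

/-- the multilinear map `x ↦ y₀ x₀ y₁ x₁ ⋯` -/
noncomputable def capM (y : Fin n → R) : MultilinearMap ℤ (fun _ : Fin n => R) R :=
  (MultilinearMap.mkPiAlgebraFin ℤ n R).compLinearMap (fun i => LinearMap.mulLeft ℤ (y i))

theorem capM_apply (y x : Fin n → R) : capM y x = (List.ofFn (fun i => y i * x i)).prod := by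
  unfold capM
  rw [MultilinearMap.compLinearMap_apply, MultilinearMap.mkPiAlgebraFin_apply]
  rfl

/-- The Capelli function, alternating in `x`. -/
noncomputable def capA (y : Fin n → R) : R [⋀^Fin n]→ₗ[ℤ] R :=
  MultilinearMap.alternatization (capM y)

theorem capA_apply (y x : Fin n → R) :
    capA y x = ∑ π : Perm (Fin n), Perm.sign π • (List.ofFn (fun i => y i * x (π i))).prod := by
  unfold capA
  rw [MultilinearMap.alternatization_apply]
  apply Finset.sum_congr rfl
  intro π _
  rw [MultilinearMap.domDomCongr_apply, capM_apply]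

end Cap

section Pattern

variable {R : Type*} [Ring R] {m : ℕ}

/-- value of a pattern with constants and variables -/
def pev (X : Fin m → R) (l : List (R ⊕ Fin m)) : R := (l.map (Sum.elim id X)).prod

/-- the variables of a pattern -/
def vars (l : List (R ⊕ Fin m)) : List (Fin m) := l.filterMap Sum.getRight?

theorem pattern_normal (l : List (R ⊕ Fin m)) :
    ∃ (z0 : R) (zs : List R), zs.length = (vars l).length ∧
      ∀ X : Fin m → R, pev X l = z0 * (List.zipWith (fun j z => X j * z) (vars l) zs).prod := by
  induction l with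
  | nil => exact ⟨1, [], rfl, fun X => by simp [pev, vars]⟩
  | cons e l ih =>
    obtain ⟨z0, zs, hl, h⟩ := ih
    cases e with
    | inl c =>
      have hv : vars (Sum.inl c :: l) = vars l := rfl
      refine ⟨c * z0, zs, by rw [hv]; exact hl, fun X => ?_⟩
      rw [hv, mul_assoc, ← h X]
      simp [pev]
    | inr j =>
      have hv : vars (Sum.inr j :: l) = j :: vars l := rfl
      refine ⟨1, z0 :: zs, by simp [hv, hl], fun X => ?_⟩
      rw [hv, List.zipWith_cons_cons, List.prod_cons, mul_assoc, one_mul, ← h X]
      simp [pev]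

theorem strong_pattern {β : Perm (Fin m) → ℤ}
    (hβ : ∀ (τ : Perm (Fin m)) (X Z : Fin m → R),
        ∑ σ : Perm (Fin m), β σ • (List.ofFn (fun i => X (σ (τ i)) * Z i)).prod = 0)
    (l : List (R ⊕ Fin m)) (hl : (vars l).Perm (List.finRange m)) (X : Fin m → R) :
    ∑ σ : Perm (Fin m), β σ • pev (fun j => X (σ j)) l = 0 := by
  obtain ⟨z0, zs, hlen, h⟩ := pattern_normal l
  obtain ⟨τ, hτ⟩ := exists_perm_of_list hl
  rw [hτ] at hlen
  rw [List.length_ofFn] at hlen
  have h1 : ∀ σ : Perm (Fin m), pev (fun j => X (σ j)) l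
      = z0 * (List.ofFn (fun i => X (σ (τ i)) * zs[(i : ℕ)])).prod := by
    intro σ
    rw [h, hτ]
    congr 2
    apply List.ext_getElem
    · simp [hlen]
    · intro i h1 h2
      simp
  simp only [h1]
  have h2 := hβ τ X (fun i => zs[(i : ℕ)])
  calc ∑ σ : Perm (Fin m), β σ • (z0 * (List.ofFn (fun i => X (σ (τ i)) * zs[(i : ℕ)])).prod)
      = z0 * ∑ σ : Perm (Fin m), β σ • (List.ofFn (fun i => X (σ (τ i)) * zs[(i : ℕ)])).prod := by
        rw [Finset.mul_sum]
        simp only [mul_smul_comm]
    _ = 0 := by rw [h2, mul_zero]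

open Classical in
/-- substitute `p_j X_j` at the places `ι j` -/
noncomputable def subst {n : ℕ} (ι : Fin m → Fin n) (p : Fin m → R) (x : Fin n → R)
    (X : Fin m → R) (i : Fin n) : R :=
  if h : ∃ j, ι j = i then p h.choose * X h.choose else x i

theorem subst_apply_range {n : ℕ} {ι : Fin m → Fin n} (hι : Function.Injective ι)
    (p : Fin m → R) (x : Fin n → R) (X : Fin m → R) (j : Fin m) :
    subst ι p x X (ι j) = p j * X j := by
  unfold subst
  have h : ∃ j', ι j' = ι j := ⟨j, rfl⟩
  rw [dif_pos h, hι h.choose_spec]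

theorem subst_apply_not {n : ℕ} {ι : Fin m → Fin n}
    (p : Fin m → R) (x : Fin n → R) (X : Fin m → R) (i : Fin n) (hi : ∀ j, ι j ≠ i) :
    subst ι p x X i = x i := by
  unfold subst
  rw [dif_neg]
  rintro ⟨j, hj⟩
  exact hi j hj

open Classical in
/-- the pattern of one place -/
noncomputable def piece {n : ℕ} (ι : Fin m → Fin n) (p : Fin m → R) (x : Fin n → R)
    (i : Fin n) : List (R ⊕ Fin m) :=
  if h : ∃ j, ι j = i then [Sum.inl (p h.choose), Sum.inr h.choose] else [Sum.inl (x i)]

theorem pev_piece {n : ℕ} (ι : Fin m → Fin n) (p : Fin m → R) (x : Fin n → R)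
    (X : Fin m → R) (i : Fin n) : pev X (piece ι p x i) = subst ι p x X i := by
  unfold piece subst
  by_cases h : ∃ j, ι j = i
  · rw [dif_pos h, dif_pos h]
    simp [pev]
  · rw [dif_neg h, dif_neg h]
    simp [pev]

theorem count_vars_piece {n : ℕ} {ι : Fin m → Fin n} (hι : Function.Injective ι)
    (p : Fin m → R) (x : Fin n → R) (i : Fin n) (j : Fin m) :
    (vars (piece ι p x i)).count j = if ι j = i then 1 else 0 := by
  unfold piece
  by_cases h : ∃ j', ι j' = i
  · rw [dif_pos h]
    have h1 : ι h.choose = i := h.choose_spec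
    have h2 : vars [Sum.inl (p h.choose), Sum.inr h.choose] = [h.choose] := rfl
    rw [h2, List.count_singleton]
    by_cases hj : ι j = i
    · have : h.choose = j := hι (h1.trans hj.symm)
      simp [hj, this]
    · have : h.choose ≠ j := by
        intro h3
        rw [h3] at h1
        exact hj h1
      simp [hj, this]
  · rw [dif_neg h]
    have h3 : ι j ≠ i := fun hj => h ⟨j, hj⟩
    have h2 : vars [(Sum.inl (x i) : R ⊕ Fin m)] = [] := rfl
    rw [h2, if_neg h3]
    rfl

theorem pev_append (X : Fin m → R) (l l' : List (R ⊕ Fin m)) :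
    pev X (l ++ l') = pev X l * pev X l' := by
  simp [pev]

/-- the strong identity for the Capelli function -/
theorem strong_capA {β : Perm (Fin m) → ℤ}
    (hβ : ∀ (τ : Perm (Fin m)) (X Z : Fin m → R),
        ∑ σ : Perm (Fin m), β σ • (List.ofFn (fun i => X (σ (τ i)) * Z i)).prod = 0)
    {n : ℕ} {ι : Fin m → Fin n} (hι : Function.Injective ι)
    (p : Fin m → R) (x : Fin n → R) (y : Fin n → R) (X : Fin m → R) :
    ∑ σ : Perm (Fin m), β σ • capA y (subst ι p x (fun j => X (σ j))) = 0 := by
  simp only [capA_apply, Finset.smul_sum]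
  rw [Finset.sum_comm]
  apply Finset.sum_eq_zero
  intro π _
  have h1 : ∀ X : Fin m → R, (List.ofFn (fun i => y i * subst ι p x X (π i))).prod
      = pev X (List.ofFn (fun i => Sum.inl (y i) :: piece ι p x (π i))).flatten := by
    intro X
    unfold pev
    rw [prod_map_flatten_ofFn]
    congr 2
    funext i
    rw [List.map_cons, List.prod_cons, ← pev_piece]
    rfl
  have hv : (vars (List.ofFn (fun i => Sum.inl (y i) :: piece ι p x (π i))).flatten).Perm
      (List.finRange m) := by
    rw [List.perm_iff_count]
    intro j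
    have h2 : vars (List.ofFn (fun i => Sum.inl (y i) :: piece ι p x (π i))).flatten
        = (List.ofFn (fun i => vars (piece ι p x (π i)))).flatten := by
      unfold vars
      rw [List.filterMap_flatten, List.map_ofFn]
      congr 2
    rw [h2, List.count_flatten, List.map_ofFn, List.sum_ofFn]
    have h3 : ∀ i : Fin n, (List.count j ∘ fun i => vars (piece ι p x (π i))) i
        = if ι j = π i then 1 else 0 := by
      intro i
      exact count_vars_piece hι p x (π i) j
    simp only [h3]
    rw [List.count_eq_one_of_mem (List.nodup_finRange m) (List.mem_finRange j)]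
    rw [Finset.sum_eq_single (π.symm (ι j))]
    · simp
    · intro b _ hb
      rw [if_neg]
      intro h
      apply hb
      rw [h, Equiv.symm_apply_apply]
    · intro h
      exact absurd (Finset.mem_univ _) h
  have h4 := strong_pattern hβ _ hv X
  calc ∑ σ : Perm (Fin m), β σ • Perm.sign π •
        (List.ofFn (fun i => y i * subst ι p x (fun j => X (σ j)) (π i))).prod
      = Perm.sign π • ∑ σ : Perm (Fin m), β σ •
        (List.ofFn (fun i => y i * subst ι p x (fun j => X (σ j)) (π i))).prod := by
        rw [Finset.smul_sum]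
        apply Finset.sum_congr rfl
        intro σ _
        rw [smul_comm]
    _ = Perm.sign π • (0 : R) := by
        congr 1
        rw [← h4]
        apply Finset.sum_congr rfl
        intro σ _
        rw [h1]
    _ = 0 := smul_zero _

end Pattern

end Pool.Agent.PIRing
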