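import Pool.Agent.PIRing.Capelli

/-!
Every finitely generated ring with a multilinear identity satisfies a Capelli identity.
-/

set_option autoImplicit false

namespace Pool.Agent.PIRing

open Equiv

/-- A multilinear map which vanishes on a spanning set vanishes. -/
theorem multilinear_eq_zero_of_span {ι M N : Type*} [Finite ι] [AddCommGroup M]
    [AddCommGroup N] (F : MultilinearMap ℤ (fun _ : ι => M) N) (s : Set M)
    (hs : Submodule.span ℤ s = ⊤) (h : ∀ x : ι → M, (∀ i, x i ∈ s) → F x = 0) (x : ι → M) :
    F x = 0 := by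
  classical
  cases nonempty_fintype ι
  have key : ∀ T : Finset ι, ∀ x : ι → M, (∀ i, i ∉ T → x i ∈ s) → F x = 0 := by
    intro T
    induction T using Finset.induction_on with
    | empty => intro x hx; exact h x (fun i => hx i (by simp))
    | insert a T ha ih =>
      intro x hx
      have h1 : ∀ v ∈ Submodule.span ℤ s, F (Function.update x a v) = 0 := by
        intro v hv
        induction hv using Submodule.span_induction with
        | mem v hv =>
          apply ih
          intro i hi
          by_cases hia : i = a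
          · subst hia; simpa using hv
          · rw [Function.update_of_ne hia]
            exact hx i (by simp [hia, hi])
        | zero => rw [F.map_update_zero]
        | add u v _ _ hu hv => rw [F.map_update_add, hu, hv, add_zero]
        | smul t v _ hv => rw [F.map_update_smul, hv, smul_zero]
      have h2 := h1 (x a) (by rw [hs]; trivial)
      rwa [Function.update_eq_self] at h2
  exact key Finset.univ x (fun i hi => absurd (Finset.mem_univ i) hi)

/-- integers with gcd one which all kill `v` -/
theorem eq_zero_of_gcd {ι M : Type*} [AddCommGroup M] (s : Finset ι) (β : ι → ℤ)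
    (hβ : s.gcd β = 1) (v : M) (h : ∀ i ∈ s, β i • v = 0) : v = 0 := by
  let I : Ideal ℤ := LinearMap.ker (LinearMap.toSpanSingleton ℤ M v)
  have hmem : ∀ t : ℤ, t ∈ I ↔ t • v = 0 := by
    intro t
    simp [I, LinearMap.mem_ker]
  have h1 : Submodule.IsPrincipal.generator I ∣ s.gcd β := by
    apply Finset.dvd_gcd
    intro i hi
    rw [← Submodule.IsPrincipal.mem_iff_generator_dvd]
    exact (hmem _).mpr (h i hi)
  rw [hβ] at h1
  have h2 : (1 : ℤ) ∈ I := (Submodule.IsPrincipal.mem_iff_generator_dvd I).mpr h1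
  have := (hmem 1).mp h2
  simpa using this

theorem perm_eq_one_of_strictMono {m : ℕ} (σ : Perm (Fin m)) (h : StrictMono σ) : σ = 1 := by
  have h1 : (Fin.castOrderIso rfl : Fin m ≃o Fin m)
      = (⟨σ, fun {a b} => h.le_iff_le⟩ : Fin m ≃o Fin m) := Subsingleton.elim _ _
  ext i
  have h3 := congrArg (fun e : Fin m ≃o Fin m => e i) h1
  have h2 : (i : Fin m) = σ i := by simpa using h3
  rw [Perm.one_apply, ← h2]

/-- the rearrangement inequality in the needed form -/
theorem rearrange {m : ℕ} (b : Fin m → ℤ) (hb : StrictAnti b) (σ : Perm (Fin m)) (hσ : σ ≠ 1) :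
    ∑ j : Fin m, (((j : ℕ) : ℤ) + b j) ^ 2 < ∑ j : Fin m, (((j : ℕ) : ℤ) + b (σ j)) ^ 2 := by
  have hav : Antivary (fun j : Fin m => ((j : ℕ) : ℤ)) b := by
    intro i j hij
    have : j < i := hb.lt_iff_gt.mp hij
    change ((j : ℕ) : ℤ) ≤ ((i : ℕ) : ℤ)
    exact_mod_cast this.le
  have h1 : ∑ j : Fin m, ((j : ℕ) : ℤ) * b j < ∑ j : Fin m, ((j : ℕ) : ℤ) * b (σ j) := by
    have h0 := (hav.sum_smul_lt_sum_smul_comp_perm_iff (σ := σ)).mpr ?_
    · simpa only [smul_eq_mul] using h0
    intro hav'
    apply hσ
    apply perm_eq_one_of_strictMono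
    intro i j hij
    by_contra hcon
    rw [not_lt] at hcon
    have hne : σ j ≠ σ i := fun h => absurd (σ.injective h) (ne_of_gt hij)
    have hlt : b (σ i) < b (σ j) := hb (lt_of_le_of_ne hcon hne)
    have := hav' hlt
    change ((j : ℕ) : ℤ) ≤ ((i : ℕ) : ℤ) at this
    have h3 : (j : ℕ) ≤ (i : ℕ) := by exact_mod_cast this
    exact absurd hij (not_lt.mpr h3)
  have h2 : ∑ j : Fin m, (b (σ j)) ^ 2 = ∑ j : Fin m, (b j) ^ 2 :=
    Equiv.sum_comp σ (fun j => (b j) ^ 2)
  have h3 : ∀ c : Fin m → ℤ, ∑ j : Fin m, (((j : ℕ) : ℤ) + c j) ^ 2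
      = ∑ j : Fin m, ((j : ℕ) : ℤ) ^ 2 + 2 * ∑ j : Fin m, ((j : ℕ) : ℤ) * c j
        + ∑ j : Fin m, (c j) ^ 2 := by
    intro c
    rw [Finset.mul_sum, ← Finset.sum_add_distrib, ← Finset.sum_add_distrib]
    apply Finset.sum_congr rfl
    intro j _
    ring
  rw [h3, h3, h2]
  linarith

theorem sum_replace {m n : ℕ} {ι : Fin m → Fin n} (hι : Function.Injective ι)
    (g g' : Fin n → ℤ) (h : ∀ i, (∀ j, ι j ≠ i) → g' i = g i) :
    ∑ i, g' i - ∑ i, g i = ∑ j, g' (ι j) - ∑ j, g (ι j) := by
  rw [← Finset.sum_sub_distrib, ← Finset.sum_sub_distrib]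
  symm
  apply Finset.sum_of_injOn ι hι.injOn (by intro _ _; simp)
  · intro i _ hi
    rw [h i, sub_self]
    intro j hj
    exact hi ⟨j, by simp, hj⟩
  · intro j _; rfl

section Main

variable {R : Type*} [Ring R] {k : ℕ}

/-- value of a word -/
def ev (a : Fin k → R) (w : List (Fin k)) : R := (w.map a).prod

theorem ev_append (a : Fin k → R) (w w' : List (Fin k)) : ev a (w ++ w') = ev a w * ev a w' := by
  simp [ev]

open Classical in
/-- the words after exchanging the tails -/
noncomputable def swapWords {m n : ℕ} (ι : Fin m → Fin n) (w : Fin n → List (Fin k))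
    (σ : Perm (Fin m)) (i : Fin n) : List (Fin k) :=
  if h : ∃ j, ι j = i then
    (w (ι h.choose)).take h.choose ++ (w (ι (σ h.choose))).drop (σ h.choose)
  else w i

theorem swapWords_range {m n : ℕ} {ι : Fin m → Fin n} (hι : Function.Injective ι)
    (w : Fin n → List (Fin k)) (σ : Perm (Fin m)) (j : Fin m) :
    swapWords ι w σ (ι j) = (w (ι j)).take j ++ (w (ι (σ j))).drop (σ j) := by
  unfold swapWords
  have h : ∃ j', ι j' = ι j := ⟨j, rfl⟩
  rw [dif_pos h, hι h.choose_spec]

theorem swapWords_not {m n : ℕ} {ι : Fin m → Fin n}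
    (w : Fin n → List (Fin k)) (σ : Perm (Fin m)) (i : Fin n) (hi : ∀ j, ι j ≠ i) :
    swapWords ι w σ i = w i := by
  unfold swapWords
  rw [dif_neg]
  rintro ⟨j, hj⟩
  exact hi j hj

theorem ev_swapWords {m n : ℕ} {ι : Fin m → Fin n} (hι : Function.Injective ι)
    (a : Fin k → R) (w : Fin n → List (Fin k)) (σ : Perm (Fin m)) :
    (fun i => ev a (swapWords ι w σ i))
      = subst ι (fun j => ev a ((w (ι j)).take j)) (fun i => ev a (w i))
          (fun j => ev a ((w (ι (σ j))).drop (σ j))) := by
  funext i
  by_cases h : ∃ j, ι j = i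
  · obtain ⟨j, rfl⟩ := h
    rw [swapWords_range hι, subst_apply_range hι, ev_append]
  · have h' : ∀ j, ι j ≠ i := fun j hj => h ⟨j, hj⟩
    rw [swapWords_not _ _ _ h', subst_apply_not _ _ _ _ h']

theorem swapWords_one {m n : ℕ} {ι : Fin m → Fin n} (hι : Function.Injective ι)
    (w : Fin n → List (Fin k)) : swapWords ι w 1 = w := by
  funext i
  by_cases h : ∃ j, ι j = i
  · obtain ⟨j, rfl⟩ := h
    rw [swapWords_range hι]
    simp
  · exact swapWords_not _ _ _ (fun j hj => h ⟨j, hj⟩)

/-- Among many distinct words, `m` of them have length at least `m`; they can be listed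
with non-increasing lengths. -/
theorem exists_long (m n : ℕ) (hn : m + Set.ncard {w : List (Fin k) | w.length < m} ≤ n)
    (w : Fin n → List (Fin k)) (hw : Function.Injective w) :
    ∃ ι : Fin m → Fin n,
      Function.Injective ι ∧ (∀ j, m ≤ (w (ι j)).length) ∧
      (∀ i j, i ≤ j → (w (ι j)).length ≤ (w (ι i)).length) := by
  classical
  let B : Finset (Fin n) := Finset.univ.filter (fun i => m ≤ (w i).length)
  have hB : m ≤ B.card := by
    have h1 : (Finset.univ.filter (fun i => ¬ m ≤ (w i).length)).card
        ≤ Set.ncard {w : List (Fin k) | w.length < m} := by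
      rw [← Set.ncard_coe_finset]
      refine Set.ncard_le_ncard_of_injOn w ?_ hw.injOn (List.finite_length_lt (Fin k) m)
      intro i hi
      simp only [Finset.coe_filter, Finset.mem_univ, true_and, not_le] at hi
      exact hi
    have h2 := Finset.card_filter_add_card_filter_not (s := (Finset.univ : Finset (Fin n)))
      (fun i => m ≤ (w i).length)
    rw [Finset.card_univ, Fintype.card_fin] at h2
    have h3 : B.card = (Finset.univ.filter (fun i => m ≤ (w i).length)).card := rfl
    omega
  obtain ⟨B', hB', hcard⟩ := Finset.exists_subset_card_eq hB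
  let e : Fin m → Fin n := fun j => B'.orderEmbOfFin hcard j
  have he : Function.Injective e := (B'.orderEmbOfFin hcard).injective
  let f : Fin m → ℕᵒᵈ := fun j => OrderDual.toDual (w (e j)).length
  refine ⟨e ∘ Tuple.sort f, he.comp (Tuple.sort f).injective, ?_, ?_⟩
  · intro j
    have : e (Tuple.sort f j) ∈ B := hB' (Finset.orderEmbOfFin_mem _ _ _)
    simpa [B] using this
  · intro i j hij
    exact Tuple.monotone_sort f hij

/-- The Capelli function vanishes on words. -/
theorem capA_words {m : ℕ} {β : Perm (Fin m) → ℤ} (hgcd : Finset.univ.gcd β = 1)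
    (hβ : ∀ (τ : Perm (Fin m)) (X Z : Fin m → R),
        ∑ σ : Perm (Fin m), β σ • (List.ofFn (fun i => X (σ (τ i)) * Z i)).prod = 0)
    (a : Fin k → R)
    (y : Fin (m + Set.ncard {w : List (Fin k) | w.length < m}) → R) (T : ℕ) :
    ∀ (M : ℕ) (w : Fin (m + Set.ncard {w : List (Fin k) | w.length < m}) → List (Fin k)),
      ∑ i, (w i).length = T → T ^ 2 - ∑ i, (w i).length ^ 2 = M →
      capA y (fun i => ev a (w i)) = 0 := by
  classical
  intro M
  induction M using Nat.strong_induction_on with
  | _ M ih =>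
    intro w hT hM
    by_cases hinj : Function.Injective w
    swap
    · unfold Function.Injective at hinj
      push Not at hinj
      obtain ⟨i, j, hij, hne⟩ := hinj
      exact (capA y).map_eq_zero_of_eq _ (by rw [hij]) hne
    obtain ⟨ι, hι, hlen, hanti⟩ := exists_long m _ le_rfl w hinj
    have hsum : ∀ σ0 : Perm (Fin m), ∑ σ : Perm (Fin m), β (σ0 * σ) •
        capA y (fun i => ev a (swapWords ι w σ i)) = 0 := by
      intro σ0
      have h1 := strong_capA hβ hι (fun j => ev a ((w (ι j)).take j)) (fun i => ev a (w i)) y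
        (fun j => ev a ((w (ι (σ0⁻¹ j))).drop (σ0⁻¹ j : Fin m)))
      rw [← h1]
      apply Fintype.sum_equiv (Equiv.mulLeft σ0)
      intro σ
      rw [ev_swapWords hι, Equiv.coe_mulLeft]
      simp
    have hzero : ∀ σ : Perm (Fin m), σ ≠ 1 →
        capA y (fun i => ev a (swapWords ι w σ i)) = 0 := by
      intro σ hσ
      let b : Fin m → ℤ := fun j => ((w (ι j)).length : ℤ) - ((j : ℕ) : ℤ)
      have hb : StrictAnti b := by
        intro i j hij
        have h1 := hanti i j hij.le
        have h2 : (i : ℕ) < (j : ℕ) := hij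
        simp only [b]
        omega
      have hlen' : ∀ j, (((swapWords ι w σ (ι j)).length : ℕ) : ℤ)
          = ((j : ℕ) : ℤ) + b (σ j) := by
        intro j
        rw [swapWords_range hι, List.length_append, List.length_take, List.length_drop]
        have h1 := hlen j
        have h2 := hlen (σ j)
        have h3 := j.2
        have h4 := (σ j).2
        simp only [b]
        rw [min_eq_left (by omega)]
        push_cast
        rw [Nat.cast_sub (by omega)]
      have hlen1 : ∀ j, (((w (ι j)).length : ℕ) : ℤ) = ((j : ℕ) : ℤ) + b j := by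
        intro j
        simp [b]
      have hS1 : ∑ i, (swapWords ι w σ i).length = T := by
        rw [← hT]
        have h1 := sum_replace hι (fun i => ((w i).length : ℤ))
          (fun i => ((swapWords ι w σ i).length : ℤ)) (by
            intro i hi
            rw [swapWords_not _ _ _ hi])
        have h2 : ∑ j, ((swapWords ι w σ (ι j)).length : ℤ) = ∑ j, ((w (ι j)).length : ℤ) := by
          simp only [hlen', hlen1, Finset.sum_add_distrib]
          rw [Equiv.sum_comp σ b]
        rw [h2, sub_self, sub_eq_zero] at h1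
        exact_mod_cast h1
      have hS2 : ∑ i, (w i).length ^ 2 < ∑ i, (swapWords ι w σ i).length ^ 2 := by
        have h1 := sum_replace hι (fun i => ((w i).length : ℤ) ^ 2)
          (fun i => ((swapWords ι w σ i).length : ℤ) ^ 2) (by
            intro i hi
            rw [swapWords_not _ _ _ hi])
        have h2 := rearrange b hb σ hσ
        simp only [← hlen', ← hlen1] at h2
        have h3 : ∑ i, ((w i).length : ℤ) ^ 2 < ∑ i, ((swapWords ι w σ i).length : ℤ) ^ 2 := by
          linarith
        exact_mod_cast h3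
      have hS3 : ∑ i, (swapWords ι w σ i).length ^ 2 ≤ T ^ 2 := by
        rw [← hS1]
        exact Finset.sum_sq_le_sq_sum_of_nonneg (fun i _ => Nat.zero_le _)
      exact ih (T ^ 2 - ∑ i, (swapWords ι w σ i).length ^ 2) (by omega) _ hS1 rfl
    apply eq_zero_of_gcd Finset.univ β hgcd
    intro σ0 _
    have h1 := hsum σ0
    rw [← Finset.add_sum_erase _ _ (Finset.mem_univ (1 : Perm (Fin m)))] at h1
    rw [Finset.sum_eq_zero, add_zero, mul_one, swapWords_one hι] at h1
    · exact h1
    · intro σ hσ
      rw [hzero σ (Finset.mem_erase.mp hσ).1, smul_zero]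

/-- **Capelli identity.** -/
theorem capelli {d : ℕ} {c : Perm (Fin d) → ℤ} (hc : c 1 = 1)
    (hPI : ∀ r : Fin d → R, ∑ σ : Perm (Fin d), c σ • (List.ofFn (fun i => r (σ i))).prod = 0)
    (a : Fin k → R) (ha : Submodule.span ℤ (Set.range (ev a)) = ⊤) :
    ∃ n : ℕ, ∀ y x : Fin n → R, capA y x = 0 := by
  obtain ⟨m, β, hgcd, hβ⟩ := strong_identity hc hPI
  refine ⟨m + Set.ncard {w : List (Fin k) | w.length < m}, fun y x => ?_⟩
  apply multilinear_eq_zero_of_span (capA y).toMultilinearMap (Set.range (ev a)) ha
  intro x hx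
  choose w hw using hx
  have : x = fun i => ev a (w i) := by
    funext i
    exact (hw i).symm
  rw [this]
  exact capA_words hgcd hβ a y _ _ w rfl rfl

end Main

end Pool.Agent.PIRing
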