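import Pool.Agent.PIRing.Words

/-!
Latyshev's bound for multilinear functions of a ring with a multilinear identity.
-/

set_option autoImplicit false

namespace Pool.Agent.PIRing

open Equiv

/-- `w` contains a strictly decreasing subsequence of length `d`. -/
def Bad (d : ℕ) {α : Type*} [LinearOrder α] (w : List α) : Prop :=
  ∃ vs : List α, vs.length = d ∧ vs.Pairwise (fun a b => b < a) ∧ vs.Sublist w

theorem occ_of_sublist {α : Type*} {vs w : List α} (h : vs.Sublist w) :
    Occ (vs.map (fun a => [a])) w := by
  induction h with
  | slnil => trivial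
  | cons a _ ih => exact ih.append_left [a]
  | cons_cons a _ ih => exact ⟨[], _, by simp, ih⟩

theorem Bad.red {d : ℕ} {α : Type*} [LinearOrder α] {w : List α} (h : Bad d w) : Red d w := by
  obtain ⟨vs, hlen, hp, hs⟩ := h
  subst hlen
  refine ⟨1, fun i => [vs.get i], fun i => rfl, ?_, ?_⟩
  · intro i j hij
    have := List.pairwise_iff_get.mp hp i j hij
    change [vs.get j] < [vs.get i]
    rw [List.cons_lt_cons_iff]
    exact Or.inl this
  · have h1 := occ_of_sublist hs
    have h2 : vs.map (fun a => [a]) = List.ofFn (fun i => [vs.get i]) := by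
      conv_lhs => rw [← List.ofFn_get vs, List.map_ofFn]
      rfl
    rwa [h2] at h1

section Count

variable {N : ℕ}

/-- decreasing along the set `t` -/
def Desc (π : Perm (Fin N)) (t : Finset (Fin N)) : Prop :=
  ∀ x ∈ t, ∀ y ∈ t, x < y → π y < π x

open Classical in
/-- longest decreasing subsequence ending at position `i` -/
noncomputable def col (π : Perm (Fin N)) (i : Fin N) : ℕ :=
  ((Finset.univ : Finset (Finset (Fin N))).filter
    (fun t => Desc π t ∧ i ∈ t ∧ ∀ x ∈ t, x ≤ i)).sup Finset.card

theorem exists_col (π : Perm (Fin N)) (i : Fin N) :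
    ∃ t : Finset (Fin N), Desc π t ∧ i ∈ t ∧ (∀ x ∈ t, x ≤ i) ∧ t.card = col π i := by
  classical
  have hne : ((Finset.univ : Finset (Finset (Fin N))).filter
    (fun t => Desc π t ∧ i ∈ t ∧ ∀ x ∈ t, x ≤ i)).Nonempty := by
    refine ⟨{i}, ?_⟩
    simp only [Finset.mem_filter, Finset.mem_univ, true_and, Finset.mem_singleton]
    refine ⟨?_, fun x hx => le_of_eq hx⟩
    intro x hx y hy hxy
    rw [Finset.mem_singleton] at hx hy
    subst hx hy
    exact absurd hxy (lt_irrefl _)
  obtain ⟨t, ht, htc⟩ := Finset.exists_mem_eq_sup _ hne Finset.card
  simp only [Finset.mem_filter, Finset.mem_univ, true_and] at ht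
  exact ⟨t, ht.1, ht.2.1, ht.2.2, htc.symm⟩

theorem le_col {π : Perm (Fin N)} {i : Fin N} {t : Finset (Fin N)} (h1 : Desc π t)
    (h2 : i ∈ t) (h3 : ∀ x ∈ t, x ≤ i) : t.card ≤ col π i := by
  classical
  unfold col
  apply Finset.le_sup (f := Finset.card)
  simp [h1, h2]
  exact h3

theorem col_lt {π : Perm (Fin N)} {i j : Fin N} (hij : i < j) (hπ : π j < π i) :
    col π i < col π j := by
  classical
  obtain ⟨t, h1, h2, h3, h4⟩ := exists_col π i
  have hj : j ∉ t := fun hj => absurd (h3 j hj) (not_le.mpr hij)
  have h5 : (insert j t).card ≤ col π j := by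
    apply le_col
    · intro x hx y hy hxy
      rw [Finset.mem_insert] at hx hy
      rcases hx with rfl | hx
      · rcases hy with rfl | hy
        · exact absurd hxy (lt_irrefl _)
        · exact absurd (lt_trans (lt_of_lt_of_le hxy (h3 y hy)) hij) (lt_irrefl _)
      · rcases hy with rfl | hy
        · rcases eq_or_lt_of_le (h3 x hx) with rfl | hxi
          · exact hπ
          · exact lt_trans hπ (h1 x hx i h2 hxi)
        · exact h1 x hx y hy hxy
    · exact Finset.mem_insert_self _ _
    · intro x hx
      rw [Finset.mem_insert] at hx
      rcases hx with rfl | hx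
      · exact le_rfl
      · exact le_of_lt (lt_of_le_of_lt (h3 x hx) hij)
  rw [Finset.card_insert_of_notMem hj] at h5
  omega

theorem col_lt_of_not_bad {d : ℕ} {π : Perm (Fin N)} (h : ¬ Bad d (List.ofFn π)) (i : Fin N) :
    col π i < d := by
  classical
  by_contra hcon
  push Not at hcon
  obtain ⟨t, h1, h2, h3, h4⟩ := exists_col π i
  obtain ⟨t', ht', hc'⟩ := Finset.exists_subset_card_eq (hcon.trans h4.ge)
  apply h
  refine ⟨((List.finRange N).filter (fun x => x ∈ t')).map π, ?_, ?_, ?_⟩
  · rw [List.length_map, ← hc']
    rw [← List.toFinset_card_of_nodup ((List.nodup_finRange N).filter _)]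
    congr 1
    ext x
    simp
  · rw [List.pairwise_map]
    have hp : (List.finRange N).Pairwise (· < ·) := List.pairwise_lt_finRange N
    have hp' := hp.filter (fun x => x ∈ t')
    refine List.Pairwise.imp_of_mem ?_ hp'
    intro a b ha hb hab
    simp only [List.mem_filter, List.mem_finRange, true_and, decide_eq_true_eq] at ha hb
    exact h1 a (ht' ha) b (ht' hb) hab
  · rw [List.ofFn_eq_map]
    exact List.filter_sublist.map π

theorem perm_eq_of_col {π ρ : Perm (Fin N)} (h1 : ∀ i, col π i = col ρ i)
    (h2 : ∀ v, col π (π.symm v) = col ρ (ρ.symm v)) : π = ρ := by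
  have mono : ∀ (τ : Perm (Fin N)) (i j : Fin N), col τ i = col τ j → i < j → τ i < τ j := by
    intro τ i j hc hij
    rcases lt_trichotomy (τ i) (τ j) with h | h | h
    · exact h
    · exact absurd (τ.injective h) (ne_of_lt hij)
    · exact absurd (col_lt hij h) (by rw [hc]; exact lt_irrefl _)
  have key : ∀ n : ℕ, ∀ i : Fin N, (i : ℕ) = n → π i = ρ i := by
    intro n
    induction n using Nat.strong_induction_on with
    | _ n ih =>
      intro i hi
      rcases lt_trichotomy (π i) (ρ i) with h | h | h
      · -- π i = ρ j with j < i
        exfalso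
        let j := ρ.symm (π i)
        have hj : ρ j = π i := by simp [j]
        have hcol : col ρ j = col ρ i := by
          have := h2 (π i)
          rw [Equiv.symm_apply_apply] at this
          rw [← h1 i, this]
        have hji : j < i := by
          rcases lt_trichotomy j i with h' | h' | h'
          · exact h'
          · rw [h'] at hj
            rw [hj] at h
            exact absurd h (lt_irrefl _)
          · have := mono ρ i j hcol.symm h'
            rw [hj] at this
            exact absurd (lt_trans this h) (lt_irrefl _)
        have := ih j (by rw [← hi]; exact hji) j rfl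
        rw [hj] at this
        exact absurd (π.injective this) (ne_of_lt hji)
      · exact h
      · exfalso
        let j := π.symm (ρ i)
        have hj : π j = ρ i := by simp [j]
        have hcol : col π j = col π i := by
          have := h2 (ρ i)
          rw [Equiv.symm_apply_apply] at this
          rw [h1 i, ← this]
        have hji : j < i := by
          rcases lt_trichotomy j i with h' | h' | h'
          · exact h'
          · rw [h'] at hj
            rw [hj] at h
            exact absurd h (lt_irrefl _)
          · have := mono π i j hcol.symm h'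
            rw [hj] at this
            exact absurd (lt_trans this h) (lt_irrefl _)
        have := ih j (by rw [← hi]; exact hji) j rfl
        rw [hj] at this
        exact absurd (ρ.injective this.symm) (ne_of_lt hji)
  ext i
  rw [key i i rfl]

/-- permutations without decreasing subsequence of length `d` -/
abbrev GoodPerm (d N : ℕ) := {π : Perm (Fin N) // ¬ Bad d (List.ofFn π)}

theorem card_goodPerm (d N : ℕ) [Fintype (GoodPerm d N)] :
    Fintype.card (GoodPerm d N) ≤ d ^ N * d ^ N := by
  classical
  let f : GoodPerm d N → (Fin N → Fin d) × (Fin N → Fin d) := fun π =>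
    (fun i => ⟨col π.1 i, col_lt_of_not_bad π.2 i⟩,
      fun v => ⟨col π.1 (π.1.symm v), col_lt_of_not_bad π.2 _⟩)
  have hf : Function.Injective f := by
    intro π ρ h
    apply Subtype.ext
    apply perm_eq_of_col
    · intro i
      have := congrFun (congrArg Prod.fst h) i
      simpa [f] using this
    · intro v
      have := congrFun (congrArg Prod.snd h) v
      simpa [f] using this
  have := Fintype.card_le_of_injective f hf
  simpa using this

end Count

section Span

variable {R : Type*} [Ring R] {d : ℕ} {c : Perm (Fin d) → ℤ}

/-- the monomial function of a word -/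
def mono (R : Type*) [Ring R] {N : ℕ} (w : List (Fin N)) : (Fin N → R) → R :=
  fun r => (w.map r).prod

theorem exists_perm_of_list {N : ℕ} {w : List (Fin N)} (h : w.Perm (List.finRange N)) :
    ∃ π : Perm (Fin N), w = List.ofFn π := by
  have hlen : w.length = N := by simpa using h.length_eq
  have hnd : w.Nodup := h.nodup_iff.mpr (List.nodup_finRange N)
  let f : Fin N → Fin N := fun i => w[(i : ℕ)]
  have hf : Function.Injective f := by
    intro i j hij
    have := (List.Nodup.getElem_inj_iff hnd).mp hij
    exact Fin.ext this
  refine ⟨Equiv.ofBijective f ((Fintype.bijective_iff_injective_and_card f).mpr ⟨hf, rfl⟩), ?_⟩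
  apply List.ext_getElem
  · simp [hlen]
  · intro n h1 h2
    simp [f]

theorem mono_mem_span (hc : c 1 = 1)
    (hPI : ∀ r : Fin d → R, ∑ σ : Perm (Fin d), c σ • (List.ofFn (fun i => r (σ i))).prod = 0)
    {N : ℕ} (w : List (Fin N)) (hw : w.Perm (List.finRange N)) :
    mono R w ∈ Submodule.span ℤ
      (Set.range (fun g : GoodPerm d N => mono R (List.ofFn g.1))) := by
  have key : ∀ w : List (Fin N), w.length = N → w.Perm (List.finRange N) → mono R w ∈
      Submodule.span ℤ (Set.range (fun g : GoodPerm d N => mono R (List.ofFn g.1))) := by
    apply lex_induction N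
    intro w hlen ih hperm
    by_cases hb : Bad d w
    · have := Red.mem_span (c := c) (mono R (N := N)) (by
        intro p x
        funext a
        have := pi_rewrite hc hPI a p x
        simp only [mono]
        rw [this]
        simp [Finset.sum_apply, mono]) hb.red
        (Submodule.span ℤ
          (Set.range (fun g : GoodPerm d N => mono R (List.ofFn g.1)))).toAddSubgroup
        (by
          intro w' hw' hlt
          exact ih w' (by rw [hw'.length_eq, hlen]) hlt (hw'.trans hperm))
      exact this
    · obtain ⟨π, rfl⟩ := exists_perm_of_list hperm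
      exact Submodule.subset_span ⟨⟨π, hb⟩, rfl⟩
  exact key w (by simpa using hw.length_eq) hw

end Span

end Pool.Agent.PIRing
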