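import Pool.Agent.PIRing.Capelli

/-!
The exchange relation in a ring with a Capelli identity.
-/

set_option autoImplicit false

namespace Pool.Agent.PIRing

open Equiv

section Exchange

variable {R : Type*} [Ring R]

theorem exch_base {n : ℕ} (hcap : ∀ y x : Fin (n + 1) → R, capA y x = 0) (y x : Fin n → R) :
    capA y x = ∑ q : Fin n, x q * capA y (Function.update x q 1) := by
  have h := hcap (Fin.cons 1 y) (Fin.cons 1 x)
  rw [capA_apply, ← Equiv.sum_comp (Equiv.Perm.decomposeFin (n := n)).symm,
    Fintype.sum_prod_type, Fin.sum_univ_succ] at h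
  have h0 : ∀ σ : Perm (Fin n), Perm.sign (Equiv.Perm.decomposeFin.symm (0, σ)) •
      (List.ofFn (fun i => (Fin.cons 1 y : Fin (n + 1) → R) i *
        (Fin.cons 1 x : Fin (n + 1) → R) (Equiv.Perm.decomposeFin.symm (0, σ) i))).prod
      = Perm.sign σ • (List.ofFn (fun i => y i * x (σ i))).prod := by
    intro σ
    rw [Equiv.Perm.decomposeFin.symm_sign, if_pos rfl, one_mul, List.ofFn_succ, List.prod_cons]
    simp only [Fin.cons_zero, Fin.cons_succ, one_mul, Equiv.Perm.decomposeFin_symm_apply_zero,
      Equiv.Perm.decomposeFin_symm_apply_succ, Equiv.swap_self, Equiv.refl_apply]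
  have h1 : ∀ (q : Fin n) (σ : Perm (Fin n)),
      Perm.sign (Equiv.Perm.decomposeFin.symm (q.succ, σ)) •
      (List.ofFn (fun i => (Fin.cons 1 y : Fin (n + 1) → R) i *
        (Fin.cons 1 x : Fin (n + 1) → R) (Equiv.Perm.decomposeFin.symm (q.succ, σ) i))).prod
      = - (x q * (Perm.sign σ •
        (List.ofFn (fun i => y i * (Function.update x q 1) (σ i))).prod)) := by
    intro q σ
    rw [Equiv.Perm.decomposeFin.symm_sign, if_neg (Fin.succ_ne_zero q), List.ofFn_succ,
      List.prod_cons]
    have h2 : ∀ i : Fin n, (Fin.cons 1 x : Fin (n + 1) → R)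
        (Equiv.Perm.decomposeFin.symm (q.succ, σ) i.succ) = Function.update x q 1 (σ i) := by
      intro i
      rw [Equiv.Perm.decomposeFin_symm_apply_succ]
      by_cases hi : σ i = q
      · rw [hi, Equiv.swap_apply_right, Fin.cons_zero, Function.update_self]
      · rw [Equiv.swap_apply_of_ne_of_ne (Fin.succ_ne_zero _)
          (fun h => hi (Fin.succ_injective _ h)), Fin.cons_succ, Function.update_of_ne hi]
    simp only [Fin.cons_zero, Fin.cons_succ, one_mul, Equiv.Perm.decomposeFin_symm_apply_zero,
      h2]
    rw [mul_smul_comm, neg_mul, one_mul, Units.neg_smul]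
  simp only [h0, h1] at h
  rw [← capA_apply] at h
  simp only [Finset.sum_neg_distrib, ← Finset.mul_sum, ← capA_apply] at h
  rw [← sub_eq_add_neg, sub_eq_zero] at h
  exact h

theorem capA_update_left {n : ℕ} (y x : Fin (n + 1) → R) (c : R) :
    capA (Function.update y 0 (c * y 0)) x = c * capA y x := by
  rw [capA_apply, capA_apply, Finset.mul_sum]
  apply Finset.sum_congr rfl
  intro π _
  rw [List.ofFn_succ, List.ofFn_succ, List.prod_cons, List.prod_cons, mul_smul_comm]
  congr 1
  rw [Function.update_self, mul_assoc, mul_assoc, mul_assoc]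
  congr 3

/-- **Exchange relation.** -/
theorem exch {n : ℕ} (hcap : ∀ y x : Fin (n + 1) → R, capA y x = 0) (y x : Fin n → R)
    (c z : R) :
    c * capA y x * z = ∑ q : Fin n, x q * (c * capA y (Function.update x q 1) * z) := by
  cases n with
  | zero =>
    have h := exch_base hcap y x
    rw [h]
    simp
  | succ n =>
    have h := exch_base hcap (Function.update y 0 (c * y 0)) x
    rw [← capA_update_left, h, Finset.sum_mul]
    apply Finset.sum_congr rfl
    intro q _
    rw [capA_update_left, mul_assoc]

end Exchange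

end Pool.Agent.PIRing
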