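import Pool.Agent.PIRing.MatId

/-!
Fox derivatives in the free ring with values in `F ⊗ F`.
-/

set_option autoImplicit false

namespace Pool.Agent.PIRing

open TensorProduct

/-- the free ring, as a plain ring -/
def FR (t : ℕ) := FreeAlgebra ℤ (Fin t)

instance (t : ℕ) : Ring (FR t) := inferInstanceAs (Ring (FreeAlgebra ℤ (Fin t)))

/-- the variables -/
def FR.X {t : ℕ} (j : Fin t) : FR t := FreeAlgebra.ι ℤ j

/-- evaluation -/
noncomputable def FR.lift {t : ℕ} {A : Type*} [Ring A] (v : Fin t → A) : FR t →+* A :=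
  (FreeAlgebra.lift ℤ v : FreeAlgebra ℤ (Fin t) →ₐ[ℤ] A).toRingHom

theorem FR.lift_X {t : ℕ} {A : Type*} [Ring A] (v : Fin t → A) (j : Fin t) :
    FR.lift v (FR.X j) = v j :=
  FreeAlgebra.lift_ι_apply v j

theorem FR.induction {t : ℕ} {C : FR t → Prop} (int : ∀ z : ℤ, C (z : FR t))
    (X : ∀ j, C (FR.X j)) (mul : ∀ f g, C f → C g → C (f * g))
    (add : ∀ f g, C f → C g → C (f + g)) (f : FR t) : C f := by
  refine FreeAlgebra.induction ℤ (Fin t) (motive := fun f => C f) ?_ X mul add f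
  intro z
  have : (algebraMap ℤ (FreeAlgebra ℤ (Fin t)) z : FR t) = ((z : ℤ) : FR t) :=
    (map_intCast (algebraMap ℤ (FreeAlgebra ℤ (Fin t))) z)
  rw [this]
  exact int z

section Fox

variable {t : ℕ}

/-- the triangular representation -/
noncomputable def Th (i : Fin t) :
    FR t →+* Matrix (Fin 2) (Fin 2) (FR t ⊗[ℤ] FR t) :=
  FR.lift (fun j =>
    !![FR.X j ⊗ₜ[ℤ] (1 : FR t), if i = j then 1 else 0;
       0, (1 : FR t) ⊗ₜ[ℤ] FR.X j])

theorem intCast_tmul (z : ℤ) : ((z : FR t) ⊗ₜ[ℤ] (1 : FR t)) = (z : FR t ⊗[ℤ] FR t) := by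
  have h1 : (z : FR t) = z • (1 : FR t) := by simp
  rw [h1, ← TensorProduct.smul_tmul']
  have h2 : (1 : FR t) ⊗ₜ[ℤ] (1 : FR t) = (1 : FR t ⊗[ℤ] FR t) := rfl
  rw [h2]
  simp

theorem tmul_intCast (z : ℤ) : ((1 : FR t) ⊗ₜ[ℤ] (z : FR t)) = (z : FR t ⊗[ℤ] FR t) := by
  have h1 : (z : FR t) = z • (1 : FR t) := by simp
  rw [h1, TensorProduct.tmul_smul]
  have h2 : (1 : FR t) ⊗ₜ[ℤ] (1 : FR t) = (1 : FR t ⊗[ℤ] FR t) := rfl
  rw [h2]
  simp

theorem matInt_diag {A : Type*} [Ring A] (z : ℤ) (i : Fin 2) :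
    (z : Matrix (Fin 2) (Fin 2) A) i i = (z : A) := by
  rw [← Matrix.diagonal_intCast, Matrix.diagonal_apply_eq]

theorem matInt_off {A : Type*} [Ring A] (z : ℤ) (i j : Fin 2) (h : i ≠ j) :
    (z : Matrix (Fin 2) (Fin 2) A) i j = 0 := by
  rw [← Matrix.diagonal_intCast, Matrix.diagonal_apply_ne _ h]

theorem Th_diag (i : Fin t) (f : FR t) :
    Th i f 0 0 = f ⊗ₜ[ℤ] (1 : FR t) ∧ Th i f 1 1 = (1 : FR t) ⊗ₜ[ℤ] f ∧ Th i f 1 0 = 0 := by
  induction f using FR.induction with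
  | int z =>
    rw [map_intCast]
    refine ⟨?_, ?_, ?_⟩
    · rw [matInt_diag, intCast_tmul]
    · rw [matInt_diag, tmul_intCast]
    · rw [matInt_off _ _ _ (by decide)]
  | X j =>
    unfold Th
    rw [FR.lift_X]
    exact ⟨rfl, rfl, rfl⟩
  | mul a b ha hb =>
    obtain ⟨ha1, ha2, ha3⟩ := ha
    obtain ⟨hb1, hb2, hb3⟩ := hb
    rw [map_mul]
    refine ⟨?_, ?_, ?_⟩
    · rw [Matrix.mul_apply, Fin.sum_univ_two, ha1, hb1, hb3, mul_zero, add_zero,
        Algebra.TensorProduct.tmul_mul_tmul, mul_one]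
    · rw [Matrix.mul_apply, Fin.sum_univ_two, ha3, ha2, hb2, zero_mul, zero_add,
        Algebra.TensorProduct.tmul_mul_tmul, mul_one]
    · rw [Matrix.mul_apply, Fin.sum_univ_two, ha3, hb3, zero_mul, mul_zero, add_zero]
  | add a b ha hb =>
    obtain ⟨ha1, ha2, ha3⟩ := ha
    obtain ⟨hb1, hb2, hb3⟩ := hb
    rw [map_add]
    refine ⟨?_, ?_, ?_⟩
    · rw [Matrix.add_apply, ha1, hb1, TensorProduct.add_tmul]
    · rw [Matrix.add_apply, ha2, hb2, TensorProduct.tmul_add]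
    · rw [Matrix.add_apply, ha3, hb3, add_zero]

/-- Fox derivative -/
noncomputable def fox (i : Fin t) (f : FR t) : FR t ⊗[ℤ] FR t := Th i f 0 1

theorem fox_mul (i : Fin t) (f g : FR t) :
    fox i (f * g) = (f ⊗ₜ[ℤ] (1 : FR t)) * fox i g + fox i f * ((1 : FR t) ⊗ₜ[ℤ] g) := by
  unfold fox
  rw [map_mul, Matrix.mul_apply, Fin.sum_univ_two, (Th_diag i f).1, (Th_diag i g).2.1]

theorem fox_add (i : Fin t) (f g : FR t) : fox i (f + g) = fox i f + fox i g := by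
  unfold fox
  rw [map_add, Matrix.add_apply]

theorem fox_int (i : Fin t) (z : ℤ) : fox i (z : FR t) = 0 := by
  unfold fox
  rw [map_intCast, matInt_off _ _ _ (by decide)]

theorem fox_X (i j : Fin t) : fox i (FR.X j) = if i = j then 1 else 0 := by
  unfold fox Th
  rw [FR.lift_X]
  rfl

/-- the fundamental formula -/
theorem fox_fundamental (f : FR t) :
    f ⊗ₜ[ℤ] (1 : FR t) - (1 : FR t) ⊗ₜ[ℤ] f
      = ∑ i : Fin t, (fox i f * (FR.X i ⊗ₜ[ℤ] (1 : FR t))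
        - ((1 : FR t) ⊗ₜ[ℤ] FR.X i) * fox i f) := by
  induction f using FR.induction with
  | int z =>
    simp only [fox_int, zero_mul, mul_zero, sub_zero, Finset.sum_const_zero]
    rw [intCast_tmul, tmul_intCast, sub_self]
  | X j =>
    simp only [fox_X, ite_mul, mul_ite, one_mul, mul_one, zero_mul, mul_zero]
    rw [Finset.sum_eq_single j]
    · simp
    · intro i _ hi
      simp [hi]
    · intro h
      exact absurd (Finset.mem_univ _) h
  | mul f g hf hg =>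
    have h1 : (f * g) ⊗ₜ[ℤ] (1 : FR t) - (1 : FR t) ⊗ₜ[ℤ] (f * g)
        = (f ⊗ₜ[ℤ] (1 : FR t)) * (g ⊗ₜ[ℤ] (1 : FR t) - (1 : FR t) ⊗ₜ[ℤ] g)
          + (f ⊗ₜ[ℤ] (1 : FR t) - (1 : FR t) ⊗ₜ[ℤ] f) * ((1 : FR t) ⊗ₜ[ℤ] g) := by
      simp only [mul_sub, sub_mul, Algebra.TensorProduct.tmul_mul_tmul, mul_one, one_mul]
      abel
    rw [h1, hf, hg, Finset.mul_sum, Finset.sum_mul, ← Finset.sum_add_distrib]
    apply Finset.sum_congr rfl
    intro i _
    rw [fox_mul]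
    have h2 : ((1 : FR t) ⊗ₜ[ℤ] g) * (FR.X i ⊗ₜ[ℤ] (1 : FR t))
        = (FR.X i ⊗ₜ[ℤ] (1 : FR t)) * ((1 : FR t) ⊗ₜ[ℤ] g) := by
      simp
    have h3 : ((1 : FR t) ⊗ₜ[ℤ] FR.X i) * (f ⊗ₜ[ℤ] (1 : FR t))
        = (f ⊗ₜ[ℤ] (1 : FR t)) * ((1 : FR t) ⊗ₜ[ℤ] FR.X i) := by
      simp
    rw [mul_sub, sub_mul, add_mul, mul_add]
    rw [mul_assoc (fox i f) ((1 : FR t) ⊗ₜ[ℤ] g), h2,
      ← mul_assoc ((1 : FR t) ⊗ₜ[ℤ] FR.X i) (f ⊗ₜ[ℤ] (1 : FR t)), h3]
    simp only [mul_assoc]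
    abel
  | add f g hf hg =>
    rw [TensorProduct.add_tmul, TensorProduct.tmul_add]
    have : f ⊗ₜ[ℤ] (1 : FR t) + g ⊗ₜ[ℤ] (1 : FR t)
        - ((1 : FR t) ⊗ₜ[ℤ] f + (1 : FR t) ⊗ₜ[ℤ] g)
        = (f ⊗ₜ[ℤ] (1 : FR t) - (1 : FR t) ⊗ₜ[ℤ] f)
          + (g ⊗ₜ[ℤ] (1 : FR t) - (1 : FR t) ⊗ₜ[ℤ] g) := by abel
    rw [this, hf, hg, ← Finset.sum_add_distrib]
    apply Finset.sum_congr rfl
    intro i _
    rw [fox_add]
    simp only [add_mul, mul_add]
    abel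

end Fox

section Eval

variable {t a b : ℕ}

/-- evaluation of a tensor on a rectangular matrix -/
noncomputable def Ev (p : Fin t → Matrix (Fin a) (Fin a) ℤ)
    (q : Fin t → Matrix (Fin b) (Fin b) ℤ) (c : Matrix (Fin a) (Fin b) ℤ) :
    FR t ⊗[ℤ] FR t →ₗ[ℤ] Matrix (Fin a) (Fin b) ℤ :=
  TensorProduct.lift (LinearMap.mk₂ ℤ
    (fun u v => FR.lift p u * c * FR.lift q v)
    (by intro u u' v; rw [map_add, Matrix.add_mul, Matrix.add_mul])
    (by intro z u v; rw [map_zsmul, Matrix.smul_mul, Matrix.smul_mul])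
    (by intro u v v'; rw [map_add, Matrix.mul_add])
    (by intro z u v; rw [map_zsmul, Matrix.mul_smul]))

theorem Ev_tmul (p : Fin t → Matrix (Fin a) (Fin a) ℤ)
    (q : Fin t → Matrix (Fin b) (Fin b) ℤ) (c : Matrix (Fin a) (Fin b) ℤ) (u v : FR t) :
    Ev p q c (u ⊗ₜ[ℤ] v) = FR.lift p u * c * FR.lift q v := rfl

theorem Ev_mul_left (p : Fin t → Matrix (Fin a) (Fin a) ℤ)
    (q : Fin t → Matrix (Fin b) (Fin b) ℤ) (c : Matrix (Fin a) (Fin b) ℤ) (f : FR t)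
    (ω : FR t ⊗[ℤ] FR t) :
    Ev p q c ((f ⊗ₜ[ℤ] (1 : FR t)) * ω) = FR.lift p f * Ev p q c ω := by
  induction ω with
  | zero => rw [mul_zero, map_zero, Matrix.mul_zero]
  | tmul u v =>
    rw [Algebra.TensorProduct.tmul_mul_tmul, Ev_tmul, Ev_tmul, map_mul, one_mul]
    simp only [Matrix.mul_assoc]
  | add x y hx hy => rw [mul_add, map_add, map_add, hx, hy, Matrix.mul_add]

theorem Ev_mul_right (p : Fin t → Matrix (Fin a) (Fin a) ℤ)
    (q : Fin t → Matrix (Fin b) (Fin b) ℤ) (c : Matrix (Fin a) (Fin b) ℤ) (g : FR t)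
    (ω : FR t ⊗[ℤ] FR t) :
    Ev p q c (ω * ((1 : FR t) ⊗ₜ[ℤ] g)) = Ev p q c ω * FR.lift q g := by
  induction ω with
  | zero => rw [zero_mul, map_zero, Matrix.zero_mul]
  | tmul u v =>
    rw [Algebra.TensorProduct.tmul_mul_tmul, Ev_tmul, Ev_tmul, mul_one, map_mul]
    simp only [Matrix.mul_assoc]
  | add x y hx hy => rw [add_mul, map_add, map_add, hx, hy, Matrix.add_mul]

/-- block triangular evaluation -/
theorem lift_blocks (p : Fin t → Matrix (Fin a) (Fin a) ℤ)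
    (q : Fin t → Matrix (Fin b) (Fin b) ℤ) (c : Matrix (Fin a) (Fin b) ℤ) (i : Fin t)
    (f : FR t) :
    FR.lift (fun j => Matrix.fromBlocks (p j) (if i = j then c else 0) 0 (q j)) f
      = Matrix.fromBlocks (FR.lift p f) (Ev p q c (fox i f)) 0
          (FR.lift q f) := by
  induction f using FR.induction with
  | int z =>
    rw [map_intCast, map_intCast, map_intCast, fox_int, map_zero]
    rw [← Matrix.diagonal_intCast, ← Matrix.diagonal_intCast, ← Matrix.diagonal_intCast,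
      Matrix.fromBlocks_diagonal]
    congr 1
    funext s
    cases s <;> rfl
  | X j =>
    rw [FR.lift_X, FR.lift_X, FR.lift_X, fox_X]
    congr 1
    by_cases h : i = j
    · rw [if_pos h, if_pos h]
      have : (1 : FR t ⊗[ℤ] FR t) = (1 : FR t) ⊗ₜ[ℤ] (1 : FR t) := rfl
      rw [this, Ev_tmul, map_one, map_one, Matrix.one_mul, Matrix.mul_one]
    · rw [if_neg h, if_neg h, map_zero]
  | mul f g hf hg =>
    rw [map_mul, hf, hg, Matrix.fromBlocks_multiply, fox_mul, map_add, Ev_mul_left,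
      Ev_mul_right, map_mul, map_mul]
    simp
  | add f g hf hg =>
    rw [map_add, hf, hg, Matrix.fromBlocks_add, fox_add, map_add, map_add, map_add, add_zero]

end Eval

end Pool.Agent.PIRing
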