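import Pool.Agent.PIRing.Shift

/-!
Left multiplication by `W m` is integral over the shift polynomials on Capelli functions.
-/

set_option autoImplicit false

namespace Pool.Agent.PIRing

open Equiv

section Lin

variable {Λ V : Type*} [CommRing Λ] [AddCommGroup V] [Module Λ V]

theorem int_span (f : V →ₗ[Λ] V) (P : Polynomial Λ) (hP : P.Monic) (v : V)
    (h : Polynomial.aeval f P v = 0) :
    (f ^ P.natDegree) v ∈
      Submodule.span Λ (Set.range (fun j : Fin P.natDegree => (f ^ (j : ℕ)) v)) := by
  rw [Polynomial.aeval_eq_sum_range, Finset.sum_range_succ, hP.coeff_natDegree, one_smul,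
    LinearMap.add_apply] at h
  have h1 := eq_neg_of_add_eq_zero_right h
  rw [h1, LinearMap.sum_apply]
  apply Submodule.neg_mem
  apply Submodule.sum_mem
  intro j hj
  rw [LinearMap.smul_apply]
  apply Submodule.smul_mem
  exact Submodule.subset_span ⟨⟨j, Finset.mem_range.mp hj⟩, rfl⟩

end Lin

section Block

variable {R : Type*} [Ring R] {M n : ℕ}

/-- left multiplication -/
noncomputable def lm {J : Type*} (r : R) :
    Sh J R →ₗ[MvPolynomial J ℤ] Sh J R where
  toFun v := r • v
  map_add' := smul_add r
  map_smul' p v := smul_comm r p v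

theorem lm_apply {J : Type*} (r : R) (v : Sh J R) : lm r v = r • v := rfl

theorem lm_pow {J : Type*} (r : R) (j : ℕ) (v : Sh J R) : (lm r ^ j) v = r ^ j • v := by
  induction j generalizing v with
  | zero => simp
  | succ j ih =>
    rw [pow_succ, pow_succ, Module.End.mul_apply, ih, lm_apply, mul_smul]

/-- one block -/
noncomputable def blk (W : Fin M → R) (Y x : Fin M → Fin n → R) (z : Fin M → R)
    (e : Fin M × Fin n →₀ ℕ) (m : Fin M) : R :=
  capA (Y m) (fun i => W m ^ (e (m, i)) * x m i) * z m

/-- product of the blocks, as a function of the exponents -/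
noncomputable def hfun (W : Fin M → R) (Y x : Fin M → Fin n → R) (z : Fin M → R) :
    Sh (Fin M × Fin n) R :=
  fun e => (List.ofFn (blk W Y x z e)).prod

theorem prod_split {K : ℕ} (b : Fin K → R) (m : Fin K) :
    (List.ofFn b).prod = ((List.ofFn b).take m).prod * (b m *
      ((List.ofFn b).drop (m + 1)).prod) := by
  conv_lhs => rw [← List.take_append_drop (m : ℕ) (List.ofFn b)]
  rw [List.prod_append, List.drop_eq_getElem_cons (by simp), List.prod_cons]
  simp

theorem blk_shift_ne (W : Fin M → R) (Y x : Fin M → Fin n → R) (z : Fin M → R)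
    (e : Fin M × Fin n →₀ ℕ) (m m' : Fin M) (i : Fin n) (h : m' ≠ m) :
    blk W Y x z (e + Finsupp.single (m, i) 1) m' = blk W Y x z e m' := by
  unfold blk
  congr 2
  funext i'
  have : (e + Finsupp.single (m, i) 1 : Fin M × Fin n →₀ ℕ) (m', i') = e (m', i') := by
    rw [Finsupp.add_apply, Finsupp.single_apply, if_neg, add_zero]
    intro h'
    exact h (congrArg Prod.fst h').symm
  rw [this]

theorem take_shift (W : Fin M → R) (Y x : Fin M → Fin n → R) (z : Fin M → R)
    (e : Fin M × Fin n →₀ ℕ) (m : Fin M) (i : Fin n) :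
    (List.ofFn (blk W Y x z (e + Finsupp.single (m, i) 1))).take m
      = (List.ofFn (blk W Y x z e)).take m := by
  apply List.ext_getElem
  · simp
  · intro t h1 h2
    have ht : t < (m : ℕ) := by
      simp only [List.length_take, List.length_ofFn] at h1
      omega
    simp only [List.getElem_take, List.getElem_ofFn]
    apply blk_shift_ne
    intro h
    have := congrArg Fin.val h
    simp at this
    omega

theorem drop_shift (W : Fin M → R) (Y x : Fin M → Fin n → R) (z : Fin M → R)
    (e : Fin M × Fin n →₀ ℕ) (m : Fin M) (i : Fin n) :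
    (List.ofFn (blk W Y x z (e + Finsupp.single (m, i) 1))).drop (m + 1)
      = (List.ofFn (blk W Y x z e)).drop (m + 1) := by
  apply List.ext_getElem
  · simp
  · intro t h1 h2
    simp only [List.getElem_drop, List.getElem_ofFn]
    apply blk_shift_ne
    intro h
    have := congrArg Fin.val h
    simp at this
    omega

/-- the summand of the exchange relation -/
noncomputable def gfun (W : Fin M → R) (Y x : Fin M → Fin n → R) (z : Fin M → R) (c : R)
    (m : Fin M) (i : Fin n) : Sh (Fin M × Fin n) R :=
  fun e => (W m ^ (e (m, i)) * x m i) *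
    ((c * ((List.ofFn (blk W Y x z e)).take m).prod) *
      capA (Y m) (Function.update (fun i => W m ^ (e (m, i)) * x m i) i 1) *
      (z m * ((List.ofFn (blk W Y x z e)).drop (m + 1)).prod))

theorem smul_hfun_eq (hcap : ∀ y x : Fin (n + 1) → R, capA y x = 0)
    (W : Fin M → R) (Y x : Fin M → Fin n → R) (z : Fin M → R) (c : R) (m : Fin M) :
    c • hfun W Y x z = ∑ i : Fin n, gfun W Y x z c m i := by
  funext e
  have h1 : (∑ i : Fin n, gfun W Y x z c m i) e = ∑ i : Fin n, gfun W Y x z c m i e :=
    Finset.sum_apply e Finset.univ (fun i => gfun W Y x z c m i)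
  rw [h1, smul_apply']
  unfold hfun gfun
  rw [prod_split _ m, ← exch hcap]
  simp only [blk, mul_assoc]

theorem lm_gfun (W : Fin M → R) (Y x : Fin M → Fin n → R) (z : Fin M → R) (c : R)
    (m : Fin M) (i : Fin n) :
    lm (W m) (gfun W Y x z c m i)
      = (MvPolynomial.X (m, i) : MvPolynomial (Fin M × Fin n) ℤ) • gfun W Y x z c m i := by
  funext e
  rw [lm_apply, smul_apply', X_smul]
  unfold gfun
  rw [take_shift, drop_shift]
  have h1 : (e + Finsupp.single (m, i) 1 : Fin M × Fin n →₀ ℕ) (m, i) = e (m, i) + 1 := by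
    rw [Finsupp.add_apply, Finsupp.single_apply, if_pos rfl]
  have h2 : Function.update
      (fun i' => W m ^ ((e + Finsupp.single (m, i) 1 : Fin M × Fin n →₀ ℕ) (m, i')) * x m i') i 1
      = Function.update (fun i' => W m ^ (e (m, i')) * x m i') i 1 := by
    funext i'
    by_cases hi : i' = i
    · subst hi; simp
    · rw [Function.update_of_ne hi, Function.update_of_ne hi]
      have : (e + Finsupp.single (m, i) 1 : Fin M × Fin n →₀ ℕ) (m, i') = e (m, i') := by
        rw [Finsupp.add_apply, Finsupp.single_apply, if_neg, add_zero]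
        intro h'
        exact hi (congrArg Prod.snd h').symm
      rw [this]
  rw [h1, h2, pow_succ']
  simp only [mul_assoc]

/-- the characteristic polynomial of the block `m` -/
noncomputable def chPoly (M n : ℕ) (m : Fin M) :
    Polynomial (MvPolynomial (Fin M × Fin n) ℤ) :=
  ∏ i : Fin n, (Polynomial.X - Polynomial.C (MvPolynomial.X (m, i)))

theorem chPoly_monic (m : Fin M) : (chPoly M n m).Monic :=
  Polynomial.monic_prod_of_monic _ _ (fun i _ => Polynomial.monic_X_sub_C _)

theorem chPoly_natDegree (m : Fin M) : (chPoly M n m).natDegree = n := by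
  unfold chPoly
  rw [Polynomial.natDegree_prod_of_monic _ _ (fun i _ => Polynomial.monic_X_sub_C _)]
  simp

theorem aeval_chPoly (hcap : ∀ y x : Fin (n + 1) → R, capA y x = 0)
    (W : Fin M → R) (Y x : Fin M → Fin n → R) (z : Fin M → R) (c : R) (m : Fin M) :
    Polynomial.aeval (lm (W m)) (chPoly M n m) (c • hfun W Y x z) = 0 := by
  rw [smul_hfun_eq hcap W Y x z c m, map_sum]
  apply Finset.sum_eq_zero
  intro i _
  unfold chPoly
  rw [← Finset.prod_erase_mul _ _ (Finset.mem_univ i), map_mul, Module.End.mul_apply]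
  have : Polynomial.aeval (lm (J := Fin M × Fin n) (W m))
      (Polynomial.X - Polynomial.C (MvPolynomial.X (m, i) : MvPolynomial (Fin M × Fin n) ℤ))
      (gfun W Y x z c m i) = 0 := by
    rw [map_sub, Polynomial.aeval_X, Polynomial.aeval_C, LinearMap.sub_apply,
      Module.algebraMap_end_apply, lm_gfun, sub_self]
  rw [this, map_zero]

/-- **Integrality.** -/
theorem integral_hfun (hcap : ∀ y x : Fin (n + 1) → R, capA y x = 0)
    (W : Fin M → R) (Y x : Fin M → Fin n → R) (z : Fin M → R) (c : R) (m : Fin M) :
    W m ^ n • (c • hfun W Y x z) ∈ Submodule.span (MvPolynomial (Fin M × Fin n) ℤ)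
      (Set.range (fun j : Fin n => W m ^ (j : ℕ) • (c • hfun W Y x z))) := by
  have h := int_span (lm (W m)) (chPoly M n m) (chPoly_monic m) (c • hfun W Y x z)
    (aeval_chPoly hcap W Y x z c m)
  simp only [lm_pow] at h
  rw [chPoly_natDegree] at h
  exact h

end Block

end Pool.Agent.PIRing
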