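import Pool.Agent.PIRing.Fox

/-!
The product theorem over `ℤ`: every identity of `M_{a+b}(ℤ)` is a sum of products of an
identity of `M_a(ℤ)` and an identity of `M_b(ℤ)`.
-/

set_option autoImplicit false

namespace Pool.Agent.PIRing

open TensorProduct

/-- identities of `M_m(ℤ)` in the free ring -/
noncomputable def TI (m t : ℕ) : Submodule ℤ (FR t) where
  carrier := {f | ∀ v : Fin t → Matrix (Fin m) (Fin m) ℤ, FR.lift v f = 0}
  add_mem' := by
    intro f g hf hg v
    rw [map_add, hf, hg, add_zero]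
  zero_mem' := by
    intro v
    rw [map_zero]
  smul_mem' := by
    intro z f hf v
    rw [map_zsmul, hf, smul_zero]

theorem mem_TI {m t : ℕ} {f : FR t} :
    f ∈ TI m t ↔ ∀ v : Fin t → Matrix (Fin m) (Fin m) ℤ, FR.lift v f = 0 := Iff.rfl

theorem TI.mul_left {m t : ℕ} {f : FR t} (hf : f ∈ TI m t) (g : FR t) : g * f ∈ TI m t := by
  intro v
  rw [map_mul, hf, mul_zero]

theorem TI.mul_right {m t : ℕ} {f : FR t} (hf : f ∈ TI m t) (g : FR t) : f * g ∈ TI m t := by
  intro v
  rw [map_mul, hf, zero_mul]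

instance TI.torsionFree (m t : ℕ) : Module.IsTorsionFree ℤ (FR t ⧸ TI m t) := by
  rw [Module.isTorsionFree_iff_smul_eq_zero]
  intro z x hx
  by_cases hz : z = 0
  · exact Or.inl hz
  right
  obtain ⟨f, rfl⟩ := Submodule.mkQ_surjective _ x
  rw [← map_smul, Submodule.mkQ_apply, Submodule.Quotient.mk_eq_zero] at hx
  rw [Submodule.mkQ_apply, Submodule.Quotient.mk_eq_zero]
  intro v
  have h1 := hx v
  rw [map_zsmul] at h1
  apply Matrix.ext
  intro a b
  have h2 := congrFun (congrFun h1 a) b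
  rw [Matrix.smul_apply, Matrix.zero_apply, smul_eq_mul] at h2
  exact (mul_eq_zero.mp h2).resolve_left hz

section Inj

variable {t : ℕ}

/-- evaluation on the quotient -/
noncomputable def phi {m : ℕ} (p : Fin t → Matrix (Fin m) (Fin m) ℤ) :
    (FR t ⧸ TI m t) →ₗ[ℤ] Matrix (Fin m) (Fin m) ℤ :=
  (TI m t).liftQ ((FR.lift p).toAddMonoidHom.toIntLinearMap) (by
    intro f hf
    exact hf p)

theorem phi_mk {m : ℕ} (p : Fin t → Matrix (Fin m) (Fin m) ℤ) (f : FR t) :
    phi p ((TI m t).mkQ f) = FR.lift p f := rfl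

theorem phi_injective {m : ℕ} (x : FR t ⧸ TI m t)
    (h : ∀ p : Fin t → Matrix (Fin m) (Fin m) ℤ, phi p x = 0) : x = 0 := by
  obtain ⟨f, rfl⟩ := Submodule.mkQ_surjective _ x
  rw [Submodule.mkQ_apply, Submodule.Quotient.mk_eq_zero]
  intro v
  exact h v

variable {a b : ℕ}

/-- evaluation of tensors over the quotients -/
noncomputable def EvQ (p : Fin t → Matrix (Fin a) (Fin a) ℤ)
    (q : Fin t → Matrix (Fin b) (Fin b) ℤ) (c : Matrix (Fin a) (Fin b) ℤ) :
    (FR t ⧸ TI a t) ⊗[ℤ] (FR t ⧸ TI b t) →ₗ[ℤ] Matrix (Fin a) (Fin b) ℤ :=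
  TensorProduct.lift (LinearMap.mk₂ ℤ
    (fun u v => phi p u * c * phi q v)
    (by intro u u' v; rw [map_add, Matrix.add_mul, Matrix.add_mul])
    (by intro z u v; rw [map_zsmul, Matrix.smul_mul, Matrix.smul_mul])
    (by intro u v v'; rw [map_add, Matrix.mul_add])
    (by intro z u v; rw [map_zsmul, Matrix.mul_smul]))

theorem EvQ_tmul (p : Fin t → Matrix (Fin a) (Fin a) ℤ)
    (q : Fin t → Matrix (Fin b) (Fin b) ℤ) (c : Matrix (Fin a) (Fin b) ℤ)
    (u : FR t ⧸ TI a t) (v : FR t ⧸ TI b t) :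
    EvQ p q c (u ⊗ₜ[ℤ] v) = phi p u * c * phi q v := rfl

theorem EvQ_map (p : Fin t → Matrix (Fin a) (Fin a) ℤ)
    (q : Fin t → Matrix (Fin b) (Fin b) ℤ) (c : Matrix (Fin a) (Fin b) ℤ)
    (ω : FR t ⊗[ℤ] FR t) :
    EvQ p q c (TensorProduct.map (TI a t).mkQ (TI b t).mkQ ω) = Ev p q c ω := by
  induction ω with
  | zero => rw [map_zero, map_zero, map_zero]
  | tmul u v => rfl
  | add x y hx hy => rw [map_add, map_add, map_add, hx, hy]

theorem EvQ_injective (x : (FR t ⧸ TI a t) ⊗[ℤ] (FR t ⧸ TI b t))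
    (h : ∀ (p : Fin t → Matrix (Fin a) (Fin a) ℤ) (q : Fin t → Matrix (Fin b) (Fin b) ℤ)
      (c : Matrix (Fin a) (Fin b) ℤ), EvQ p q c x = 0) : x = 0 := by
  classical
  obtain ⟨M', hfin, hM'⟩ := TensorProduct.exists_finite_submodule_left_of_setFinite {x}
    (Set.finite_singleton x)
  obtain ⟨x', hx'⟩ := hM' (Set.mem_singleton x)
  have hfree : Module.Free ℤ M' := inferInstance
  let B := Module.Free.chooseBasis ℤ M'
  obtain ⟨c, hc⟩ := TensorProduct.eq_repr_basis_left (N := FR t ⧸ TI b t) B x'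
  have hc0 : c = 0 := by
    ext i
    rw [Finsupp.zero_apply]
    apply phi_injective
    intro q
    apply Matrix.ext
    intro β δ
    rw [Matrix.zero_apply]
    have hlin := Fintype.linearIndependent_iff.mp B.linearIndependent
      (fun i => phi q (c i) β δ) ?_ i
    · exact hlin
    apply Subtype.ext
    rw [Submodule.coe_zero, Submodule.coe_sum]
    apply phi_injective
    intro p
    apply Matrix.ext
    intro γ α
    have h1 := h p q (Matrix.single α β 1)
    have h2 := congrFun (congrFun h1 γ) δ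
    rw [← hx', ← hc, Finsupp.sum_fintype _ _ (by intro i; simp), map_sum, map_sum] at h2
    rw [Matrix.sum_apply] at h2
    rw [map_sum, Matrix.sum_apply, Matrix.zero_apply]
    rw [Matrix.zero_apply] at h2
    rw [← h2]
    apply Finset.sum_congr rfl
    intro j _
    rw [LinearMap.rTensor_tmul, EvQ_tmul]
    rw [Submodule.coe_smul, map_zsmul, Matrix.smul_apply, Submodule.coe_subtype, smul_eq_mul]
    rw [Matrix.mul_apply, Finset.sum_eq_single β]
    · rw [Matrix.mul_apply, Finset.sum_eq_single α]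
      · simp [mul_comm]
      · intro α' _ hα'
        rw [Matrix.single_apply_of_row_ne hα'.symm, mul_zero]
      · intro hh
        exact absurd (Finset.mem_univ _) hh
    · intro β' _ hβ'
      rw [Matrix.mul_apply, Finset.sum_eq_zero, zero_mul]
      intro α' _
      rw [Matrix.single_apply_of_col_ne _ _ hβ'.symm, mul_zero]
    · intro hh
      exact absurd (Finset.mem_univ _) hh
  rw [hc0, Finsupp.sum_zero_index] at hc
  rw [← hx', ← hc, map_zero]

theorem mem_of_Ev_zero (ω : FR t ⊗[ℤ] FR t)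
    (h : ∀ (p : Fin t → Matrix (Fin a) (Fin a) ℤ) (q : Fin t → Matrix (Fin b) (Fin b) ℤ)
      (c : Matrix (Fin a) (Fin b) ℤ), Ev p q c ω = 0) :
    ω ∈ LinearMap.range ((TI b t).subtype.lTensor (FR t)) ⊔
      LinearMap.range ((TI a t).subtype.rTensor (FR t)) := by
  rw [← TensorProduct.map_ker (LinearMap.exact_subtype_mkQ (TI a t))
    (Submodule.mkQ_surjective _) (LinearMap.exact_subtype_mkQ (TI b t))
    (Submodule.mkQ_surjective _), LinearMap.mem_ker]
  apply EvQ_injective
  intro p q c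
  rw [EvQ_map, h]

end Inj

section Inter

variable {t a b : ℕ}

theorem inter_range (ω : FR t ⊗[ℤ] FR t)
    (h1 : ω ∈ LinearMap.range ((TI a t).subtype.rTensor (FR t)))
    (h2 : ω ∈ LinearMap.range ((TI b t).subtype.lTensor (FR t))) :
    ω ∈ LinearMap.range (TensorProduct.map (TI a t).subtype (TI b t).subtype) := by
  obtain ⟨ω', rfl⟩ := h1
  have h3 : (TI b t).mkQ.lTensor (FR t) ((TI a t).subtype.rTensor (FR t) ω') = 0 := by
    have hex := lTensor_exact (FR t) (LinearMap.exact_subtype_mkQ (TI b t))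
      (Submodule.mkQ_surjective _)
    exact (hex _).mpr h2
  have h4 : (TI a t).subtype.rTensor (FR t ⧸ TI b t) ((TI b t).mkQ.lTensor (TI a t) ω') = 0 := by
    rw [← h3, ← LinearMap.comp_apply, ← LinearMap.comp_apply, LinearMap.rTensor_comp_lTensor,
      LinearMap.lTensor_comp_rTensor]
  have h5 : (TI b t).mkQ.lTensor (TI a t) ω' = 0 := by
    apply Module.Flat.rTensor_preserves_injective_linearMap (M := FR t ⧸ TI b t)
      (TI a t).subtype Subtype.val_injective
    rw [h4, map_zero]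
  have h6 : ω' ∈ LinearMap.range ((TI b t).subtype.lTensor (TI a t)) := by
    have hex := lTensor_exact (TI a t) (LinearMap.exact_subtype_mkQ (TI b t))
      (Submodule.mkQ_surjective _)
    exact (hex _).mp h5
  obtain ⟨ω'', rfl⟩ := h6
  refine ⟨ω'', ?_⟩
  rw [← LinearMap.comp_apply, LinearMap.rTensor_comp_lTensor]

end Inter

end Pool.Agent.PIRing
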