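import Mathlib

/-!
Identities of integer matrices hold for matrices over every commutative ring, and for rings
acting on finitely generated modules over a commutative ring.
-/

set_option autoImplicit false

namespace Pool.Agent.PIRing

/-- `f` is an identity of `M_m(ℤ)`. -/
def IsMatId (m : ℕ) {t : ℕ} (f : FreeAlgebra ℤ (Fin t)) : Prop :=
  ∀ v : Fin t → Matrix (Fin m) (Fin m) ℤ, FreeAlgebra.lift ℤ v f = 0

/-- `R` satisfies all identities of `M_m(ℤ)`. -/
def SatMat (m : ℕ) (R : Type*) [Ring R] : Prop :=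
  ∀ (t : ℕ) (f : FreeAlgebra ℤ (Fin t)), IsMatId m f →
    ∀ r : Fin t → R, FreeAlgebra.lift ℤ r f = 0

theorem map_lift {t : ℕ} {A B : Type*} [Semiring A] [Semiring B] [Algebra ℤ A] [Algebra ℤ B]
    (φ : A →ₐ[ℤ] B) (v : Fin t → A)
    (f : FreeAlgebra ℤ (Fin t)) :
    φ (FreeAlgebra.lift ℤ v f) = FreeAlgebra.lift ℤ (fun i => φ (v i)) f := by
  have : φ.comp (FreeAlgebra.lift ℤ v) = FreeAlgebra.lift ℤ (fun i => φ (v i)) := by
    apply FreeAlgebra.hom_ext
    funext i
    simp
  exact congrArg (fun g : FreeAlgebra ℤ (Fin t) →ₐ[ℤ] B => g f) this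

/-- the ring of the generic matrices -/
abbrev GP (t m : ℕ) := MvPolynomial (Fin t × Fin m × Fin m) ℤ

/-- generic matrices -/
noncomputable def genMat (t m : ℕ) (j : Fin t) : Matrix (Fin m) (Fin m) (GP t m) :=
  Matrix.of (fun a b => MvPolynomial.X (j, a, b))

theorem IsMatId.generic {m t : ℕ} {f : FreeAlgebra ℤ (Fin t)} (hf : IsMatId m f)
    {C : Type*} [CommRing C] (A : Fin t → Matrix (Fin m) (Fin m) C) :
    FreeAlgebra.lift ℤ A f = 0 := by
  classical
  have hG : FreeAlgebra.lift ℤ (genMat t m) f = 0 := by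
    apply Matrix.ext
    intro a b
    apply MvPolynomial.funext
    intro ν
    have h1 := map_lift (MvPolynomial.aeval ν : GP t m →ₐ[ℤ] ℤ).mapMatrix (genMat t m) f
    have h2 : (fun i => (MvPolynomial.aeval ν : GP t m →ₐ[ℤ] ℤ).mapMatrix (genMat t m i))
        = fun j => Matrix.of (fun a b => ν (j, a, b)) := by
      funext j
      apply Matrix.ext
      intro a b
      simp [genMat]
    rw [h2, hf] at h1
    have h3 := congrFun (congrFun h1 a) b
    simp only [AlgHom.mapMatrix_apply, Matrix.map_apply, Matrix.zero_apply] at h3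
    rw [Matrix.zero_apply, map_zero, ← h3, MvPolynomial.aeval_eq_eval]
  have h1 := map_lift (MvPolynomial.aeval (fun q => A q.1 q.2.1 q.2.2) :
    GP t m →ₐ[ℤ] C).mapMatrix (genMat t m) f
  have h2 : (fun i => (MvPolynomial.aeval (fun q => A q.1 q.2.1 q.2.2) :
      GP t m →ₐ[ℤ] C).mapMatrix (genMat t m i)) = A := by
    funext j
    apply Matrix.ext
    intro a b
    simp [genMat]
  rw [h2, hG, map_zero] at h1
  exact h1.symm

section Fin

variable {C V R : Type*} [CommRing C] [AddCommGroup V] [Module C V] [Ring R] [Module R V]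
  [SMulCommClass R C V]

theorem lift_smul_eq {m t : ℕ} (g : Fin m → V) (r : Fin t → R)
    (A : Fin t → Matrix (Fin m) (Fin m) C)
    (hA : ∀ j u, r j • g u = ∑ u', A j u' u • g u') (f : FreeAlgebra ℤ (Fin t)) :
    ∀ u, (FreeAlgebra.lift ℤ r f) • g u = ∑ u', (FreeAlgebra.lift ℤ A f) u' u • g u' := by
  classical
  induction f using FreeAlgebra.induction with
  | grade0 z =>
    intro u
    rw [AlgHom.commutes, AlgHom.commutes]
    rw [Algebra.algebraMap_eq_smul_one, Algebra.algebraMap_eq_smul_one]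
    simp only [Matrix.smul_apply, Matrix.one_apply, smul_assoc, one_smul, ite_smul, zero_smul]
    rw [← Finset.smul_sum, Finset.sum_ite_eq' Finset.univ u]
    simp
  | grade1 j =>
    intro u
    rw [FreeAlgebra.lift_ι_apply, FreeAlgebra.lift_ι_apply]
    exact hA j u
  | mul a b ha hb =>
    intro u
    rw [map_mul, map_mul, mul_smul, hb, Finset.smul_sum]
    have h1 : ∀ u', (FreeAlgebra.lift ℤ r a) • (FreeAlgebra.lift ℤ A b) u' u • g u'
        = ∑ u'', ((FreeAlgebra.lift ℤ A a) u'' u' * (FreeAlgebra.lift ℤ A b) u' u) • g u'' := by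
      intro u'
      rw [smul_comm, ha, Finset.smul_sum]
      apply Finset.sum_congr rfl
      intro u'' _
      rw [smul_smul, mul_comm]
    simp only [h1, Matrix.mul_apply, Finset.sum_smul]
    rw [Finset.sum_comm]
  | add a b ha hb =>
    intro u
    rw [map_add, map_add, add_smul, ha, hb, ← Finset.sum_add_distrib]
    apply Finset.sum_congr rfl
    intro u' _
    rw [Matrix.add_apply, add_smul]

/-- Identities of `M_m(ℤ)` act as zero on an `R`-stable `C`-submodule with `m` generators. -/
theorem IsMatId.smul_eq_zero {m t : ℕ} {f : FreeAlgebra ℤ (Fin t)} (hf : IsMatId m f)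
    (g : Fin m → V) (hst : ∀ (r : R) (u : Fin m), r • g u ∈ Submodule.span C (Set.range g))
    (r : Fin t → R) (v : V) (hv : v ∈ Submodule.span C (Set.range g)) :
    (FreeAlgebra.lift ℤ r f) • v = 0 := by
  have h1 : ∀ (j : Fin t) (u : Fin m), ∃ c : Fin m → C, r j • g u = ∑ u', c u' • g u' := by
    intro j u
    have := hst (r j) u
    rw [Submodule.mem_span_range_iff_exists_fun] at this
    obtain ⟨c, hc⟩ := this
    exact ⟨c, hc.symm⟩
  choose c hc using h1
  let A : Fin t → Matrix (Fin m) (Fin m) C := fun j => Matrix.of (fun u' u => c j u u')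
  have h2 : ∀ u, (FreeAlgebra.lift ℤ r f) • g u = 0 := by
    intro u
    rw [lift_smul_eq g r A (fun j u => by simpa [A] using hc j u) f u, hf.generic A]
    simp
  induction hv using Submodule.span_induction with
  | mem v hv =>
    obtain ⟨u, rfl⟩ := hv
    exact h2 u
  | zero => rw [smul_zero]
  | add u v _ _ hu hv => rw [smul_add, hu, hv, add_zero]
  | smul t v _ hv => rw [smul_comm, hv, smul_zero]

end Fin

end Pool.Agent.PIRing
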