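import Pool.Agent.PIRing.Words

/-!
Shirshov's lemma: a long word over a finite alphabet contains an `n`-th power of a nonempty
word or `d` disjoint factors of one common length which decrease lexicographically.
-/

set_option autoImplicit false

namespace Pool.Agent.PIRing

open Equiv

section Infinite

variable {k : ℕ}

/-- The factor of length `ℓ` of the infinite word `s` starting at position `i`. -/
def fac (s : ℕ → Fin k) (i ℓ : ℕ) : List (Fin k) := (List.range' i ℓ).map s

theorem fac_length (s : ℕ → Fin k) (i ℓ : ℕ) : (fac s i ℓ).length = ℓ := by simp [fac]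

theorem fac_add (s : ℕ → Fin k) (i m n : ℕ) :
    fac s i (m + n) = fac s i m ++ fac s (i + m) n := by
  unfold fac
  rw [← List.map_append]
  congr 1
  have := List.range'_append (s := i) (m := m) (n := n) (step := 1)
  simpa using this.symm

/-- A word which has an `n`-th power as a factor, or `d` decreasing disjoint factors. -/
def Good (d n : ℕ) (w : List (Fin k)) : Prop :=
  (∃ p u q : List (Fin k), u ≠ [] ∧ w = p ++ ((List.replicate n u).flatten ++ q)) ∨
  (∃ (ℓ : ℕ) (v : Fin d → List (Fin k)), (∀ i, (v i).length = ℓ) ∧ StrictAnti v ∧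
    Occ (List.ofFn v) w)

theorem Good.append {d n : ℕ} {w : List (Fin k)} (h : Good d n w) (r : List (Fin k)) :
    Good d n (w ++ r) := by
  rcases h with ⟨p, u, q, hu, rfl⟩ | ⟨ℓ, v, h1, h2, h3⟩
  · exact Or.inl ⟨p, u, q ++ r, hu, by simp⟩
  · exact Or.inr ⟨ℓ, v, h1, h2, h3.append_right r⟩

theorem occ_of_recurrent (s : ℕ → Fin k) : ∀ (vs : List (List (Fin k))),
    (∀ v ∈ vs, ∀ m, ∃ i, m ≤ i ∧ fac s i v.length = v) →
    ∀ m, ∃ L, Occ vs (fac s m L) := by
  intro vs
  induction vs with
  | nil => intro _ m; exact ⟨0, trivial⟩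
  | cons v vs ih =>
    intro h m
    obtain ⟨i, hi, hv⟩ := h v (by simp) m
    obtain ⟨L, hL⟩ := ih (fun v' hv' => h v' (by simp [hv'])) (i + v.length)
    refine ⟨(i - m) + (v.length + L), fac s m (i - m), fac s (i + v.length) L, ?_, hL⟩
    rw [fac_add, fac_add]
    have : m + (i - m) = i := by omega
    rw [this, hv]

/-- the factor as a function -/
def facF (s : ℕ → Fin k) (i ℓ : ℕ) : Fin ℓ → Fin k := fun t => s (i + t)

theorem fac_eq_ofFn (s : ℕ → Fin k) (i ℓ : ℕ) : fac s i ℓ = List.ofFn (facF s i ℓ) := by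
  apply List.ext_getElem
  · simp [fac]
  · intro n h1 h2
    simp [fac, facF]

open Classical in
/-- recurrent words of length `ℓ` -/
noncomputable def Rec (s : ℕ → Fin k) (ℓ : ℕ) : Finset (Fin ℓ → Fin k) :=
  Finset.univ.filter (fun v => ∀ m, ∃ i, m ≤ i ∧ facF s i ℓ = v)

theorem mem_Rec (s : ℕ → Fin k) (ℓ : ℕ) (v : Fin ℓ → Fin k) :
    v ∈ Rec s ℓ ↔ ∀ m, ∃ i, m ≤ i ∧ facF s i ℓ = v := by
  classical
  simp [Rec]

theorem Rec_ext (s : ℕ → Fin k) (ℓ : ℕ) (v : Fin ℓ → Fin k) (hv : v ∈ Rec s ℓ) :
    ∃ v' ∈ Rec s (ℓ + 1), (fun t : Fin ℓ => v' t.castSucc) = v := by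
  rw [mem_Rec] at hv
  by_contra hcon
  push Not at hcon
  have h1 : ∀ a : Fin k, ∃ m, ∀ i, m ≤ i → facF s i ℓ = v → s (i + ℓ) ≠ a := by
    intro a
    by_contra h2
    push Not at h2
    have hmem : (Fin.snoc v a : Fin (ℓ + 1) → Fin k) ∈ Rec s (ℓ + 1) := by
      rw [mem_Rec]
      intro m
      obtain ⟨i, hi, hiv, hia⟩ := h2 m
      refine ⟨i, hi, ?_⟩
      ext t
      refine Fin.lastCases ?_ (fun t => ?_) t
      · simp [facF, hia]
      · have := congrFun hiv t
        simp only [facF] at this
        simp [facF, this]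
    apply hcon _ hmem
    ext t
    simp
  choose M hM using h1
  obtain ⟨i, hi, hiv⟩ := hv (Finset.univ.sup M)
  exact hM (s (i + ℓ)) i (le_trans (Finset.le_sup (Finset.mem_univ _)) hi) hiv rfl

theorem Rec_zero_card (s : ℕ → Fin k) : 0 < (Rec s 0).card := by
  rw [Finset.card_pos]
  refine ⟨fun t => t.elim0, ?_⟩
  rw [mem_Rec]
  intro m
  exact ⟨m, le_rfl, by ext t; exact t.elim0⟩

theorem Rec_eventually (s : ℕ → Fin k) (ℓ : ℕ) :
    ∃ m, ∀ i, m ≤ i → facF s i ℓ ∈ Rec s ℓ := by
  have h1 : ∀ v : Fin ℓ → Fin k, ∃ m, ∀ i, m ≤ i → facF s i ℓ = v → v ∈ Rec s ℓ := by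
    intro v
    by_cases hv : v ∈ Rec s ℓ
    · exact ⟨0, fun _ _ _ => hv⟩
    · rw [mem_Rec] at hv
      push Not at hv
      obtain ⟨m, hm⟩ := hv
      exact ⟨m, fun i hi hiv => absurd hiv (hm i hi)⟩
  choose M hM using h1
  exact ⟨Finset.univ.sup M, fun i hi =>
    hM _ i (le_trans (Finset.le_sup (Finset.mem_univ _)) hi) rfl⟩

/-- Few recurrent words of each length force eventual periodicity. -/
theorem eventually_periodic (s : ℕ → Fin k) (d : ℕ) (h : ∀ ℓ, (Rec s ℓ).card < d) :
    ∃ j P, 0 < P ∧ ∀ i, j ≤ i → s (i + P) = s i := by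
  have h1 : ∃ ℓ, (Rec s (ℓ + 1)).card ≤ (Rec s ℓ).card := by
    by_contra hcon
    push Not at hcon
    have : ∀ ℓ, ℓ < (Rec s ℓ).card := by
      intro ℓ
      induction ℓ with
      | zero => exact Rec_zero_card s
      | succ ℓ ih => exact lt_of_le_of_lt (Nat.succ_le_of_lt ih) (hcon ℓ)
    exact absurd (lt_trans (this d) (h d)) (lt_irrefl _)
  obtain ⟨ℓ, hℓ⟩ := h1
  let g : (Fin (ℓ + 1) → Fin k) → (Fin ℓ → Fin k) := fun v t => v t.castSucc
  have himg : (Rec s (ℓ + 1)).image g ⊇ Rec s ℓ := by
    intro v hv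
    obtain ⟨v', hv', h'⟩ := Rec_ext s ℓ v hv
    exact Finset.mem_image.mpr ⟨v', hv', h'⟩
  have hinj : Set.InjOn g (Rec s (ℓ + 1) : Set (Fin (ℓ + 1) → Fin k)) := by
    apply Finset.injOn_of_card_image_eq
    apply le_antisymm Finset.card_image_le
    exact le_trans hℓ (Finset.card_le_card himg)
  obtain ⟨m0, hm0⟩ := Rec_eventually s (ℓ + 1)
  obtain ⟨a, b, hab, hfab⟩ := Finite.exists_ne_map_eq_of_infinite
    (fun t : ℕ => facF s (m0 + t) ℓ)
  -- wlog a < b
  have key : ∀ a b : ℕ, a < b → facF s (m0 + a) ℓ = facF s (m0 + b) ℓ →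
      ∃ j P, 0 < P ∧ ∀ i, j ≤ i → s (i + P) = s i := by
    intro a b hlt heq
    have h2 : ∀ t, facF s (m0 + a + t) ℓ = facF s (m0 + b + t) ℓ := by
      intro t
      induction t with
      | zero => simpa using heq
      | succ t ih =>
        have h3 : facF s (m0 + a + t) (ℓ + 1) = facF s (m0 + b + t) (ℓ + 1) := by
          apply hinj
          · exact hm0 _ (by omega)
          · exact hm0 _ (by omega)
          · ext u
            have := congrFun ih u
            simp only [facF] at this
            simp [g, facF, this]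
        ext u
        have := congrFun h3 u.succ
        simp only [facF, Fin.val_succ] at this
        simp only [facF]
        rw [show m0 + a + (t + 1) + (u : ℕ) = m0 + a + t + (u + 1) by ring,
          show m0 + b + (t + 1) + (u : ℕ) = m0 + b + t + (u + 1) by ring, this]
    have h4 : ∀ t, s (m0 + a + t + ℓ) = s (m0 + b + t + ℓ) := by
      intro t
      have h3 : facF s (m0 + a + t) (ℓ + 1) = facF s (m0 + b + t) (ℓ + 1) := by
        apply hinj
        · exact hm0 _ (by omega)
        · exact hm0 _ (by omega)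
        · ext u
          have := congrFun (h2 t) u
          simp only [facF] at this
          simp [g, facF, this]
      have := congrFun h3 (Fin.last ℓ)
      simpa [facF] using this
    refine ⟨m0 + a + ℓ, b - a, by omega, ?_⟩
    intro i hi
    have := h4 (i - (m0 + a + ℓ))
    rw [show m0 + a + (i - (m0 + a + ℓ)) + ℓ = i by omega,
      show m0 + b + (i - (m0 + a + ℓ)) + ℓ = i + (b - a) by omega] at this
    exact this.symm
  rcases lt_or_gt_of_ne hab with hlt | hlt
  · exact key a b hlt hfab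
  · exact key b a hlt hfab.symm

theorem fac_periodic (s : ℕ → Fin k) (j P : ℕ) (h : ∀ i, j ≤ i → s (i + P) = s i) (n : ℕ) :
    ∀ i, j ≤ i → fac s i (n * P) = (List.replicate n (fac s i P)).flatten := by
  induction n with
  | zero => intro i _; simp [fac]
  | succ n ih =>
    intro i hi
    rw [show (n + 1) * P = P + n * P by ring, fac_add, List.replicate_succ, List.flatten_cons,
      ih (i + P) (by omega)]
    congr 3
    unfold fac
    apply List.ext_getElem
    · simp
    · intro m h1 h2
      simp only [List.getElem_map, List.getElem_range', one_mul]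
      rw [show i + P + m = i + m + P by ring]
      exact h _ (by omega)

/-- An infinite word has a prefix which is good. -/
theorem exists_good_prefix (s : ℕ → Fin k) (d n : ℕ) : ∃ N, Good d n (fac s 0 N) := by
  by_cases hcard : ∀ ℓ, (Rec s ℓ).card < d
  · obtain ⟨j, P, hP, hper⟩ := eventually_periodic s d hcard
    refine ⟨j + n * P, Or.inl ⟨fac s 0 j, fac s j P, [], ?_, ?_⟩⟩
    · intro h0
      have := congrArg List.length h0
      rw [fac_length] at this
      simp at this
      omega
    · rw [fac_add, zero_add, fac_periodic s j P hper n j le_rfl]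
      simp
  · push Not at hcard
    obtain ⟨ℓ, hℓ⟩ := hcard
    let T : Finset (List (Fin k)) := (Rec s ℓ).image List.ofFn
    have hT : d ≤ T.card := by
      rw [Finset.card_image_of_injective _ List.ofFn_injective]
      exact hℓ
    obtain ⟨T', hT', hcard'⟩ := Finset.exists_subset_card_eq hT
    let v : Fin d → List (Fin k) := fun i => T'.orderEmbOfFin hcard' (Fin.rev i)
    have hvmem : ∀ i, v i ∈ T := fun i => hT' (Finset.orderEmbOfFin_mem _ _ _)
    have hvlen : ∀ i, (v i).length = ℓ := by
      intro i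
      obtain ⟨x, _, hx⟩ := Finset.mem_image.mp (hvmem i)
      rw [← hx]
      simp
    have hvanti : StrictAnti v := by
      intro i j hij
      exact (T'.orderEmbOfFin hcard').strictMono (Fin.rev_lt_rev.mpr hij)
    obtain ⟨L, hL⟩ := occ_of_recurrent s (List.ofFn v) (by
      intro w hw m
      rw [List.mem_ofFn] at hw
      obtain ⟨i, rfl⟩ := hw
      obtain ⟨x, hx, hxv⟩ := Finset.mem_image.mp (hvmem i)
      rw [mem_Rec] at hx
      obtain ⟨i', hi', hfi⟩ := hx m
      refine ⟨i', hi', ?_⟩
      rw [hvlen, fac_eq_ofFn, hfi, hxv]) 0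
    exact ⟨L, Or.inr ⟨ℓ, v, hvlen, hvanti, hL⟩⟩

end Infinite

/-- **Shirshov's lemma.** -/
theorem shirshov (k d n : ℕ) : ∃ N, ∀ w : List (Fin k), w.length = N → Good d n w := by
  classical
  rcases Nat.eq_zero_or_pos k with rfl | hk
  · refine ⟨1, fun w hw => ?_⟩
    cases w with
    | nil => simp at hw
    | cons a _ => exact a.elim0
  by_contra hcon
  push Not at hcon
  let t : ℕ → Set (ℕ → Fin k) := fun N => {s | ¬ Good d n (fac s 0 N)}
  have h1 : ∀ N, t (N + 1) ⊆ t N := by
    intro N s hs hg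
    apply hs
    rw [fac_add]
    exact hg.append _
  have h2 : ∀ N, (t N).Nonempty := by
    intro N
    obtain ⟨w, hw, hg⟩ := hcon N
    refine ⟨fun i => if h : i < w.length then w[i] else ⟨0, hk⟩, ?_⟩
    change ¬ Good d n _
    have : fac (fun i => if h : i < w.length then w[i] else ⟨0, hk⟩) 0 N = w := by
      apply List.ext_getElem
      · rw [fac_length, hw]
      · intro m h1 h2
        simp [fac, h2]
    rw [this]
    exact hg
  have h3 : ∀ N, IsClosed (t N) := by
    intro N
    have hc : Continuous (fun s : ℕ → Fin k => (fun i : Fin N => s (i : ℕ))) := by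
      fun_prop
    have : t N = (fun s : ℕ → Fin k => (fun i : Fin N => s (i : ℕ))) ⁻¹'
        {x | ¬ Good d n (List.ofFn x)} := by
      ext s
      simp only [t, Set.mem_ofPred_eq, Set.mem_preimage]
      rw [fac_eq_ofFn]
      have : facF s 0 N = fun i : Fin N => s (i : ℕ) := by
        ext i
        simp [facF]
      rw [this]
    rw [this]
    exact IsClosed.preimage hc (Set.toFinite _).isClosed
  obtain ⟨s, hs⟩ := IsCompact.nonempty_iInter_of_sequence_nonempty_isCompact_isClosed t h1 h2
    (h3 0).isCompact h3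
  obtain ⟨N, hN⟩ := exists_good_prefix s d n
  exact (Set.mem_iInter.mp hs N) hN

end Pool.Agent.PIRing
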