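import Pool.Agent.PIRing.Integral
import Pool.Agent.PIRing.Shirshov
import Pool.Agent.PIRing.CapelliThm
import Pool.Agent.PIRing.MatId

/-!
Shirshov's argument: the orbit of a product of Capelli functions is a finitely generated module.
-/

set_option autoImplicit false

namespace Pool.Agent.PIRing

open Equiv

section Span

variable {R : Type*} [Ring R] {k : ℕ} {Λ V : Type*} [CommRing Λ] [AddCommGroup V] [Module Λ V]
  [Module R V] [SMulCommClass R Λ V]

theorem smul_span_le (r : R) (s : Set V) (v : V) (hv : v ∈ Submodule.span Λ s)
    (S : Submodule Λ V) (h : ∀ u ∈ s, r • u ∈ S) : r • v ∈ S := by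
  induction hv using Submodule.span_induction with
  | mem v hv => exact h v hv
  | zero => rw [smul_zero]; exact S.zero_mem
  | add u v _ _ hu hv => rw [smul_add]; exact S.add_mem hu hv
  | smul t v _ hv => rw [smul_comm]; exact S.smul_mem t hv

theorem ev_replicate (a : Fin k → R) (u : List (Fin k)) (n : ℕ) :
    ev a (List.replicate n u).flatten = ev a u ^ n := by
  induction n with
  | zero => simp [ev]
  | succ n ih => rw [List.replicate_succ, List.flatten_cons, ev_append, ih, pow_succ']

theorem word_mem_span {d : ℕ} {c : Perm (Fin d) → ℤ} (hc : c 1 = 1)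
    (hPI : ∀ r : Fin d → R, ∑ σ : Perm (Fin d), c σ • (List.ofFn (fun i => r (σ i))).prod = 0)
    (a : Fin k → R) {n N : ℕ} (hn : 0 < n)
    (hN : ∀ w : List (Fin k), w.length = N → Good d n w) (h : V)
    (hint : ∀ u : List (Fin k), u.length ≤ N → ∀ r : R,
      ev a u ^ n • (r • h) ∈ Submodule.span Λ
        (Set.range (fun j : Fin n => ev a u ^ (j : ℕ) • (r • h)))) :
    ∀ w : List (Fin k), ev a w • h ∈ Submodule.span Λ
      (Set.range (fun u : {u : List (Fin k) // u.length < N} => ev a u.1 • h)) := by
  set S := Submodule.span Λ
      (Set.range (fun u : {u : List (Fin k) // u.length < N} => ev a u.1 • h)) with hS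
  have key : ∀ L : ℕ, ∀ w : List (Fin k), w.length = L → ev a w • h ∈ S := by
    intro L
    induction L using Nat.strong_induction_on with
    | _ L ihL =>
      apply lex_induction L
      intro w hw ihw
      by_cases hlt : L < N
      · exact Submodule.subset_span ⟨⟨w, by rw [hw]; exact hlt⟩, rfl⟩
      rw [not_lt] at hlt
      have hsplit : w = w.take N ++ w.drop N := (List.take_append_drop N w).symm
      have hlen1 : (w.take N).length = N := by
        rw [List.length_take, hw]
        exact min_eq_left hlt
      rcases hN _ hlen1 with ⟨p, u, q, hu, hpu⟩ | ⟨ℓ, v, h1, h2, h3⟩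
      · have hulen : 0 < u.length := List.length_pos_iff.mpr hu
        have hw2 : w = p ++ ((List.replicate n u).flatten ++ (q ++ w.drop N)) := by
          conv_lhs => rw [hsplit, hpu]
          simp
        have hlenrep : ∀ j : ℕ, ((List.replicate j u).flatten).length = j * u.length := by
          intro j
          simp [List.length_flatten]
        have hlenw : p.length + (n * u.length + (q ++ w.drop N).length) = L := by
          rw [← hlenrep, ← List.length_append, ← List.length_append, ← hw2, hw]
        have hlenN : p.length + (n * u.length + q.length) = N := by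
          rw [← hlenrep, ← List.length_append, ← List.length_append, ← hpu, hlen1]
        have huN : u.length ≤ N := by
          have : u.length ≤ n * u.length := Nat.le_mul_of_pos_left _ hn
          omega
        have hmem := hint u huN (ev a (q ++ w.drop N))
        have hE : ev a w • h = ev a p • (ev a u ^ n • (ev a (q ++ w.drop N) • h)) := by
          conv_lhs => rw [hw2]
          rw [ev_append, ev_append, ev_replicate, mul_smul, mul_smul]
        rw [hE]
        apply smul_span_le (ev a p) _ _ hmem
        rintro _ ⟨j, rfl⟩
        have hE2 : ev a p • (ev a u ^ (j : ℕ) • (ev a (q ++ w.drop N) • h))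
            = ev a (p ++ ((List.replicate j u).flatten ++ (q ++ w.drop N))) • h := by
          conv_rhs => rw [ev_append, ev_append, ev_replicate, mul_smul, mul_smul]
        change ev a p • (ev a u ^ (j : ℕ) • (ev a (q ++ w.drop N) • h)) ∈ S
        rw [hE2]
        apply ihL _ _ _ rfl
        rw [List.length_append, List.length_append, hlenrep]
        have hj : (j : ℕ) * u.length < n * u.length := Nat.mul_lt_mul_of_pos_right j.2 hulen
        omega
      · have hred : Red d w := by
          refine ⟨ℓ, v, h1, h2, ?_⟩
          rw [hsplit]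
          exact h3.append_right _
        apply Red.mem_span (c := c) (fun w => ev a w • h) ?_ hred S.toAddSubgroup
        · intro w' hw' hlt'
          exact ihw w' (by rw [hw'.length_eq, hw]) hlt'
        · intro p x
          have := pi_rewrite hc hPI a p x
          change ev a (p ++ (List.ofFn x).flatten) • h = _
          unfold ev
          rw [this, neg_smul, Finset.sum_smul]
          simp only [smul_assoc]
  intro w
  exact key _ w rfl

end Span

section Conclusion

variable {R : Type*} [Ring R] {k : ℕ}

/-- Identities of large integer matrices annihilate a power of the Capelli ideal. -/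
theorem annihilate {d : ℕ} {c : Perm (Fin d) → ℤ} (hc : c 1 = 1)
    (hPI : ∀ r : Fin d → R, ∑ σ : Perm (Fin d), c σ • (List.ofFn (fun i => r (σ i))).prod = 0)
    (a : Fin k → R) (ha : Submodule.span ℤ (Set.range (ev a)) = ⊤) {n : ℕ} (hn : 0 < n)
    (hcap : ∀ y x : Fin (n + 1) → R, capA y x = 0) :
    ∃ M m : ℕ, ∀ (t : ℕ) (f : FreeAlgebra ℤ (Fin t)), IsMatId m f → ∀ r : Fin t → R,
      ∀ (Y x : Fin M → Fin n → R) (z : Fin M → R),
        FreeAlgebra.lift ℤ r f * (List.ofFn (fun i => capA (Y i) (x i) * z i)).prod = 0 := by
  classical
  obtain ⟨N, hN⟩ := shirshov k d n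
  have hfin1 : Finite {u : List (Fin k) // u.length ≤ N} :=
    (List.finite_length_le (Fin k) N).to_subtype
  have hfin2 : Finite {u : List (Fin k) // u.length < N} :=
    (List.finite_length_lt (Fin k) N).to_subtype
  obtain ⟨M, ⟨eM⟩⟩ := Finite.exists_equiv_fin {u : List (Fin k) // u.length ≤ N}
  obtain ⟨m, ⟨em⟩⟩ := Finite.exists_equiv_fin {u : List (Fin k) // u.length < N}
  refine ⟨M, m, fun t f hf r Y x z => ?_⟩
  let W : Fin M → R := fun i => ev a (eM.symm i).1
  let h : Sh (Fin M × Fin n) R := hfun W Y x z
  have hmem := word_mem_span (Λ := MvPolynomial (Fin M × Fin n) ℤ) hc hPI a hn hN h (by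
    intro u hu r
    have h1 := integral_hfun hcap W Y x z r (eM ⟨u, hu⟩)
    have h2 : W (eM ⟨u, hu⟩) = ev a u := by simp [W]
    rw [h2] at h1
    exact h1)
  have hrange : Set.range (fun u : {u : List (Fin k) // u.length < N} => ev a u.1 • h)
      = Set.range (fun i : Fin m => ev a (em.symm i).1 • h) := by
    ext v
    constructor
    · rintro ⟨u, rfl⟩
      exact ⟨em u, by simp⟩
    · rintro ⟨i, rfl⟩
      exact ⟨em.symm i, rfl⟩
  rw [hrange] at hmem
  have hst : ∀ (r : R) (u : Fin m), r • (ev a (em.symm u).1 • h) ∈
      Submodule.span (MvPolynomial (Fin M × Fin n) ℤ)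
        (Set.range (fun i : Fin m => ev a (em.symm i).1 • h)) := by
    intro r u
    have hr : r ∈ Submodule.span ℤ (Set.range (ev a)) := by rw [ha]; trivial
    induction hr using Submodule.span_induction with
    | mem r hr =>
      obtain ⟨w, rfl⟩ := hr
      have := hmem (w ++ (em.symm u).1)
      rwa [ev_append, mul_smul] at this
    | zero => rw [zero_smul]; exact Submodule.zero_mem _
    | add r r' _ _ h1 h2 => rw [add_smul]; exact Submodule.add_mem _ h1 h2
    | smul s r _ h1 => rw [smul_assoc]; exact zsmul_mem h1 s
  have hh := hmem []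
  have h1 : (ev a ([] : List (Fin k)) : R) = 1 := rfl
  rw [h1, one_smul] at hh
  have h2 := hf.smul_eq_zero _ hst r h hh
  have h3 := congrFun h2 0
  rw [smul_apply'] at h3
  have h4 : h 0 = (List.ofFn (fun i => capA (Y i) (x i) * z i)).prod := by
    change (List.ofFn (blk W Y x z 0)).prod = _
    congr 2
    funext i
    simp [blk]
  rw [h4] at h3
  exact h3

end Conclusion

end Pool.Agent.PIRing
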