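import Pool.Agent.PIRing.Product
import Pool.Agent.PIRing.Spanning

/-!
Every finitely generated ring with a multilinear identity satisfies all identities of
`M_N(ℤ)` for some `N`.
-/

set_option autoImplicit false

namespace Pool.Agent.PIRing

open Equiv

theorem lift_algebra_eq {t : ℕ} {A : Type*} [Ring A] (i1 i2 : Algebra ℤ A) (v : Fin t → A)
    (f : FreeAlgebra ℤ (Fin t)) :
    (@FreeAlgebra.lift ℤ (Fin t) _ A _ i1 v) f = (@FreeAlgebra.lift ℤ (Fin t) _ A _ i2 v) f := by
  have : i1 = i2 := Subsingleton.elim _ _
  subst this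
  rfl

/-- view an element of the free algebra in the plain free ring -/
def toFR {t : ℕ} (f : FreeAlgebra ℤ (Fin t)) : FR t := f

theorem FR.lift_toFR {t : ℕ} {A : Type*} [Ring A] [Algebra ℤ A] (v : Fin t → A)
    (f : FreeAlgebra ℤ (Fin t)) : FR.lift v (toFR f) = FreeAlgebra.lift ℤ v f := 
  lift_algebra_eq _ _ _ _

theorem mem_TI_iff {m t : ℕ} (f : FreeAlgebra ℤ (Fin t)) :
    IsMatId m f ↔ toFR f ∈ TI m t := by
  constructor
  · intro h v
    rw [FR.lift_toFR]
    exact h v
  · intro h v
    have := h v
    rw [FR.lift_toFR] at this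
    exact this

theorem TI_pow_le (m a t M : ℕ) : TI (m + M * a) t ≤ TI m t * (TI a t) ^ M := by
  induction M generalizing m with
  | zero => 
    rw [pow_zero, mul_one, Nat.zero_mul, Nat.add_zero]
  | succ M ih =>
    have h1 : m + (M + 1) * a = (m + a) + M * a := by ring
    rw [h1]
    refine (ih (m + a)).trans ?_
    rw [pow_succ', ← mul_assoc]
    exact mul_le_mul_left (TI_add_le m a) _

section Ideal

variable {R : Type*} [Ring R]

/-- generators of the Capelli ideal -/
def capSet (R : Type*) [Ring R] (n : ℕ) : Set R :=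
  {s | ∃ (y x : Fin n → R) (z : R), s = capA y x * z}

/-- the Capelli ideal, as an additive group -/
def capSpan (R : Type*) [Ring R] (n : ℕ) : Submodule ℤ R := Submodule.span ℤ (capSet R n)

theorem mul_mem_capSpan {n : ℕ} (r s : R) (hs : s ∈ capSpan R (n + 1)) :
    r * s ∈ capSpan R (n + 1) := by
  unfold capSpan at hs ⊢
  induction hs using Submodule.span_induction with
  | mem s hs =>
    obtain ⟨y, x, z, rfl⟩ := hs
    rw [← mul_assoc, ← capA_update_left]
    exact Submodule.subset_span ⟨_, x, z, rfl⟩
  | zero => rw [mul_zero]; exact Submodule.zero_mem _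
  | add u v _ _ hu hv => rw [mul_add]; exact Submodule.add_mem _ hu hv
  | smul t v _ hv => rw [mul_smul_comm]; exact Submodule.smul_mem _ _ hv

theorem mem_capSpan_mul {n : ℕ} (r s : R) (hs : s ∈ capSpan R n) :
    s * r ∈ capSpan R n := by
  unfold capSpan at hs ⊢
  induction hs using Submodule.span_induction with
  | mem s hs =>
    obtain ⟨y, x, z, rfl⟩ := hs
    rw [mul_assoc]
    exact Submodule.subset_span ⟨_, x, _, rfl⟩
  | zero => rw [zero_mul]; exact Submodule.zero_mem _
  | add u v _ _ hu hv => rw [add_mul]; exact Submodule.add_mem _ hu hv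
  | smul t v _ hv => rw [smul_mul_assoc]; exact Submodule.smul_mem _ _ hv

/-- the Capelli ideal -/
def capIdeal (R : Type*) [Ring R] (n : ℕ) : Ideal R where
  carrier := capSpan R (n + 1)
  add_mem' := (capSpan R (n + 1)).add_mem
  zero_mem' := (capSpan R (n + 1)).zero_mem
  smul_mem' r s hs := mul_mem_capSpan r s hs

instance (n : ℕ) : (capIdeal R n).IsTwoSided where
  mul_mem_of_left b ha := mem_capSpan_mul b _ ha

theorem mem_capIdeal {n : ℕ} {s : R} : s ∈ capIdeal R n ↔ s ∈ capSpan R (n + 1) := Iff.rfl

theorem map_capA {R' : Type*} [Ring R'] (φ : R →+* R') {n : ℕ} (y x : Fin n → R) :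
    φ (capA y x) = capA (fun i => φ (y i)) (fun i => φ (x i)) := by
  rw [capA_apply, capA_apply, map_sum]
  apply Finset.sum_congr rfl
  intro π _
  rw [Units.smul_def, Units.smul_def, map_zsmul, map_list_prod, List.map_ofFn]
  congr 2
  congr 1
  funext i
  simp

/-- if `g` kills all products of `M` Capelli generators then it kills the `M`-th power. -/
theorem kill_pow {n M : ℕ} (g : R)
    (h : ∀ (Y x : Fin M → Fin n → R) (z : Fin M → R),
      g * (List.ofFn (fun i => capA (Y i) (x i) * z i)).prod = 0)
    (s : R) (hs : s ∈ (capSpan R n) ^ M) : g * s = 0 := by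
  unfold capSpan at hs
  rw [Submodule.span_pow] at hs
  induction hs using Submodule.span_induction with
  | mem s hs =>
    rw [Set.mem_pow] at hs
    obtain ⟨f, rfl⟩ := hs
    have h1 : ∀ i, ∃ (y x : Fin n → R) (z : R), (f i : R) = capA y x * z := fun i => (f i).2
    choose Y x z hf using h1
    simp only [hf]
    exact h Y x z
  | zero => rw [mul_zero]
  | add u v _ _ hu hv => rw [mul_add, hu, hv, add_zero]
  | smul t v _ hv => rw [mul_smul_comm, hv, smul_zero]

theorem map_mem_pow {t : ℕ} (φ : FR t →+* R) (P : Submodule ℤ (FR t)) (Q : Submodule ℤ R)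
    (h : ∀ p ∈ P, φ p ∈ Q) (M : ℕ) : ∀ p ∈ P ^ M, φ p ∈ Q ^ M := by
  induction M with
  | zero =>
    intro p hp
    rw [pow_zero] at hp ⊢
    rw [Submodule.mem_one] at hp ⊢
    obtain ⟨z, rfl⟩ := hp
    exact ⟨z, by simp⟩
  | succ M ih =>
    intro p hp
    rw [pow_succ] at hp ⊢
    induction hp using Submodule.mul_induction_on' with
    | mem_mul_mem u hu v hv =>
      rw [map_mul]
      exact Submodule.mul_mem_mul (ih u hu) (h v hv)
    | add u _ v _ hu hv =>
      rw [map_add]
      exact Submodule.add_mem _ hu hv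

end Ideal

/-- `R` satisfies all identities of `M_m(ℤ)`, in terms of the plain free ring. -/
def Sat (m : ℕ) (R : Type*) [Ring R] : Prop :=
  ∀ (t : ℕ) (f : FR t), f ∈ TI m t → ∀ r : Fin t → R, FR.lift r f = 0

theorem FR.map_lift' {t : ℕ} {A B : Type*} [Ring A] [Ring B] (φ : A →+* B) (v : Fin t → A)
    (f : FR t) : φ (FR.lift v f) = FR.lift (fun i => φ (v i)) f := by
  induction f using FR.induction with
  | int z => simp
  | X j => rw [FR.lift_X, FR.lift_X]
  | mul f g hf hg => rw [map_mul, map_mul, map_mul, hf, hg]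
  | add f g hf hg => rw [map_add, map_add, map_add, hf, hg]

theorem sat_of_trivial (m : ℕ) (R : Type*) [Ring R] (h : (1 : R) = 0) : Sat m R := by
  intro t f _ r
  rw [← mul_one (FR.lift r f), h, mul_zero]

theorem map_ev {R R' : Type*} [Ring R] [Ring R'] {k : ℕ} (φ : R →+* R') (a : Fin k → R)
    (w : List (Fin k)) : φ (ev a w) = ev (fun i => φ (a i)) w := by
  unfold ev
  rw [map_list_prod, List.map_map]
  rfl

theorem main_induction {d k : ℕ} {c : Perm (Fin d) → ℤ} (hc : c 1 = 1) (n : ℕ) :
    ∀ (R : Type) [Ring R],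
      (∀ r : Fin d → R, ∑ σ : Perm (Fin d), c σ • (List.ofFn (fun i => r (σ i))).prod = 0) →
      ∀ (a : Fin k → R), Submodule.span ℤ (Set.range (ev a)) = ⊤ →
      (∀ y x : Fin n → R, capA y x = 0) → ∃ N, Sat N R := by
  induction n with
  | zero =>
    intro R _ hPI a ha hcap
    refine ⟨0, sat_of_trivial 0 R ?_⟩
    have := hcap Fin.elim0 Fin.elim0
    rw [capA_apply] at this
    simpa using this
  | succ n ih =>
    intro R _ hPI a ha hcap
    rcases Nat.eq_zero_or_pos n with hn | hn
    · subst hn
      refine ⟨0, sat_of_trivial 0 R ?_⟩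
      have := hcap (fun _ => 1) (fun _ => 1)
      rw [capA_apply] at this
      simpa using this
    · obtain ⟨M, m, hM⟩ := annihilate hc hPI a ha hn hcap
      obtain ⟨n', rfl⟩ : ∃ n', n = n' + 1 := ⟨n - 1, by omega⟩
      let I : Ideal R := capIdeal R n'
      let q : R →+* R ⧸ I := Ideal.Quotient.mk I
      have hq : Function.Surjective q := Ideal.Quotient.mk_surjective
      obtain ⟨N, hN⟩ := ih (R ⧸ I) (by
        intro r
        choose s hs using fun i => hq (r i)
        have h1 := congrArg q (hPI s)
        rw [map_sum, map_zero] at h1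
        rw [← h1]
        apply Finset.sum_congr rfl
        intro σ _
        rw [map_zsmul, map_list_prod, List.map_ofFn]
        congr 3
        funext i
        simp [hs]) (fun i => q (a i)) (by
        rw [eq_top_iff]
        intro x _
        obtain ⟨y, rfl⟩ := hq x
        have hy : y ∈ Submodule.span ℤ (Set.range (ev a)) := by rw [ha]; trivial
        induction hy using Submodule.span_induction with
        | mem y hy =>
          obtain ⟨w, rfl⟩ := hy
          rw [map_ev]
          exact Submodule.subset_span ⟨w, rfl⟩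
        | zero => rw [map_zero]; exact Submodule.zero_mem _
        | add u v _ _ hu hv => rw [map_add]; exact Submodule.add_mem _ (hu trivial) (hv trivial)
        | smul t v _ hv => rw [map_zsmul]; exact Submodule.smul_mem _ _ (hv trivial)) (by
        intro y x
        choose y' hy' using fun i => hq (y i)
        choose x' hx' using fun i => hq (x i)
        have h1 : q (capA y' x') = 0 := by
          rw [Ideal.Quotient.eq_zero_iff_mem, mem_capIdeal]
          exact Submodule.subset_span ⟨y', x', 1, by rw [mul_one]⟩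
        rw [map_capA] at h1
        simpa only [hy', hx'] using h1)
      refine ⟨m + M * N, ?_⟩
      intro t f hf r
      have hf' := TI_pow_le m N t M hf
      let φ : FR t →+* R := FR.lift r
      have hTI : ∀ p ∈ TI N t, φ p ∈ capSpan R (n' + 1) := by
        intro p hp
        have h1 := hN t p hp (fun i => q (r i))
        rw [← FR.map_lift'] at h1
        rw [Ideal.Quotient.eq_zero_iff_mem, mem_capIdeal] at h1
        exact h1
      change φ f = 0
      clear hf
      induction hf' using Submodule.mul_induction_on' with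
      | mem_mul_mem u hu v hv =>
        rw [map_mul]
        apply kill_pow (n := n' + 1) (M := M)
        · intro Y x z
          have := hM t u ((mem_TI_iff (t := t) u).mpr hu) r Y x z
          exact this
        · exact map_mem_pow φ _ _ hTI M v hv
      | add u _ v _ hu hv =>
        rw [map_add, hu, hv, add_zero]

/-- generators as a tuple -/
theorem exists_generators {R : Type} [Ring R] (h : Algebra.FiniteType ℤ R) :
    ∃ (k : ℕ) (a : Fin k → R), Submodule.span ℤ (Set.range (ev a)) = ⊤ := by
  classical
  obtain ⟨s, hs⟩ := h.out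
  let e := s.equivFin
  refine ⟨s.card, fun i => (e.symm i : R), ?_⟩
  have hmul : ∀ x ∈ Submodule.span ℤ (Set.range (ev (fun i => (e.symm i : R)))),
      ∀ y ∈ Submodule.span ℤ (Set.range (ev (fun i => (e.symm i : R)))),
      x * y ∈ Submodule.span ℤ (Set.range (ev (fun i => (e.symm i : R)))) := by
    intro x hx y hy
    induction hx using Submodule.span_induction with
    | mem x hx =>
      induction hy using Submodule.span_induction with
      | mem y hy =>
        obtain ⟨w, rfl⟩ := hx
        obtain ⟨w', rfl⟩ := hy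
        rw [← ev_append]
        exact Submodule.subset_span ⟨_, rfl⟩
      | zero => rw [mul_zero]; exact Submodule.zero_mem _
      | add u v _ _ hu hv => rw [mul_add]; exact Submodule.add_mem _ hu hv
      | smul t v _ hv => rw [mul_smul_comm]; exact Submodule.smul_mem _ _ hv
    | zero => rw [zero_mul]; exact Submodule.zero_mem _
    | add u v _ _ hu hv => rw [add_mul]; exact Submodule.add_mem _ hu hv
    | smul t v _ hv => rw [smul_mul_assoc]; exact Submodule.smul_mem _ _ hv
  have hone : (1 : R) ∈ Submodule.span ℤ (Set.range (ev (fun i => (e.symm i : R)))) :=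
    Submodule.subset_span ⟨[], rfl⟩
  rw [eq_top_iff]
  intro x _
  have hx : x ∈ Algebra.adjoin ℤ (s : Set R) := by rw [hs]; trivial
  induction hx using Algebra.adjoin_induction with
  | mem x hx =>
    refine Submodule.subset_span ⟨[e ⟨x, hx⟩], ?_⟩
    simp [ev]
  | algebraMap z =>
    rw [Algebra.algebraMap_eq_smul_one]
    exact Submodule.smul_mem _ _ hone
  | add x y _ _ hx hy => exact Submodule.add_mem _ (hx trivial) (hy trivial)
  | mul x y _ _ hx hy => exact hmul _ (hx trivial) _ (hy trivial)

theorem main_theorem (R : Type) [Ring R] (hR : Algebra.FiniteType ℤ R)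
    (h : ∃ (d : ℕ) (c : Perm (Fin d) → ℤ), c 1 = 1 ∧
        ∀ r : Fin d → R,
          ∑ σ : Perm (Fin d), c σ • (List.ofFn (fun i => r (σ i))).prod = 0) :
    ∃ n : ℕ, ∀ (k : ℕ) (g : FreeAlgebra ℤ (Fin k)),
      (∀ v : Fin k → Matrix (Fin n) (Fin n) ℤ, FreeAlgebra.lift ℤ v g = 0) →
      ∀ r : Fin k → R, FreeAlgebra.lift ℤ r g = 0 := by
  obtain ⟨d, c, hc, hPI⟩ := h
  obtain ⟨k, a, ha⟩ := exists_generators hR
  obtain ⟨n, hn⟩ := capelli hc hPI a ha
  obtain ⟨N, hN⟩ := main_induction hc n R hPI a ha hn
  refine ⟨N, fun t g hg r => ?_⟩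
  have h1 := hN t (toFR g) ((mem_TI_iff g).mp hg) r
  rw [FR.lift_toFR] at h1
  exact h1

end Pool.Agent.PIRing
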