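import Mathlib
import Pool.Agent.PIRing.Main

/-!
Identities of rings without unit.  An arbitrary identity with a coefficient one of a ring `R`
(not necessarily with unit) gives a multilinear identity with leading coefficient one of the ring
obtained from `R` by adjoining a unit; together with the main theorem for rings with unit this
answers the question for all finitely generated PI rings.
-/

set_option autoImplicit false

namespace Pool.Agent.PIG

open Equiv Finset

variable {A : Type*} [Ring A]

theorem prod_expand {k l : ℕ} (u : Fin k → Fin l → ℤ) (y : Fin l → A) :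
    (List.ofFn (fun j : Fin k => ∑ i : Fin l, u j i • y i)).prod
      = ∑ φ : Fin k → Fin l, (∏ j, u j (φ j)) • (List.ofFn (fun j => y (φ j))).prod := by
  have h := (MultilinearMap.mkPiAlgebraFin ℤ k A).map_sum (fun j (i : Fin l) => u j i • y i)
  simp only [MultilinearMap.mkPiAlgebraFin_apply] at h
  rw [h]
  apply Finset.sum_congr rfl
  intro φ _
  have h2 := (MultilinearMap.mkPiAlgebraFin ℤ k A).map_smul_univ (fun j => u j (φ j))
    (fun j => y (φ j))
  simp only [MultilinearMap.mkPiAlgebraFin_apply] at h2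
  exact h2

theorem point_sum {k l N : ℕ} (b : Fin N → ℤ) (φ : Fin k → Fin l) :
    ∑ t : Fin l → Fin N, (∏ i, b (t i)) * ∏ j, (((t (φ j) : Fin N) : ℕ) : ℤ)
      = ∏ i : Fin l, ∑ s : Fin N, b s * ((s : ℕ) : ℤ) ^ (Finset.univ.filter (fun j => φ j = i)).card := by
  classical
  rw [Finset.prod_univ_sum]
  rw [Fintype.piFinset_univ]
  apply Finset.sum_congr rfl
  intro t _
  rw [Finset.prod_mul_distrib]
  congr 1
  rw [← Finset.prod_fiberwise_of_maps_to (s := Finset.univ) (t := Finset.univ) (g := φ)
    (fun j _ => Finset.mem_univ _)]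
  apply Finset.prod_congr rfl
  intro i _
  rw [← Finset.prod_const]
  apply Finset.prod_congr rfl
  intro j hj
  rw [(Finset.mem_filter.mp hj).2]

/-- the coefficient of a substitution pattern -/
noncomputable def kap {k l N : ℕ} (b : Fin N → ℤ) (φ : Fin k → Fin l) : ℤ :=
  ∏ i : Fin l, ∑ s : Fin N, b s * ((s : ℕ) : ℤ) ^ (Finset.univ.filter (fun j => φ j = i)).card

theorem star {α : Type*} {D : ℕ} (F : ∀ k, (Fin k → α) →₀ ℤ)
    (hid : ∀ x : α → A, ∑ k ∈ Finset.range (D + 1),
      (F k).sum (fun w z => z • (List.ofFn (fun j => x (w j))).prod) = 0)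
    {N : ℕ} (b : Fin N → ℤ) {l : ℕ} (w0 : Fin l → α) (y : Fin l → A) :
    ∑ k ∈ Finset.range (D + 1), ∑ φ : Fin k → Fin l,
      (F k (fun j => w0 (φ j)) * kap b φ) • (List.ofFn (fun j => y (φ j))).prod = 0 := by
  classical
  have h1 : ∀ t : Fin l → Fin N, ∑ k ∈ Finset.range (D + 1), ∑ φ : Fin k → Fin l,
      (F k (fun j => w0 (φ j)) * ∏ j, (((t (φ j) : Fin N) : ℕ) : ℤ))
        • (List.ofFn (fun j => y (φ j))).prod = 0 := by
    intro t
    rw [← hid (fun a => ∑ i : Fin l, (if w0 i = a then (((t i : Fin N) : ℕ) : ℤ) else 0) • y i)]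
    apply Finset.sum_congr rfl
    intro k _
    rw [Finsupp.sum]
    simp_rw [prod_expand (fun j i => if w0 i = (_ : Fin k → α) j then (((t i : Fin N) : ℕ) : ℤ) else 0) y]
    simp_rw [Finset.smul_sum]
    rw [Finset.sum_comm]
    apply Finset.sum_congr rfl
    intro φ _
    simp_rw [← mul_smul]
    rw [← Finset.sum_smul]
    congr 1
    have h2 : ∀ w : Fin k → α, (∏ j, if w0 (φ j) = w j then (((t (φ j) : Fin N) : ℕ) : ℤ) else 0)
        = if (fun j => w0 (φ j)) = w then ∏ j, (((t (φ j) : Fin N) : ℕ) : ℤ) else 0 := by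
      intro w
      by_cases hw : (fun j => w0 (φ j)) = w
      · rw [if_pos hw]
        subst hw
        simp
      · rw [if_neg hw]
        have : ∃ j, w0 (φ j) ≠ w j := by
          by_contra hcon
          push Not at hcon
          exact hw (funext hcon)
        obtain ⟨j, hj⟩ := this
        exact Finset.prod_eq_zero (Finset.mem_univ j) (by rw [if_neg hj])
    simp_rw [h2]
    simp_rw [mul_ite, mul_zero]
    rw [Finset.sum_ite_eq]
    split_ifs with hm
    · rfl
    · rw [Finsupp.notMem_support_iff] at hm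
      rw [hm, zero_mul]
  have h3 : ∑ t : Fin l → Fin N, (∏ i, b (t i)) • (∑ k ∈ Finset.range (D + 1),
      ∑ φ : Fin k → Fin l, (F k (fun j => w0 (φ j)) * ∏ j, (((t (φ j) : Fin N) : ℕ) : ℤ))
        • (List.ofFn (fun j => y (φ j))).prod) = 0 := by
    apply Finset.sum_eq_zero
    intro t _
    rw [h1 t, smul_zero]
  rw [← h3]
  simp_rw [Finset.smul_sum]
  rw [Finset.sum_comm]
  apply Finset.sum_congr rfl
  intro k _
  rw [Finset.sum_comm]
  apply Finset.sum_congr rfl
  intro φ _
  simp_rw [← mul_smul]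
  rw [← Finset.sum_smul]
  congr 1
  unfold kap
  rw [← point_sum, Finset.mul_sum]
  apply Finset.sum_congr rfl
  intro t _
  ring

theorem sum_bij_perm {l : ℕ} (g : (Fin l → Fin l) → A)
    (h0 : ∀ φ, ¬ Function.Bijective φ → g φ = 0) :
    ∑ φ : Fin l → Fin l, g φ = ∑ σ : Perm (Fin l), g (fun i => σ i) := by
  classical
  symm
  refine Finset.sum_of_injOn (fun σ : Perm (Fin l) => (fun i => σ i)) ?_ ?_ ?_ ?_
  · intro σ _ τ _ h
    ext i
    have := congrFun h i
    simp only at this
    rw [this]
  · intro σ _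
    exact Finset.mem_coe.mpr (Finset.mem_univ _)
  · intro φ _ hφ
    apply h0
    intro hb
    exact hφ ⟨Equiv.ofBijective φ hb, Finset.mem_coe.mpr (Finset.mem_univ _), rfl⟩
  · intro σ _
    rfl

theorem vand (D : ℕ) : ∃ (b : Fin (D + 2) → ℤ) (δ : ℤ), δ ≠ 0 ∧
    ∀ k, k ≤ D → ∑ s : Fin (D + 2), b s * ((s : ℕ) : ℤ) ^ k = if k = 1 then δ else 0 := by
  classical
  let v : Fin (D + 2) → ℤ := fun s => ((s : ℕ) : ℤ)
  have hdet : (Matrix.vandermonde v).det ≠ 0 := by
    rw [Matrix.det_vandermonde_ne_zero_iff]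
    intro s t h
    have h1 : ((s : ℕ) : ℤ) = ((t : ℕ) : ℤ) := h
    exact Fin.ext (by exact_mod_cast h1)
  refine ⟨fun s => (Matrix.vandermonde v).adjugate 1 s, (Matrix.vandermonde v).det, hdet, ?_⟩
  intro k hk
  have h1 := congrFun (congrFun (Matrix.adjugate_mul (Matrix.vandermonde v)) 1) ⟨k, by omega⟩
  rw [Matrix.mul_apply] at h1
  simp only [Matrix.vandermonde_apply, Matrix.smul_apply, Matrix.one_apply, smul_eq_mul] at h1
  refine Eq.trans h1 ?_
  by_cases hk1 : k = 1
  · subst hk1
    rw [if_pos rfl, if_pos, mul_one]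
    rfl
  · rw [if_neg hk1, if_neg, mul_zero]
    intro h
    apply hk1
    have := congrArg Fin.val h
    simpa using this.symm

theorem card_fiber_le {k l : ℕ} (φ : Fin k → Fin l) (i : Fin l) :
    (Finset.univ.filter (fun j => φ j = i)).card ≤ k := by
  refine (Finset.card_le_univ _).trans ?_
  simp

theorem bij_of_fibers {k l : ℕ} (φ : Fin k → Fin l)
    (h : ∀ i, (Finset.univ.filter (fun j => φ j = i)).card = 1) : Function.Bijective φ := by
  constructor
  · intro a b hab
    obtain ⟨x, hx⟩ := Finset.card_eq_one.mp (h (φ b))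
    have ha : a ∈ Finset.univ.filter (fun j => φ j = φ b) := by simp [hab]
    have hb : b ∈ Finset.univ.filter (fun j => φ j = φ b) := by simp
    rw [hx, Finset.mem_singleton] at ha hb
    rw [ha, hb]
  · intro i
    obtain ⟨x, hx⟩ := Finset.card_eq_one.mp (h i)
    have : x ∈ Finset.univ.filter (fun j => φ j = i) := by rw [hx]; simp
    exact ⟨x, (Finset.mem_filter.mp this).2⟩

theorem fiber_card_of_bij {k l : ℕ} (φ : Fin k → Fin l) (h : Function.Bijective φ) (i : Fin l) :
    (Finset.univ.filter (fun j => φ j = i)).card = 1 := by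
  obtain ⟨x, hx⟩ := h.2 i
  rw [Finset.card_eq_one]
  refine ⟨x, ?_⟩
  ext j
  simp only [Finset.mem_filter, Finset.mem_univ, true_and, Finset.mem_singleton]
  constructor
  · intro hj
    exact h.1 (hj.trans hx.symm)
  · rintro rfl
    exact hx

/-- the multilinear part at a word is killed by a nonzero integer -/
theorem partB {α : Type*} {D : ℕ} (F : ∀ k, (Fin k → α) →₀ ℤ)
    (hid : ∀ x : α → A, ∑ k ∈ Finset.range (D + 1),
      (F k).sum (fun w z => z • (List.ofFn (fun j => x (w j))).prod) = 0)
    {l : ℕ} (hl : l ≤ D) (w0 : Fin l → α) :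
    ∃ Δ : ℕ, 0 < Δ ∧ ∀ y : Fin l → A,
      (Δ : ℤ) • ∑ σ : Perm (Fin l), F l (fun i => w0 (σ i)) • (List.ofFn (fun i => y (σ i))).prod = 0 := by
  classical
  obtain ⟨b, δ, hδ, hb⟩ := vand D
  have hk1 : ∀ {k : ℕ} (φ : Fin k → Fin l), k ≤ D → ¬ Function.Bijective φ → kap b φ = 0 := by
    intro k φ hk hφ
    have : ∃ i, (Finset.univ.filter (fun j => φ j = i)).card ≠ 1 := by
      by_contra hcon
      push Not at hcon
      exact hφ (bij_of_fibers φ hcon)
    obtain ⟨i, hi⟩ := this
    unfold kap
    apply Finset.prod_eq_zero (Finset.mem_univ i)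
    rw [hb _ ((card_fiber_le φ i).trans hk), if_neg hi]
  have hk2 : ∀ {k : ℕ} (φ : Fin k → Fin l), k ≤ D → Function.Bijective φ → kap b φ = δ ^ l := by
    intro k φ hk hφ
    unfold kap
    have : ∀ i : Fin l, ∑ s : Fin (D + 2), b s * ((s : ℕ) : ℤ) ^
        (Finset.univ.filter (fun j => φ j = i)).card = δ := by
      intro i
      rw [hb _ ((card_fiber_le φ i).trans hk), if_pos (fiber_card_of_bij φ hφ i)]
    simp_rw [this]
    simp
  refine ⟨δ.natAbs ^ l, pow_pos (Int.natAbs_pos.mpr hδ) l, fun y => ?_⟩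
  have h := star F hid b w0 y
  rw [Finset.sum_eq_single l] at h
  · rw [sum_bij_perm] at h
    · have h4 : ∀ σ : Perm (Fin l), kap b (fun i => σ i) = δ ^ l := fun σ => hk2 _ hl σ.bijective
      simp_rw [h4] at h
      have h5 : δ ^ l • ∑ σ : Perm (Fin l), F l (fun i => w0 (σ i)) •
          (List.ofFn (fun i => y (σ i))).prod = 0 := by
        rw [← h, Finset.smul_sum]
        apply Finset.sum_congr rfl
        intro σ _
        rw [← mul_smul, mul_comm]
      rcases Int.natAbs_eq δ with hd | hd
      · rw [Nat.cast_pow, ← hd]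
        exact h5
      · have h6 : ((δ.natAbs ^ l : ℕ) : ℤ) = (-1) ^ l * δ ^ l := by
          rw [← mul_pow, Nat.cast_pow]
          congr 1
          omega
        rw [h6, mul_smul, h5, smul_zero]
    · intro φ hφ
      rw [hk1 φ hl hφ, mul_zero, zero_smul]
  · intro k hk hkl
    apply Finset.sum_eq_zero
    intro φ _
    rw [hk1 φ (by rw [Finset.mem_range] at hk; omega), mul_zero, zero_smul]
    intro hφ
    apply hkl
    have := Fintype.card_of_bijective hφ
    simpa using this
  · intro hn
    exact absurd (Finset.mem_range.mpr (by omega)) hn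

/-- multiples of an integer -/
def mulV (A : Type*) [Ring A] (n : ℕ) : AddSubgroup A := (zsmulAddGroupHom (n : ℤ)).range

theorem mem_mulV {n : ℕ} {x : A} : x ∈ mulV A n ↔ ∃ u : A, (n : ℤ) • u = x := Iff.rfl

theorem partA {α : Type*} {D : ℕ} (F : ∀ k, (Fin k → α) →₀ ℤ)
    (hid : ∀ x : α → A, ∑ k ∈ Finset.range (D + 1),
      (F k).sum (fun w z => z • (List.ofFn (fun j => x (w j))).prod) = 0)
    {p : ℕ} (hp : p.Prime) (h0 : ∃ k, k ≤ D ∧ ∃ w : Fin k → α, ¬ (p : ℤ) ∣ F k w) :
    ∃ (l : ℕ) (c : Perm (Fin l) → ℤ), c 1 = 1 ∧ ∀ y : Fin l → A,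
      ∑ σ : Perm (Fin l), c σ • (List.ofFn (fun i => y (σ i))).prod ∈ mulV A p := by
  classical
  let S : Finset ℕ := (Finset.range (D + 1)).filter (fun k => ∃ w : Fin k → α, ¬ (p : ℤ) ∣ F k w)
  have hS : S.Nonempty := by
    obtain ⟨k, hk, hw⟩ := h0
    exact ⟨k, Finset.mem_filter.mpr ⟨Finset.mem_range.mpr (by omega), hw⟩⟩
  obtain ⟨l, hlS, hmax⟩ := Finset.exists_max_image S id hS
  obtain ⟨hl, w0, hw0⟩ := Finset.mem_filter.mp hlS
  rw [Finset.mem_range] at hl
  let b : Fin 2 → ℤ := ![-1, 1]
  have hb : ∀ k : ℕ, ∑ s : Fin 2, b s * ((s : ℕ) : ℤ) ^ k = if k = 0 then 0 else 1 := by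
    intro k
    rw [Fin.sum_univ_two]
    by_cases hk : k = 0
    · subst hk
      simp [b]
    · simp [b, hk]
  have hk1 : ∀ {k : ℕ} (φ : Fin k → Fin l), ¬ Function.Surjective φ → kap b φ = 0 := by
    intro k φ hφ
    rw [Function.Surjective] at hφ
    push Not at hφ
    obtain ⟨i, hi⟩ := hφ
    unfold kap
    apply Finset.prod_eq_zero (Finset.mem_univ i)
    rw [hb, if_pos]
    rw [Finset.card_eq_zero, Finset.filter_eq_empty_iff]
    intro j _
    exact hi j
  have hk2 : ∀ {k : ℕ} (φ : Fin k → Fin l), Function.Surjective φ → kap b φ = 1 := by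
    intro k φ hφ
    unfold kap
    apply Finset.prod_eq_one
    intro i _
    rw [hb, if_neg]
    obtain ⟨j, hj⟩ := hφ i
    intro h
    rw [Finset.card_eq_zero, Finset.filter_eq_empty_iff] at h
    exact h (Finset.mem_univ j) hj
  have hval : ∀ y : Fin l → A, ∑ σ : Perm (Fin l), F l (fun i => w0 (σ i)) •
      (List.ofFn (fun i => y (σ i))).prod ∈ mulV A p := by
    intro y
    have h := star F hid b w0 y
    rw [← Finset.add_sum_erase _ _ (Finset.mem_range.mpr hl)] at h
    have h1 : ∑ φ : Fin l → Fin l, (F l (fun j => w0 (φ j)) * kap b φ) •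
        (List.ofFn (fun j => y (φ j))).prod = ∑ σ : Perm (Fin l), F l (fun i => w0 (σ i)) •
      (List.ofFn (fun i => y (σ i))).prod := by
      rw [sum_bij_perm]
      · apply Finset.sum_congr rfl
        intro σ _
        rw [hk2 _ σ.surjective, mul_one]
      · intro φ hφ
        rw [hk1 φ, mul_zero, zero_smul]
        intro hs
        exact hφ (Finite.injective_iff_bijective.mp (Finite.injective_iff_surjective.mpr hs))
    rw [h1] at h
    rw [eq_neg_of_add_eq_zero_left h]
    apply (mulV A p).neg_mem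
    apply (mulV A p).sum_mem
    intro k hk
    apply (mulV A p).sum_mem
    intro φ _
    rw [Finset.mem_erase, Finset.mem_range] at hk
    by_cases hkl : k < l
    · rw [hk1 φ, mul_zero, zero_smul]
      · exact (mulV A p).zero_mem
      · intro hs
        have := Fintype.card_le_of_surjective φ hs
        simp only [Fintype.card_fin] at this
        omega
    · have hdiv : (p : ℤ) ∣ F k (fun j => w0 (φ j)) := by
        by_contra hcon
        have hkS : k ∈ S := Finset.mem_filter.mpr ⟨Finset.mem_range.mpr hk.2, _, hcon⟩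
        have := hmax k hkS
        simp only [id] at this
        omega
      obtain ⟨q, hq⟩ := hdiv
      rw [hq, mul_assoc, mul_smul]
      exact ⟨_, rfl⟩
  have hcop : IsCoprime (F l w0) (p : ℤ) := by
    rw [isCoprime_comm]
    exact (Nat.prime_iff_prime_int.mp hp).coprime_iff_not_dvd.mpr hw0
  obtain ⟨u, v, huv⟩ := hcop
  refine ⟨l, fun σ => u * F l (fun i => w0 (σ i)) + if σ = 1 then v * p else 0, ?_, ?_⟩
  · simp only [Perm.one_apply, if_true]
    exact huv
  · intro y
    have h2 : ∑ σ : Perm (Fin l), (u * F l (fun i => w0 (σ i)) + if σ = 1 then v * p else 0) •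
        (List.ofFn (fun i => y (σ i))).prod
        = u • ∑ σ : Perm (Fin l), F l (fun i => w0 (σ i)) • (List.ofFn (fun i => y (σ i))).prod
          + (p : ℤ) • (v • (List.ofFn (fun i => y ((1 : Perm (Fin l)) i))).prod) := by
      simp_rw [add_smul]
      rw [Finset.sum_add_distrib, Finset.smul_sum]
      congr 1
      · apply Finset.sum_congr rfl
        intro σ _
        rw [mul_smul]
      · simp_rw [ite_smul, zero_smul]
        rw [Finset.sum_ite_eq' Finset.univ (1 : Perm (Fin l))]
        rw [if_pos (Finset.mem_univ _), mul_comm, mul_smul]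
    rw [h2]
    exact (mulV A p).add_mem ((mulV A p).zsmul_mem (hval y) u) ⟨_, rfl⟩

theorem product_perm {d1 d2 : ℕ} (c1 : Perm (Fin d1) → ℤ) (c2 : Perm (Fin d2) → ℤ) :
    ∃ c : Perm (Fin (d1 + d2)) → ℤ, c 1 = c1 1 * c2 1 ∧ ∀ r : Fin (d1 + d2) → A,
      ∑ σ : Perm (Fin (d1 + d2)), c σ • (List.ofFn (fun i => r (σ i))).prod
        = (∑ σ : Perm (Fin d1), c1 σ • (List.ofFn (fun i => r (Fin.castAdd d2 (σ i)))).prod)
          * ∑ σ : Perm (Fin d2), c2 σ • (List.ofFn (fun i => r (Fin.natAdd d1 (σ i)))).prod := by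
  classical
  let emb : Perm (Fin d1) × Perm (Fin d2) → Perm (Fin (d1 + d2)) := fun q =>
    (finSumFinEquiv.symm.trans (Perm.sumCongr q.1 q.2)).trans finSumFinEquiv
  have e1 : ∀ q i, emb q (Fin.castAdd d2 i) = Fin.castAdd d2 (q.1 i) := by
    intro q i
    simp [emb]
  have e2 : ∀ q i, emb q (Fin.natAdd d1 i) = Fin.natAdd d1 (q.2 i) := by
    intro q i
    simp [emb]
  have hemb1 : emb 1 = 1 := by
    ext i
    refine Fin.addCases (fun i => ?_) (fun i => ?_) i
    · rw [e1]; rfl
    · rw [e2]; rfl
  have hinj : Function.Injective emb := by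
    intro q q' h
    apply Prod.ext
    · ext i
      have := congrArg (fun σ : Perm (Fin (d1 + d2)) => σ (Fin.castAdd d2 i)) h
      simp only [e1] at this
      have := congrArg Fin.val this
      simpa using this
    · ext i
      have := congrArg (fun σ : Perm (Fin (d1 + d2)) => σ (Fin.natAdd d1 i)) h
      simp only [e2] at this
      have := congrArg Fin.val this
      simpa using this
  refine ⟨fun σ => ∑ q : Perm (Fin d1) × Perm (Fin d2), if emb q = σ then c1 q.1 * c2 q.2 else 0,
    ?_, ?_⟩
  · simp only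
    rw [Finset.sum_eq_single (1 : Perm (Fin d1) × Perm (Fin d2))]
    · rw [if_pos hemb1]; rfl
    · intro q _ hq
      rw [if_neg]
      intro h
      exact hq (hinj (h.trans hemb1.symm))
    · intro h
      exact absurd (Finset.mem_univ _) h
  · intro r
    simp_rw [Finset.sum_smul]
    rw [Finset.sum_comm]
    simp_rw [ite_smul, zero_smul]
    simp_rw [Finset.sum_ite_eq, if_pos (Finset.mem_univ _)]
    rw [Finset.sum_mul_sum, ← Finset.sum_product']
    apply Finset.sum_congr rfl
    intro q _
    have h3 : List.ofFn (fun i => r (emb q i)) =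
        List.ofFn (fun i => r (Fin.castAdd d2 (q.1 i))) ++
          List.ofFn (fun i => r (Fin.natAdd d1 (q.2 i))) := by
      rw [← List.ofFn_fin_append]
      congr 1
      funext i
      refine Fin.addCases (fun i => ?_) (fun i => ?_) i
      · rw [e1, Fin.append_left]
      · rw [e2, Fin.append_right]
    rw [h3, List.prod_append, smul_mul_smul_comm]

/-- a multilinear polynomial with leading coefficient one and values divisible by a given integer -/
theorem partC (hprime : ∀ p : ℕ, p.Prime → ∃ (l : ℕ) (c : Perm (Fin l) → ℤ), c 1 = 1 ∧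
      ∀ y : Fin l → A, ∑ σ : Perm (Fin l), c σ • (List.ofFn (fun i => y (σ i))).prod ∈ mulV A p)
    (n : ℕ) (hn : 0 < n) : ∃ (l : ℕ) (c : Perm (Fin l) → ℤ), c 1 = 1 ∧
      ∀ y : Fin l → A, ∑ σ : Perm (Fin l), c σ • (List.ofFn (fun i => y (σ i))).prod ∈ mulV A n := by
  induction n using induction_on_primes with
  | zero => exact absurd hn (lt_irrefl _)
  | one =>
    refine ⟨0, fun _ => 1, rfl, fun y => ?_⟩
    exact mem_mulV.mpr ⟨_, by rw [Nat.cast_one, one_smul]⟩
  | prime_mul p a hp ih =>
    obtain ⟨l1, c1, h11, h12⟩ := hprime p hp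
    obtain ⟨l2, c2, h21, h22⟩ := ih (Nat.pos_of_ne_zero (by rintro rfl; simp at hn))
    obtain ⟨c, hc, hr⟩ := product_perm (A := A) c1 c2
    refine ⟨l1 + l2, c, by rw [hc, h11, h21, mul_one], fun y => ?_⟩
    rw [hr]
    obtain ⟨u, hu⟩ := mem_mulV.mp (h12 (fun i => y (Fin.castAdd l2 i)))
    obtain ⟨v, hv⟩ := mem_mulV.mp (h22 (fun i => y (Fin.natAdd l1 i)))
    rw [← hu, ← hv, smul_mul_smul_comm]
    exact mem_mulV.mpr ⟨u * v, by rw [Nat.cast_mul]⟩

/-- Any identity with a coefficient one gives a multilinear one with leading coefficient one. -/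
theorem multilinear_of_identity {α : Type*} {D : ℕ} (F : ∀ k, (Fin k → α) →₀ ℤ)
    (hid : ∀ x : α → A, ∑ k ∈ Finset.range (D + 1),
      (F k).sum (fun w z => z • (List.ofFn (fun j => x (w j))).prod) = 0)
    {k : ℕ} (hk : k ≤ D) (w0 : Fin k → α) (hw : F k w0 = 1) :
    ∃ (d : ℕ) (c : Perm (Fin d) → ℤ), c 1 = 1 ∧ ∀ r : Fin d → A,
      ∑ σ : Perm (Fin d), c σ • (List.ofFn (fun i => r (σ i))).prod = 0 := by
  classical
  obtain ⟨Δ, hΔ, h1⟩ := partB F hid hk w0
  obtain ⟨l, c2, h21, h22⟩ := partC (A := A) (fun p hp => partA F hid hp ⟨k, hk, w0, by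
    rw [hw]
    intro h
    have := Int.eq_one_of_dvd_one (Int.natCast_nonneg p) h
    have h2 := hp.one_lt
    omega⟩) Δ hΔ
  obtain ⟨c, hc, hr⟩ := product_perm (A := A) (fun σ : Perm (Fin k) => F k (fun i => w0 (σ i))) c2
  refine ⟨k + l, c, ?_, ?_⟩
  · rw [hc, h21, mul_one]
    simpa using hw
  · intro r
    rw [hr]
    obtain ⟨v, hv⟩ := mem_mulV.mp (h22 (fun i => r (Fin.natAdd k i)))
    rw [← hv, mul_smul_comm, ← smul_mul_assoc]
    have h5 := h1 (fun i => r (Fin.castAdd l i))
    rw [h5, zero_mul]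

/-- Value at `r` of a polynomial without constant term in the noncommuting variables
`x_0, x_1, ...` with integer coefficients. -/
noncomputable def pev {B : Type*} [NonUnitalRing B] (r : ℕ → B)
    (f : MonoidAlgebra ℤ (FreeSemigroup ℕ)) : B :=
  MonoidAlgebra.liftMagma ℤ (FreeSemigroup.lift r) f

theorem pev_apply {B : Type*} [NonUnitalRing B] (r : ℕ → B)
    (f : MonoidAlgebra ℤ (FreeSemigroup ℕ)) :
    pev r f = f.coeff.sum fun w z => z • FreeSemigroup.lift r w := by
  unfold pev
  rw [MonoidAlgebra.liftMagma_apply_apply]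
  rfl

theorem lift_map {B C : Type*} [NonUnitalRing B] [NonUnitalRing C] (ψ : B →ₙ+* C) (r : ℕ → B)
    (w : FreeSemigroup ℕ) :
    ψ (FreeSemigroup.lift r w) = FreeSemigroup.lift (fun a => ψ (r a)) w := by
  induction w with
  | ih1 a => rw [FreeSemigroup.lift_of, FreeSemigroup.lift_of]
  | ih2 a w h1 h2 => rw [map_mul, map_mul, map_mul, h1, h2]

theorem pev_map {B C : Type*} [NonUnitalRing B] [NonUnitalRing C] (ψ : B →ₙ+* C) (r : ℕ → B)
    (f : MonoidAlgebra ℤ (FreeSemigroup ℕ)) :
    ψ (pev r f) = pev (fun a => ψ (r a)) f := by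
  rw [pev_apply, pev_apply, map_finsuppSum]
  apply Finsupp.sum_congr
  intro w _
  rw [map_zsmul, lift_map]

section Comm

variable {β : Type*}

/-- a letter in the free ring -/
noncomputable def X (b : β) : MonoidAlgebra ℤ (FreeMonoid β) :=
  MonoidAlgebra.single (FreeMonoid.of b) 1

theorem coeff_X_mul [DecidableEq β] (b c : β) (P : MonoidAlgebra ℤ (FreeMonoid β))
    (u : FreeMonoid β) :
    (X b * P).coeff (FreeMonoid.of c * u) = if b = c then P.coeff u else 0 := by
  unfold X
  by_cases hbc : b = c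
  · subst hbc
    rw [if_pos rfl, MonoidAlgebra.coeff_single_mul_eq_mul_coeff u, one_mul]
    intro m _
    exact mul_right_inj _
  · rw [if_neg hbc]
    apply MonoidAlgebra.coeff_single_mul_of_forall_mul_ne
    intro d h
    have h1 := congrArg FreeMonoid.toList h
    rw [FreeMonoid.toList_of_mul, FreeMonoid.toList_of_mul] at h1
    injection h1 with h2 _
    exact hbc h2

theorem coeff_X_mul_one (b : β) (P : MonoidAlgebra ℤ (FreeMonoid β)) :
    (X b * P).coeff 1 = 0 := by
  unfold X
  apply MonoidAlgebra.coeff_single_mul_of_forall_mul_ne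
  intro d h
  have h1 := congrArg FreeMonoid.toList h
  rw [FreeMonoid.toList_of_mul, FreeMonoid.toList_one] at h1
  exact List.cons_ne_nil _ _ h1

/-- commutators of letters -/
noncomputable def kom (a : ℕ) : MonoidAlgebra ℤ (FreeMonoid (ℕ × Bool)) :=
  X (a, false) * X (a, true) - X (a, true) * X (a, false)

/-- doubled words -/
def dbl : List ℕ → FreeMonoid (ℕ × Bool)
  | [] => 1
  | a :: l => FreeMonoid.of (a, false) * (FreeMonoid.of (a, true) * dbl l)

theorem coeff_kom (l : List ℕ) : ∀ l0 : List ℕ,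
    ((l.map kom).prod).coeff (dbl l0) = if l = l0 then 1 else 0 := by
  classical
  induction l with
  | nil =>
    intro l0
    cases l0 with
    | nil =>
      rw [List.map_nil, List.prod_nil, if_pos rfl, dbl]
      simp [MonoidAlgebra.one_def]
    | cons a l0 =>
      rw [List.map_nil, List.prod_nil, if_neg (List.cons_ne_nil _ _).symm, dbl]
      rw [MonoidAlgebra.one_def, MonoidAlgebra.coeff_single, Finsupp.single_apply, if_neg]
      intro h
      have h1 := congrArg FreeMonoid.toList h
      rw [FreeMonoid.toList_of_mul, FreeMonoid.toList_one] at h1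
      exact List.cons_ne_nil _ _ h1.symm
  | cons a l ih =>
    intro l0
    rw [List.map_cons, List.prod_cons, kom, sub_mul, mul_assoc, mul_assoc,
      MonoidAlgebra.coeff_sub, Finsupp.sub_apply]
    cases l0 with
    | nil =>
      rw [dbl, coeff_X_mul_one, coeff_X_mul_one, if_neg (List.cons_ne_nil _ _), sub_zero]
    | cons b l0 =>
      rw [dbl, coeff_X_mul, coeff_X_mul, coeff_X_mul, coeff_X_mul, ih]
      by_cases hab : a = b
      · subst hab
        by_cases hl : l = l0
        · subst hl
          simp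
        · simp [hl]
      · simp [hab]

/-- value in a ring with unit, written with lists -/
noncomputable def evR {B : Type*} [Ring B] (r : ℕ → B)
    (f : MonoidAlgebra ℤ (FreeSemigroup ℕ)) : B :=
  f.coeff.sum fun w z => z • ((w.head :: w.tail).map r).prod

theorem evR_map {B C : Type*} [Ring B] [Ring C] (E : B →+* C) (r : ℕ → B)
    (f : MonoidAlgebra ℤ (FreeSemigroup ℕ)) : E (evR r f) = evR (fun a => E (r a)) f := by
  unfold evR
  rw [map_finsuppSum]
  apply Finsupp.sum_congr
  intro w _
  rw [map_zsmul, map_list_prod, List.map_map]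
  rfl

theorem inr_lift {R : Type*} [NonUnitalRing R] (ρ : ℕ → R) (w : FreeSemigroup ℕ) :
    ((FreeSemigroup.lift ρ w : R) : Unitization ℤ R)
      = ((w.head :: w.tail).map (fun a => (ρ a : Unitization ℤ R))).prod := by
  induction w with
  | ih1 a => simp
  | ih2 a w h1 h2 =>
    rw [map_mul, FreeSemigroup.lift_of, Unitization.inr_mul, h2]
    rfl

theorem evR_inr {R : Type*} [NonUnitalRing R] (ρ : ℕ → R)
    (f : MonoidAlgebra ℤ (FreeSemigroup ℕ)) :
    evR (fun a => (ρ a : Unitization ℤ R)) f = ((pev ρ f : R) : Unitization ℤ R) := by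
  unfold evR
  rw [pev_apply]
  let J : R →+ Unitization ℤ R :=
    { toFun := fun r => (r : Unitization ℤ R)
      map_zero' := Unitization.inr_zero ℤ
      map_add' := fun a b => Unitization.inr_add ℤ a b }
  have h := map_finsuppSum J f.coeff (fun w z => z • FreeSemigroup.lift ρ w)
  refine Eq.trans ?_ h.symm
  apply Finsupp.sum_congr
  intro w _
  rw [map_zsmul]
  congr 1
  exact (inr_lift ρ w).symm

theorem coeff_evR_kom (f : MonoidAlgebra ℤ (FreeSemigroup ℕ)) (w0 : FreeSemigroup ℕ) :
    (evR kom f).coeff (dbl (w0.head :: w0.tail)) = f.coeff w0 := by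
  unfold evR
  rw [MonoidAlgebra.coeff_finsuppSum, Finsupp.sum, Finsupp.finsetSum_apply]
  have h1 : ∀ w : FreeSemigroup ℕ, (f.coeff w • ((w.head :: w.tail).map kom).prod).coeff
      (dbl (w0.head :: w0.tail)) = if w = w0 then f.coeff w else 0 := by
    intro w
    rw [MonoidAlgebra.coeff_smul, Finsupp.smul_apply, coeff_kom]
    by_cases hw : w = w0
    · subst hw
      simp
    · rw [if_neg hw, if_neg, smul_zero]
      intro h
      injection h with h2 h3
      apply hw
      cases w
      cases w0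
      simp only at h2 h3
      rw [h2, h3]
  simp_rw [h1]
  rw [Finset.sum_ite_eq']
  split_ifs with h
  · rfl
  · rw [Finsupp.notMem_support_iff] at h
    exact h.symm

end Comm

/-- normal form of a polynomial: coefficients sorted by the length of the word -/
theorem sort_by_length {β : Type*} (g : FreeMonoid β →₀ ℤ) :
    ∃ (D : ℕ) (F : ∀ k, (Fin k → β) →₀ ℤ),
      (∀ k (u : Fin k → β), F k u = g (FreeMonoid.ofList (List.ofFn u))) ∧
      (∀ w ∈ g.support, w.length ≤ D) ∧
      ∀ {A : Type*} [Ring A] (x : β → A),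
        ∑ k ∈ Finset.range (D + 1), (F k).sum (fun w z => z • (List.ofFn (fun j => x (w j))).prod)
          = g.sum (fun w z => z • FreeMonoid.lift x w) := by
  classical
  have hinj : ∀ k, Function.Injective (fun u : Fin k → β => FreeMonoid.ofList (List.ofFn u)) := by
    intro k u v h
    exact List.ofFn_injective (FreeMonoid.ofList.injective h)
  refine ⟨g.support.sup FreeMonoid.length, fun k => g.comapDomain _ (hinj k).injOn, ?_, ?_, ?_⟩
  · intro k u
    rfl
  · intro w hw
    exact Finset.le_sup (f := FreeMonoid.length) hw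
  · intro A _ x
    rw [Finsupp.sum, ← Finset.sum_fiberwise_of_maps_to (s := g.support)
      (t := Finset.range (g.support.sup FreeMonoid.length + 1)) (g := FreeMonoid.length)]
    · apply Finset.sum_congr rfl
      intro k _
      rw [Finsupp.sum]
      refine Finset.sum_of_injOn (fun u : Fin k → β => FreeMonoid.ofList (List.ofFn u))
        (hinj k).injOn ?_ ?_ ?_
      · intro u hu
        rw [Finset.mem_coe, Finsupp.mem_support_iff] at hu
        rw [Finset.mem_coe, Finset.mem_filter, Finsupp.mem_support_iff]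
        refine ⟨hu, ?_⟩
        simp [FreeMonoid.length]
      · intro w hw hn
        exfalso
        apply hn
        rw [Finset.mem_filter, Finsupp.mem_support_iff] at hw
        obtain ⟨hw1, hw2⟩ := hw
        subst hw2
        have h3 : FreeMonoid.ofList (List.ofFn (fun i : Fin w.length => (FreeMonoid.toList w).get i))
            = w := by
          change FreeMonoid.ofList (List.ofFn (FreeMonoid.toList w).get) = w
          rw [List.ofFn_get]
          rfl
        refine ⟨fun i => (FreeMonoid.toList w).get i, ?_, h3⟩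
        rw [Finset.mem_coe, Finsupp.mem_support_iff]
        change g (FreeMonoid.ofList (List.ofFn (fun i : Fin w.length =>
          (FreeMonoid.toList w).get i))) ≠ 0
        rw [h3]
        exact hw1
      · intro u _
        change g (FreeMonoid.ofList (List.ofFn u)) • _ = g (FreeMonoid.ofList (List.ofFn u)) • _
        congr 1
        rw [FreeMonoid.lift_apply, FreeMonoid.toList_ofList, List.map_ofFn]
        rfl
    · intro w hw
      rw [Finset.mem_range]
      exact Nat.lt_succ_of_le (Finset.le_sup (f := FreeMonoid.length) hw)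

/-- **Key step.**  If a ring without unit satisfies an identity with a coefficient one, then the
ring with a unit adjoined satisfies a multilinear identity with leading coefficient one. -/
theorem unitization_multilinear {R : Type*} [NonUnitalRing R]
    (f : MonoidAlgebra ℤ (FreeSemigroup ℕ)) (w0 : FreeSemigroup ℕ) (hw0 : f.coeff w0 = 1)
    (hf : ∀ r : ℕ → R, pev r f = 0) :
    ∃ (d : ℕ) (c : Perm (Fin d) → ℤ), c 1 = 1 ∧ ∀ r : Fin d → Unitization ℤ R,
      ∑ σ : Perm (Fin d), c σ • (List.ofFn (fun i => r (σ i))).prod = 0 := by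
  classical
  obtain ⟨D, F, hF1, hF2, hF3⟩ := sort_by_length (evR kom f).coeff
  have hcoef := coeff_evR_kom f w0
  rw [hw0] at hcoef
  set u0 := dbl (w0.head :: w0.tail) with hu0
  have hmem : u0 ∈ (evR kom f).coeff.support := by
    rw [Finsupp.mem_support_iff, hcoef]
    exact one_ne_zero
  refine multilinear_of_identity (A := Unitization ℤ R) (D := D) F ?_ (hF2 u0 hmem)
    (fun i => (FreeMonoid.toList u0).get i) ?_
  · intro x
    rw [hF3 x]
    have h1 : ((evR kom f).coeff.sum fun w z => z • (FreeMonoid.lift x) w)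
        = (MonoidAlgebra.lift ℤ (Unitization ℤ R) (FreeMonoid (ℕ × Bool)) (FreeMonoid.lift x)).toRingHom
            (evR kom f) := by
      refine Eq.trans ?_ (MonoidAlgebra.lift_apply _ _).symm
      apply Finsupp.sum_congr
      intro w _
      rfl
    rw [h1]
    set E := (MonoidAlgebra.lift ℤ (Unitization ℤ R) (FreeMonoid (ℕ × Bool)) (FreeMonoid.lift x)).toRingHom
      with hE
    have hEX : ∀ b, E (X b) = x b := by
      intro b
      rw [hE, X]
      simp
    have h3 : ∀ a, E (kom a) = (((E (kom a)).snd : R) : Unitization ℤ R) := by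
      intro a
      apply Unitization.ext
      · rw [Unitization.fst_inr, kom, map_sub, map_mul, map_mul, hEX, hEX, sub_eq_add_neg,
          Unitization.fst_add, Unitization.fst_neg, Unitization.fst_mul, Unitization.fst_mul]
        ring
      · rw [Unitization.snd_inr]
    have h2 : E (evR kom f) = evR (fun a => E (kom a)) f :=
      evR_map (C := Unitization ℤ R) E kom f
    rw [h2]
    have h4 : (fun a => E (kom a)) = (fun a => (((E (kom a)).snd : R) : Unitization ℤ R)) :=
      funext h3
    rw [h4, evR_inr, hf]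
    exact Unitization.inr_zero ℤ
  · rw [hF1]
    have h3 : FreeMonoid.ofList (List.ofFn (fun i : Fin u0.length => (FreeMonoid.toList u0).get i))
        = u0 := by
      change FreeMonoid.ofList (List.ofFn (FreeMonoid.toList u0).get) = u0
      rw [List.ofFn_get]
      rfl
    rw [h3]
    exact hcoef

/-- a polynomial involves only finitely many variables -/
theorem finitely_many (g : MonoidAlgebra ℤ (FreeSemigroup ℕ)) :
    ∃ k : ℕ, ∀ {B : Type} [NonUnitalRing B] (r r' : ℕ → B), (∀ a, a < k → r a = r' a) →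
      pev r g = pev r' g := by
  classical
  have hw : ∀ w : FreeSemigroup ℕ, ∃ k : ℕ, ∀ {B : Type} [NonUnitalRing B] (r r' : ℕ → B),
      (∀ a, a < k → r a = r' a) → FreeSemigroup.lift r w = FreeSemigroup.lift r' w := by
    intro w
    induction w with
    | ih1 a =>
      refine ⟨a + 1, fun r r' h => ?_⟩
      rw [FreeSemigroup.lift_of, FreeSemigroup.lift_of, h a (Nat.lt_succ_self a)]
    | ih2 a w h1 h2 =>
      obtain ⟨k1, hk1⟩ := h1
      obtain ⟨k2, hk2⟩ := h2
      refine ⟨max k1 k2, fun r r' h => ?_⟩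
      rw [map_mul, map_mul, hk1 r r' (fun a ha => h a (lt_of_lt_of_le ha (le_max_left _ _))),
        hk2 r r' (fun a ha => h a (lt_of_lt_of_le ha (le_max_right _ _)))]
  choose K hK using hw
  refine ⟨g.coeff.support.sup K, fun r r' h => ?_⟩
  rw [pev_apply, pev_apply]
  apply Finsupp.sum_congr
  intro w hws
  rw [hK w r r' (fun a ha => h a (lt_of_lt_of_le ha (Finset.le_sup (f := K) hws)))]

theorem finiteType_of_subring {B : Type} [Ring B] (S : Finset B)
    (h : ∀ T : Subring B, (∀ x ∈ S, x ∈ T) → ∀ x, x ∈ T) : Algebra.FiniteType ℤ B := by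
  refine ⟨⟨S, ?_⟩⟩
  rw [eq_top_iff]
  intro x _
  exact h (Algebra.adjoin ℤ (S : Set B)).toSubring (fun x hx => Algebra.subset_adjoin hx) x

/-- adjoining a unit to a finitely generated ring gives a finitely generated ring with unit -/
theorem unitization_subring {R : Type} [NonUnitalRing R] (s : Finset R)
    (hs : NonUnitalSubring.closure (s : Set R) = ⊤) (T : Subring (Unitization ℤ R))
    (hT : ∀ r ∈ s, (r : Unitization ℤ R) ∈ T) (x : Unitization ℤ R) : x ∈ T := by
  have hr : ∀ r : R, (r : Unitization ℤ R) ∈ T := by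
    intro r
    have hr' : r ∈ NonUnitalSubring.closure (s : Set R) := by rw [hs]; trivial
    induction hr' using NonUnitalSubring.closure_induction with
    | mem r hr => exact hT r hr
    | zero => rw [Unitization.inr_zero]; exact T.zero_mem
    | add a b _ _ ha hb => rw [Unitization.inr_add]; exact T.add_mem ha hb
    | neg a _ ha => rw [Unitization.inr_neg]; exact T.neg_mem ha
    | mul a b _ _ ha hb => rw [Unitization.inr_mul]; exact T.mul_mem ha hb
  have h1 : x = ((x.fst : ℤ) : Unitization ℤ R) + (x.snd : Unitization ℤ R) := by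
    have h2 : ∀ z : ℤ, ((z : ℤ) : Unitization ℤ R) = Unitization.inl z := by
      intro z
      have h3 := map_intCast (Unitization.inlRingHom ℤ R) z
      rw [Int.cast_id] at h3
      exact h3.symm
    rw [h2, Unitization.inl_fst_add_inr_snd_eq]
  rw [h1]
  exact T.add_mem (intCast_mem T _) (hr _)

theorem pev_ring {B : Type*} [Ring B] (r : ℕ → B) (f : MonoidAlgebra ℤ (FreeSemigroup ℕ)) :
    pev r f = evR r f := by
  rw [pev_apply]
  unfold evR
  apply Finsupp.sum_congr
  intro w hw
  clear hw
  congr 1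
  induction w with
  | ih1 a => simp
  | ih2 a w h1 h2 =>
    rw [map_mul, FreeSemigroup.lift_of, h2]
    rfl

/-- the variables of the free ring on `k` letters, extended by zero -/
noncomputable def vars (k : ℕ) : ℕ → FreeAlgebra ℤ (Fin k) := fun a =>
  if h : a < k then FreeAlgebra.ι ℤ (⟨a, h⟩ : Fin k) else 0

theorem lift_evR {k : ℕ} {B : Type} [Ring B] [Algebra ℤ B] (v : Fin k → B)
    (g : MonoidAlgebra ℤ (FreeSemigroup ℕ)) :
    FreeAlgebra.lift ℤ v (evR (vars k) g) = evR (fun a => if h : a < k then v ⟨a, h⟩ else 0) g := by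
  have h1 := evR_map (B := FreeAlgebra ℤ (Fin k)) (C := B) (FreeAlgebra.lift ℤ v).toRingHom
    (vars k) g
  refine Eq.trans h1 ?_
  congr 1
  funext a
  unfold vars
  by_cases h : a < k
  · rw [dif_pos h, dif_pos h]
    exact FreeAlgebra.lift_ι_apply _ _
  · rw [dif_neg h, dif_neg h]
    exact map_zero _

theorem core (B : Type) [Ring B] [Nontrivial B] (hB : Algebra.FiniteType ℤ B)
    (h : ∃ (d : ℕ) (c : Perm (Fin d) → ℤ), c 1 = 1 ∧
        ∀ r : Fin d → B,
          ∑ σ : Perm (Fin d), c σ • (List.ofFn (fun i => r (σ i))).prod = 0) :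
    ∃ n : ℕ, 1 ≤ n ∧ ∀ g : MonoidAlgebra ℤ (FreeSemigroup ℕ),
      (∀ v : ℕ → Matrix (Fin n) (Fin n) ℤ, pev v g = 0) → ∀ r : ℕ → B, evR r g = 0 := by
  classical
  obtain ⟨n, hn⟩ := Pool.Agent.PIRing.main_theorem B hB h
  refine ⟨n, ?_, ?_⟩
  · by_contra hcon
    have hn0 : n = 0 := by omega
    subst hn0
    have h1 := hn 0 1 (fun v => by ext i; exact i.elim0) Fin.elim0
    rw [map_one] at h1
    exact one_ne_zero h1
  · intro g hg r
    obtain ⟨k, hk⟩ := finitely_many g
    have h1 := hn k (evR (vars k) g)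
      (fun v => by rw [lift_evR v g, ← pev_ring]; exact hg _)
      (fun i => r i)
    rw [lift_evR _ g] at h1
    rw [← h1, ← pev_ring, ← pev_ring]
    apply hk
    intro a ha
    rw [dif_pos ha]

theorem general (R : Type) [NonUnitalRing R]
    (hfg : ∃ s : Finset R, NonUnitalSubring.closure (s : Set R) = ⊤)
    (hpi : ∃ f : MonoidAlgebra ℤ (FreeSemigroup ℕ),
      (∃ w : FreeSemigroup ℕ, f.coeff w = 1) ∧ ∀ r : ℕ → R, pev r f = 0) :
    ∃ n : ℕ, 1 ≤ n ∧ ∀ g : MonoidAlgebra ℤ (FreeSemigroup ℕ),
      (∀ v : ℕ → Matrix (Fin n) (Fin n) ℤ, pev v g = 0) → ∀ r : ℕ → R, pev r g = 0 := by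
  classical
  obtain ⟨s, hs⟩ := hfg
  obtain ⟨f, ⟨w0, hw0⟩, hf⟩ := hpi
  have hnt : Nontrivial (Unitization ℤ R) := ⟨⟨1, 0, fun h => by
    have h2 := congrArg (fun x : Unitization ℤ R => x.fst) h
    simp at h2⟩⟩
  obtain ⟨n, hn1, hn⟩ := core (Unitization ℤ R)
    (finiteType_of_subring (s.image (fun r : R => (r : Unitization ℤ R)))
      (fun T hT x => unitization_subring s hs T
        (fun r hr => hT _ (Finset.mem_image_of_mem _ hr)) x))
    (unitization_multilinear f w0 hw0 hf)
  refine ⟨n, hn1, ?_⟩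
  intro g hg r
  have h1 := hn g hg (fun a => (r a : Unitization ℤ R))
  rw [evR_inr] at h1
  have h5 := congrArg (fun x : Unitization ℤ R => x.snd) h1
  simpa using h5

end Pool.Agent.PIG
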