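import Pool.Agent.PIRing.Lewin

/-!
`TI (a + b) ≤ TI a * TI b`.
-/

set_option autoImplicit false

namespace Pool.Agent.PIRing

open TensorProduct

section Product

variable {t : ℕ}

theorem mul_X_mem_rT (I : Submodule ℤ (FR t)) (hI : ∀ f ∈ I, ∀ g, f * g ∈ I) (x : FR t)
    (ω : FR t ⊗[ℤ] FR t) (h : ω ∈ LinearMap.range (I.subtype.rTensor (FR t))) :
    ω * (x ⊗ₜ[ℤ] (1 : FR t)) ∈ LinearMap.range (I.subtype.rTensor (FR t)) := by
  obtain ⟨ω', rfl⟩ := h
  induction ω' with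
  | zero => rw [map_zero, zero_mul]; exact Submodule.zero_mem _
  | tmul u v =>
    rw [LinearMap.rTensor_tmul, Algebra.TensorProduct.tmul_mul_tmul, mul_one]
    exact ⟨(⟨u.1 * x, hI _ u.2 x⟩ : I) ⊗ₜ v, rfl⟩
  | add y z hy hz => rw [map_add, add_mul]; exact Submodule.add_mem _ hy hz

theorem X_mul_mem_rT (I : Submodule ℤ (FR t)) (x : FR t)
    (ω : FR t ⊗[ℤ] FR t) (h : ω ∈ LinearMap.range (I.subtype.rTensor (FR t))) :
    ((1 : FR t) ⊗ₜ[ℤ] x) * ω ∈ LinearMap.range (I.subtype.rTensor (FR t)) := by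
  obtain ⟨ω', rfl⟩ := h
  induction ω' with
  | zero => rw [map_zero, mul_zero]; exact Submodule.zero_mem _
  | tmul u v =>
    rw [LinearMap.rTensor_tmul, Algebra.TensorProduct.tmul_mul_tmul, one_mul]
    exact ⟨u ⊗ₜ (x * v), rfl⟩
  | add y z hy hz => rw [map_add, mul_add]; exact Submodule.add_mem _ hy hz

theorem mul_X_mem_lT (I : Submodule ℤ (FR t)) (x : FR t)
    (ω : FR t ⊗[ℤ] FR t) (h : ω ∈ LinearMap.range (I.subtype.lTensor (FR t))) :
    ω * (x ⊗ₜ[ℤ] (1 : FR t)) ∈ LinearMap.range (I.subtype.lTensor (FR t)) := by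
  obtain ⟨ω', rfl⟩ := h
  induction ω' with
  | zero => rw [map_zero, zero_mul]; exact Submodule.zero_mem _
  | tmul u v =>
    rw [LinearMap.lTensor_tmul, Algebra.TensorProduct.tmul_mul_tmul, mul_one]
    exact ⟨(u * x) ⊗ₜ v, rfl⟩
  | add y z hy hz => rw [map_add, add_mul]; exact Submodule.add_mem _ hy hz

theorem X_mul_mem_lT (I : Submodule ℤ (FR t)) (hI : ∀ f ∈ I, ∀ g, g * f ∈ I) (x : FR t)
    (ω : FR t ⊗[ℤ] FR t) (h : ω ∈ LinearMap.range (I.subtype.lTensor (FR t))) :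
    ((1 : FR t) ⊗ₜ[ℤ] x) * ω ∈ LinearMap.range (I.subtype.lTensor (FR t)) := by
  obtain ⟨ω', rfl⟩ := h
  induction ω' with
  | zero => rw [map_zero, mul_zero]; exact Submodule.zero_mem _
  | tmul u v =>
    rw [LinearMap.lTensor_tmul, Algebra.TensorProduct.tmul_mul_tmul, one_mul]
    exact ⟨u ⊗ₜ (⟨x * v.1, hI _ v.2 x⟩ : I), rfl⟩
  | add y z hy hz => rw [map_add, mul_add]; exact Submodule.add_mem _ hy hz

/-- multiplication of tensors -/
noncomputable def mulT (t : ℕ) : FR t ⊗[ℤ] FR t →ₗ[ℤ] FR t :=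
  TensorProduct.lift (LinearMap.mk₂ ℤ
    (fun u v => u * v)
    (by intro u u' v; rw [add_mul])
    (by intro z u v; rw [smul_mul_assoc])
    (by intro u v v'; rw [mul_add])
    (by intro z u v; rw [mul_smul_comm]))

theorem mulT_tmul (u v : FR t) : mulT t (u ⊗ₜ[ℤ] v) = u * v := rfl

theorem mulT_X (x : FR t) (ω : FR t ⊗[ℤ] FR t) :
    mulT t (ω * (x ⊗ₜ[ℤ] (1 : FR t))) = mulT t (((1 : FR t) ⊗ₜ[ℤ] x) * ω) := by
  induction ω with
  | zero => rw [zero_mul, mul_zero]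
  | tmul u v =>
    rw [Algebra.TensorProduct.tmul_mul_tmul, Algebra.TensorProduct.tmul_mul_tmul, mulT_tmul,
      mulT_tmul, mul_one, one_mul, mul_assoc]
  | add y z hy hz => rw [add_mul, mul_add, map_add, map_add, hy, hz]

theorem mulT_map_mem (I J : Submodule ℤ (FR t)) (ω : FR t ⊗[ℤ] FR t)
    (h : ω ∈ LinearMap.range (TensorProduct.map I.subtype J.subtype)) : mulT t ω ∈ I * J := by
  obtain ⟨ω', rfl⟩ := h
  induction ω' with
  | zero => rw [map_zero, map_zero]; exact Submodule.zero_mem _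
  | tmul u v =>
    rw [TensorProduct.map_tmul, mulT_tmul]
    exact Submodule.mul_mem_mul u.2 v.2
  | add y z hy hz => rw [map_add, map_add]; exact Submodule.add_mem _ hy hz

theorem FR.map_lift {A B : Type*} [Ring A] [Ring B] (φ : A →+* B) (v : Fin t → A) (f : FR t) :
    φ (FR.lift v f) = FR.lift (fun j => φ (v j)) f := by
  induction f using FR.induction with
  | int z => rw [map_intCast, map_intCast, map_intCast]
  | X j => rw [FR.lift_X, FR.lift_X]
  | mul f g hf hg => rw [map_mul, map_mul, map_mul, hf, hg]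
  | add f g hf hg => rw [map_add, map_add, map_add, hf, hg]

theorem TI_blocks {a b : ℕ} {f : FR t} (hf : f ∈ TI (a + b) t)
    (P : Fin t → Matrix (Fin a ⊕ Fin b) (Fin a ⊕ Fin b) ℤ) : FR.lift P f = 0 := by
  let e : Matrix (Fin (a + b)) (Fin (a + b)) ℤ ≃+* Matrix (Fin a ⊕ Fin b) (Fin a ⊕ Fin b) ℤ :=
    Matrix.reindexRingEquiv ℤ (finSumFinEquiv (m := a) (n := b)).symm
  have h1 := FR.map_lift (e.symm : _ →+* Matrix (Fin (a + b)) (Fin (a + b)) ℤ) P f
  rw [hf] at h1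
  have h2 : e.symm (FR.lift P f) = 0 := h1
  exact (map_eq_zero_iff e.symm e.symm.injective).mp h2

theorem lift_blocks_diag {a b : ℕ} (p : Fin t → Matrix (Fin a) (Fin a) ℤ)
    (q : Fin t → Matrix (Fin b) (Fin b) ℤ) (f : FR t) :
    FR.lift (fun j => Matrix.fromBlocks (p j) 0 0 (q j)) f
      = Matrix.fromBlocks (FR.lift p f) 0 0 (FR.lift q f) := by
  induction f using FR.induction with
  | int z =>
    rw [map_intCast, map_intCast, map_intCast]
    rw [← Matrix.diagonal_intCast, ← Matrix.diagonal_intCast, ← Matrix.diagonal_intCast,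
      Matrix.fromBlocks_diagonal]
    congr 1
    funext s
    cases s <;> rfl
  | X j => rw [FR.lift_X, FR.lift_X, FR.lift_X]
  | mul f g hf hg =>
    rw [map_mul, hf, hg, Matrix.fromBlocks_multiply, map_mul, map_mul]
    simp
  | add f g hf hg =>
    rw [map_add, hf, hg, Matrix.fromBlocks_add, map_add, map_add, add_zero, add_zero]

/-- **Product theorem.** -/
theorem TI_add_le (a b : ℕ) : TI (a + b) t ≤ TI a t * TI b t := by
  intro f hf
  have hblock : ∀ (p : Fin t → Matrix (Fin a) (Fin a) ℤ)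
      (q : Fin t → Matrix (Fin b) (Fin b) ℤ) (c : Matrix (Fin a) (Fin b) ℤ) (i : Fin t),
      Matrix.fromBlocks (FR.lift p f) (Ev p q c (fox i f)) 0 (FR.lift q f) = 0 := by
    intro p q c i
    rw [← lift_blocks]
    exact TI_blocks hf _
  have hEv : ∀ (i : Fin t) (p : Fin t → Matrix (Fin a) (Fin a) ℤ)
      (q : Fin t → Matrix (Fin b) (Fin b) ℤ) (c : Matrix (Fin a) (Fin b) ℤ),
      Ev p q c (fox i f) = 0 := by
    intro i p q c
    have := congrArg Matrix.toBlocks₁₂ (hblock p q c i)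
    rw [Matrix.toBlocks_fromBlocks₁₂] at this
    rw [this]
    rfl
  have hfa : f ∈ TI a t := by
    intro p
    have h1 := lift_blocks_diag p (0 : Fin t → Matrix (Fin b) (Fin b) ℤ) f
    rw [TI_blocks hf] at h1
    have := congrArg Matrix.toBlocks₁₁ h1
    rw [Matrix.toBlocks_fromBlocks₁₁] at this
    rw [← this]
    rfl
  have hfb : f ∈ TI b t := by
    intro q
    have h1 := lift_blocks_diag (0 : Fin t → Matrix (Fin a) (Fin a) ℤ) q f
    rw [TI_blocks hf] at h1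
    have := congrArg Matrix.toBlocks₂₂ h1
    rw [Matrix.toBlocks_fromBlocks₂₂] at this
    rw [← this]
    rfl
  have hdec : ∀ i : Fin t, ∃ β ∈ LinearMap.range ((TI b t).subtype.lTensor (FR t)),
      ∃ α ∈ LinearMap.range ((TI a t).subtype.rTensor (FR t)), β + α = fox i f := by
    intro i
    exact Submodule.mem_sup.mp (mem_of_Ev_zero (fox i f) (hEv i))
  choose β hβ α hα hsum using hdec
  let ω : FR t ⊗[ℤ] FR t := f ⊗ₜ[ℤ] (1 : FR t)
    - ∑ i : Fin t, (α i * (FR.X i ⊗ₜ[ℤ] (1 : FR t)) - ((1 : FR t) ⊗ₜ[ℤ] FR.X i) * α i)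
  have hω1 : ω ∈ LinearMap.range ((TI a t).subtype.rTensor (FR t)) := by
    apply Submodule.sub_mem
    · exact ⟨(⟨f, hfa⟩ : TI a t) ⊗ₜ 1, rfl⟩
    · apply Submodule.sum_mem
      intro i _
      apply Submodule.sub_mem
      · exact mul_X_mem_rT _ (fun g hg h => TI.mul_right hg h) _ _ (hα i)
      · exact X_mul_mem_rT _ _ _ (hα i)
  have hω2 : ω = (1 : FR t) ⊗ₜ[ℤ] f
      + ∑ i : Fin t, (β i * (FR.X i ⊗ₜ[ℤ] (1 : FR t)) - ((1 : FR t) ⊗ₜ[ℤ] FR.X i) * β i) := by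
    have h1 := fox_fundamental f
    have h2 : ∑ i : Fin t, (fox i f * (FR.X i ⊗ₜ[ℤ] (1 : FR t))
        - ((1 : FR t) ⊗ₜ[ℤ] FR.X i) * fox i f)
        = ∑ i : Fin t, (β i * (FR.X i ⊗ₜ[ℤ] (1 : FR t)) - ((1 : FR t) ⊗ₜ[ℤ] FR.X i) * β i)
          + ∑ i : Fin t, (α i * (FR.X i ⊗ₜ[ℤ] (1 : FR t))
            - ((1 : FR t) ⊗ₜ[ℤ] FR.X i) * α i) := by
      rw [← Finset.sum_add_distrib]
      apply Finset.sum_congr rfl
      intro i _
      rw [← hsum i, add_mul, mul_add]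
      abel
    rw [h2] at h1
    change f ⊗ₜ[ℤ] (1 : FR t) - _ = _
    rw [sub_eq_iff_eq_add, add_assoc, ← h1]
    abel
  have hω3 : ω ∈ LinearMap.range ((TI b t).subtype.lTensor (FR t)) := by
    rw [hω2]
    apply Submodule.add_mem
    · exact ⟨1 ⊗ₜ (⟨f, hfb⟩ : TI b t), rfl⟩
    · apply Submodule.sum_mem
      intro i _
      apply Submodule.sub_mem
      · exact mul_X_mem_lT _ _ _ (hβ i)
      · exact X_mul_mem_lT _ (fun g hg h => TI.mul_left hg h) _ _ (hβ i)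
  have hmem := mulT_map_mem _ _ ω (inter_range ω hω1 hω3)
  have hf' : mulT t ω = f := by
    change mulT t (f ⊗ₜ[ℤ] (1 : FR t) - _) = f
    rw [map_sub, map_sum, mulT_tmul, mul_one, Finset.sum_eq_zero, sub_zero]
    intro i _
    rw [map_sub, mulT_X, sub_self]
  rwa [hf'] at hmem

end Product

end Pool.Agent.PIRing
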