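import Pool.Agent.PIRing.Exchange

/-!
Functions on exponents as a module over integer polynomials (shift operators).
-/

set_option autoImplicit false

namespace Pool.Agent.PIRing

open Equiv MvPolynomial

/-- functions `(J →₀ ℕ) → R` -/
def Sh (J R : Type*) := (J →₀ ℕ) → R

section Sh

variable {J R : Type*} [Ring R]

instance : AddCommGroup (Sh J R) := inferInstanceAs (AddCommGroup ((J →₀ ℕ) → R))

instance : Module R (Sh J R) := inferInstanceAs (Module R ((J →₀ ℕ) → R))

/-- the shift by `s` -/
noncomputable def shiftHom (s : J →₀ ℕ) : Sh J R →+ Sh J R where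
  toFun v := fun e => v (e + s)
  map_zero' := rfl
  map_add' _ _ := rfl

/-- the shift action of monomials -/
noncomputable def shiftMonoid : Multiplicative (J →₀ ℕ) →* Module.End ℤ (Sh J R) where
  toFun s := (shiftHom (Multiplicative.toAdd s)).toIntLinearMap
  map_one' := by
    ext v
    change (fun e => v (e + 0)) = v
    simp
  map_mul' s t := by
    ext v
    change (fun e => v (e + (Multiplicative.toAdd s + Multiplicative.toAdd t)))
      = (fun e => v (e + Multiplicative.toAdd s + Multiplicative.toAdd t))
    simp [add_assoc]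

/-- polynomials act by shifts -/
noncomputable def shiftAlg : MvPolynomial J ℤ →ₐ[ℤ] Module.End ℤ (Sh J R) :=
  AddMonoidAlgebra.lift ℤ (Module.End ℤ (Sh J R)) (J →₀ ℕ) shiftMonoid

noncomputable instance : Module (MvPolynomial J ℤ) (Sh J R) :=
  Module.compHom (Sh J R) (shiftAlg (J := J) (R := R)).toRingHom

theorem smul_def (p : MvPolynomial J ℤ) (v : Sh J R) : p • v = shiftAlg p v := rfl

theorem monomial_smul (s : J →₀ ℕ) (t : ℤ) (v : Sh J R) (e : J →₀ ℕ) :
    (monomial s t • v) e = t • v (e + s) := by
  rw [smul_def]
  have : shiftAlg (J := J) (R := R) (monomial s t) = t • shiftMonoid (Multiplicative.ofAdd s) :=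
    AddMonoidAlgebra.lift_single _ _ _
  rw [this]
  rfl

theorem X_smul (j : J) (v : Sh J R) (e : J →₀ ℕ) :
    ((X j : MvPolynomial J ℤ) • v) e = v (e + Finsupp.single j 1) := by
  have := monomial_smul (Finsupp.single j 1) 1 v e
  rw [one_smul] at this
  exact this

theorem smul_apply' (r : R) (v : Sh J R) (e : J →₀ ℕ) : (r • v) e = r * v e := rfl

instance : SMulCommClass R (MvPolynomial J ℤ) (Sh J R) where
  smul_comm r p v := by
    induction p using MvPolynomial.induction_on' with
    | monomial s t =>
      funext e
      rw [smul_apply', monomial_smul, monomial_smul, smul_apply', mul_smul_comm]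
    | add p q hp hq =>
      rw [add_smul, add_smul, smul_add, hp, hq]

end Sh

end Pool.Agent.PIRing
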