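import Pool.Agent.PIRing.Codim

/-!
The strong identity: for some `m` there is a primitive integer vector `β` on `S_m` such that
renaming the `x`-variables along `β` kills every multilinear monomial.
-/

set_option autoImplicit false

namespace Pool.Agent.PIRing

open Equiv

/-- `m!` eventually beats exponentials. -/
theorem exists_factorial_gt (C : ℕ) : ∃ m : ℕ, C ^ m < m.factorial := by
  have h := FloorSemiring.tendsto_pow_div_factorial_atTop (K := ℝ) (C : ℝ)
  have h1 := (h.eventually (gt_mem_nhds (show (0 : ℝ) < 1 by norm_num))).exists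
  obtain ⟨m, hm⟩ := h1
  refine ⟨m, ?_⟩
  rw [div_lt_one (by positivity)] at hm
  exact_mod_cast hm

/-- renaming of the letters `x_j`, coded in `Fin (m * 2)` -/
def ren {m : ℕ} (σ : Perm (Fin m)) : Perm (Fin (m * 2)) :=
  (finProdFinEquiv.symm.trans
    (Equiv.prodCongrLeft (fun b : Fin 2 => if b = 0 then σ else 1))).trans finProdFinEquiv

theorem ren_mul {m : ℕ} (σ τ : Perm (Fin m)) : ren (σ * τ) = ren σ * ren τ := by
  ext q
  simp only [ren, Perm.mul_apply, Equiv.trans_apply, Equiv.symm_apply_apply]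
  congr 2
  obtain ⟨⟨j, b⟩, rfl⟩ := finProdFinEquiv.surjective q
  simp only [Equiv.symm_apply_apply, Equiv.prodCongrLeft_apply]
  by_cases hb : b = 0
  · simp [hb]
  · simp [hb]

theorem prod_pairs {R : Type*} [Monoid R] {m : ℕ} (f : Fin m × Fin 2 → R) :
    (List.ofFn (fun q : Fin (m * 2) => f (finProdFinEquiv.symm q))).prod
      = (List.ofFn (fun i : Fin m => f (i, 0) * f (i, 1))).prod := by
  rw [List.ofFn_mul, List.prod_flatten, List.map_ofFn]
  congr 1
  congr 1
  funext i
  simp only [Function.comp]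
  rw [List.ofFn_succ, List.ofFn_succ, List.ofFn_zero]
  simp only [List.prod_cons, List.prod_nil, mul_one]
  have h0 : finProdFinEquiv.symm (⟨(i : ℕ) * 2 + ((0 : Fin 2) : ℕ), by
      have := i.2; simp; try omega⟩ : Fin (m * 2)) = (i, 0) := by
    rw [Equiv.symm_apply_eq]
    ext
    simp [finProdFinEquiv]
    ring
  have h1 : finProdFinEquiv.symm (⟨(i : ℕ) * 2 + (((0 : Fin 1).succ : Fin 2) : ℕ), by
      have := i.2; simp; try omega⟩ : Fin (m * 2)) = (i, 1) := by
    rw [Equiv.symm_apply_eq]
    ext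
    simp [finProdFinEquiv]
    ring
  rw [h0, h1]

section Strong

variable {R : Type*} [Ring R] {d : ℕ} {c : Perm (Fin d) → ℤ}

/-- values of `x`- and `y`-letters -/
def letters {m : ℕ} (X Z : Fin m → R) : Fin (m * 2) → R := fun q =>
  if (finProdFinEquiv.symm q).2 = 0 then X (finProdFinEquiv.symm q).1
  else Z (finProdFinEquiv.symm q).1

theorem mono_ren {m : ℕ} (σ : Perm (Fin m)) (X Z : Fin m → R) :
    mono R (List.ofFn (ren σ)) (letters X Z)
      = (List.ofFn (fun i : Fin m => X (σ i) * Z i)).prod := by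
  unfold mono
  rw [List.map_ofFn]
  have := prod_pairs (fun p : Fin m × Fin 2 => if p.2 = 0 then X (σ p.1) else Z p.1)
  simp only [if_true, if_false, one_ne_zero] at this
  rw [← this]
  congr 2
  funext q
  simp only [Function.comp, letters, ren, Equiv.trans_apply, Equiv.symm_apply_apply]
  generalize finProdFinEquiv.symm q = p
  rw [Equiv.prodCongrLeft_apply]
  by_cases hb : p.2 = 0
  · simp [hb]
  · simp [hb]

theorem strong_identity (hc : c 1 = 1)
    (hPI : ∀ r : Fin d → R, ∑ σ : Perm (Fin d), c σ • (List.ofFn (fun i => r (σ i))).prod = 0) :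
    ∃ (m : ℕ) (β : Perm (Fin m) → ℤ), (Finset.univ.gcd β = 1) ∧
      ∀ (τ : Perm (Fin m)) (X Z : Fin m → R),
        ∑ σ : Perm (Fin m), β σ • (List.ofFn (fun i => X (σ (τ i)) * Z i)).prod = 0 := by
  classical
  obtain ⟨m, hm⟩ := exists_factorial_gt (d ^ 8)
  -- matrices of the renaming operators
  have hmem : ∀ π : Perm (Fin (m * 2)), ∃ a : GoodPerm d (m * 2) → ℤ,
      mono R (List.ofFn π) = ∑ g, a g • mono R (List.ofFn g.1) := by
    intro π
    have h1 := mono_mem_span hc hPI (List.ofFn π) (by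
      have := Equiv.Perm.ofFn_comp_perm π (fun i : Fin (m * 2) => i)
      rw [show (List.ofFn fun i : Fin (m * 2) => i) = List.finRange (m * 2) by
        rw [List.ofFn_eq_map, List.map_id'] ] at this
      exact this)
    rw [Submodule.mem_span_range_iff_exists_fun] at h1
    obtain ⟨a, ha⟩ := h1
    exact ⟨a, ha.symm⟩
  choose a ha using hmem
  have hren : ∀ (σ : Perm (Fin m)) (π : Perm (Fin (m * 2))) (r : Fin (m * 2) → R),
      mono R (List.ofFn π) (fun q => r (ren σ q)) = mono R (List.ofFn ⇑(ren σ * π)) r := by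
    intro σ π r
    unfold mono
    rw [List.map_ofFn, List.map_ofFn]
    rfl
  let Φ : (Perm (Fin m) → ℤ) →ₗ[ℤ] (GoodPerm d (m * 2) × GoodPerm d (m * 2) → ℤ) :=
    { toFun := fun β p => ∑ σ, β σ * a (ren σ * p.1.1) p.2
      map_add' := by
        intro β β'
        funext p
        simp [add_mul, Finset.sum_add_distrib]
      map_smul' := by
        intro t β
        funext p
        simp [mul_assoc, Finset.mul_sum] }
  have hninj : ¬ Function.Injective Φ := by
    intro hinj
    have h1 := card_le_of_injective ℤ Φ hinj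
    rw [Fintype.card_perm, Fintype.card_fin, Fintype.card_prod] at h1
    have h2 := card_goodPerm d (m * 2)
    have h3 : Fintype.card (GoodPerm d (m * 2)) * Fintype.card (GoodPerm d (m * 2)) ≤ (d ^ 8) ^ m := by
      calc Fintype.card (GoodPerm d (m * 2)) * Fintype.card (GoodPerm d (m * 2))
          ≤ (d ^ (m * 2) * d ^ (m * 2)) * (d ^ (m * 2) * d ^ (m * 2)) := Nat.mul_le_mul h2 h2
        _ = (d ^ 8) ^ m := by rw [← pow_add, ← pow_add, ← pow_mul]; congr 1; ring
    omega
  have hker : ∃ β0 : Perm (Fin m) → ℤ, β0 ≠ 0 ∧ Φ β0 = 0 := by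
    unfold Function.Injective at hninj
    push Not at hninj
    obtain ⟨x, y, hxy, hne⟩ := hninj
    exact ⟨x - y, sub_ne_zero.mpr hne, by rw [map_sub, hxy, sub_self]⟩
  obtain ⟨β0, hβ0, hΦ⟩ := hker
  obtain ⟨β, hβ, hgcd⟩ := Finset.extract_gcd β0 (Finset.univ_nonempty (α := Perm (Fin m)))
  have hg : Finset.univ.gcd β0 ≠ 0 := by
    intro h0
    apply hβ0
    funext σ
    rw [Finset.gcd_eq_zero_iff] at h0
    exact h0 σ (Finset.mem_univ _)
  have hΦβ : Φ β = 0 := by
    have h1 : β0 = Finset.univ.gcd β0 • β := by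
      funext σ
      rw [Pi.smul_apply, smul_eq_mul]
      exact hβ σ (Finset.mem_univ _)
    have h2 : Finset.univ.gcd β0 • Φ β = 0 := by
      rw [← map_smul, ← h1, hΦ]
    exact (smul_eq_zero.mp h2).resolve_left hg
  refine ⟨m, β, hgcd, ?_⟩
  -- the good monomials are killed
  have hgood : ∀ (g : GoodPerm d (m * 2)) (r : Fin (m * 2) → R),
      ∑ σ, β σ • mono R (List.ofFn ⇑(ren σ * g.1)) r = 0 := by
    intro g r
    have h1 : ∀ σ : Perm (Fin m), mono R (List.ofFn ⇑(ren σ * g.1)) r
        = ∑ g' : GoodPerm d (m * 2), a (ren σ * g.1) g' • mono R (List.ofFn g'.1) r := by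
      intro σ
      have := congrFun (ha (ren σ * g.1)) r
      rw [this, Finset.sum_apply]
      rfl
    simp only [h1, Finset.smul_sum, smul_smul]
    rw [Finset.sum_comm]
    apply Finset.sum_eq_zero
    intro g' _
    rw [← Finset.sum_smul]
    have := congrFun hΦβ (g, g')
    change ∑ σ, β σ * a (ren σ * g.1) g' = 0 at this
    rw [this, zero_smul]
  have hall : ∀ (π : Perm (Fin (m * 2))) (r : Fin (m * 2) → R),
      ∑ σ, β σ • mono R (List.ofFn ⇑(ren σ * π)) r = 0 := by
    intro π r
    have h1 : ∀ σ : Perm (Fin m), mono R (List.ofFn ⇑(ren σ * π)) r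
        = ∑ g : GoodPerm d (m * 2), a π g • mono R (List.ofFn ⇑(ren σ * g.1)) r := by
      intro σ
      rw [← hren, ha π, Finset.sum_apply]
      apply Finset.sum_congr rfl
      intro g _
      rw [Pi.smul_apply, hren]
    simp only [h1, Finset.smul_sum]
    rw [Finset.sum_comm]
    apply Finset.sum_eq_zero
    intro g _
    have : ∑ σ, β σ • a π g • mono R (List.ofFn ⇑(ren σ * g.1)) r
        = a π g • ∑ σ, β σ • mono R (List.ofFn ⇑(ren σ * g.1)) r := by
      rw [Finset.smul_sum]
      apply Finset.sum_congr rfl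
      intro σ _
      rw [smul_smul, smul_smul, mul_comm]
    rw [this, hgood, smul_zero]
  intro τ X Z
  have h1 := hall (ren τ) (letters X Z)
  rw [← h1]
  apply Finset.sum_congr rfl
  intro σ _
  rw [← ren_mul, mono_ren]
  rfl

end Strong

end Pool.Agent.PIRing
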