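import Mathlib

/-!
Words, ordered disjoint occurrences of factors, lexicographic comparison and the
rewriting step given by a multilinear identity.
-/

set_option autoImplicit false

namespace Pool.Agent.PIRing

open Equiv

section Occ

variable {α : Type*}

/-- The words of the list `vs` occur in `w`, in this order and disjointly. -/
def Occ : List (List α) → List α → Prop
  | [], _ => True
  | v :: vs, w => ∃ p s, w = p ++ (v ++ s) ∧ Occ vs s

theorem Occ.append_left {vs : List (List α)} {w : List α} (h : Occ vs w) (p : List α) :
    Occ vs (p ++ w) := by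
  cases vs with
  | nil => trivial
  | cons v vs =>
    obtain ⟨q, s, rfl, hs⟩ := h
    exact ⟨p ++ q, s, by simp, hs⟩

theorem Occ.append_right {vs : List (List α)} : ∀ {w : List α}, Occ vs w → ∀ (q : List α),
    Occ vs (w ++ q) := by
  induction vs with
  | nil => intros; trivial
  | cons v vs ih =>
    rintro w ⟨p, s, rfl, hs⟩ q
    exact ⟨p, s ++ q, by simp, ih hs q⟩

theorem Occ.decomp {vs : List (List α)} : ∀ {w : List α}, Occ vs w →
    ∃ (p : List α) (ts : List (List α)), ts.length = vs.length ∧
      w = p ++ (List.zipWith (fun v t => v ++ t) vs ts).flatten := by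
  induction vs with
  | nil => intro w _; exact ⟨w, [], rfl, by simp⟩
  | cons v vs ih =>
    rintro w ⟨p, s, rfl, hs⟩
    obtain ⟨p', ts, hts, rfl⟩ := ih hs
    exact ⟨p, p' :: ts, by simp [hts], by simp⟩

end Occ

section Lex

variable {α : Type*} [LinearOrder α]

theorem lt_append_of_length_eq {v v' : List α} (h : v < v') (hl : v.length = v'.length)
    (s s' : List α) : v ++ s < v' ++ s' := by
  induction v generalizing v' with
  | nil =>
    cases v' with
    | nil => exact absurd h (lt_irrefl _)
    | cons b v' => simp at hl
  | cons a v ih =>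
    cases v' with
    | nil => simp at hl
    | cons b v' =>
      rw [List.cons_append, List.cons_append, List.cons_lt_cons_iff]
      rw [List.cons_lt_cons_iff] at h
      rcases h with h | ⟨rfl, h⟩
      · exact Or.inl h
      · exact Or.inr ⟨rfl, ih h (by simpa using hl)⟩

theorem append_lt_append_left' {v v' : List α} (h : v < v') (p : List α) :
    p ++ v < p ++ v' := by
  induction p with
  | nil => simpa using h
  | cons a p ih =>
    rw [List.cons_append, List.cons_append, List.cons_lt_cons_iff]
    exact Or.inr ⟨rfl, ih⟩

theorem flatten_ofFn_split {β : Type*} {d : ℕ} (f : Fin d → List β) (j : Fin d) :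
    (List.ofFn f).flatten
      = ((List.ofFn f).take j).flatten ++ (f j ++ ((List.ofFn f).drop (j + 1)).flatten) := by
  conv_lhs => rw [← List.take_append_drop (j : ℕ) (List.ofFn f)]
  rw [List.flatten_append, List.drop_eq_getElem_cons (by simp), List.flatten_cons]
  simp

/-- Permuting blocks which begin with strictly decreasing words of a common length makes the
word lexicographically smaller. -/
theorem flatten_perm_lt {d : ℕ} (v t : Fin d → List α) (ℓ : ℕ) (hℓ : ∀ i, (v i).length = ℓ)
    (hv : StrictAnti v) (σ : Perm (Fin d)) (hσ : σ ≠ 1) :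
    (List.ofFn (fun i => v (σ i) ++ t (σ i))).flatten
      < (List.ofFn (fun i => v i ++ t i)).flatten := by
  classical
  have hex : ∃ i, σ i ≠ i := by
    by_contra hcon
    push Not at hcon
    exact hσ (Equiv.ext hcon)
  let S : Finset (Fin d) := Finset.univ.filter (fun i => σ i ≠ i)
  have hS : S.Nonempty := by
    obtain ⟨i, hi⟩ := hex
    exact ⟨i, by simp [S, hi]⟩
  let j := S.min' hS
  have hj : σ j ≠ j := by
    have := S.min'_mem hS
    simpa [S] using this
  have hlt : ∀ i, i < j → σ i = i := by
    intro i hi
    by_contra hne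
    have : i ∈ S := by simp [S, hne]
    exact absurd (S.min'_le i this) (not_le.mpr hi)
  have hjσ : j < σ j := by
    rcases lt_trichotomy (σ j) j with h | h | h
    · have := hlt _ h
      exact absurd (σ.injective this) hj
    · exact absurd h hj
    · exact h
  rw [flatten_ofFn_split (fun i => v (σ i) ++ t (σ i)) j,
    flatten_ofFn_split (fun i => v i ++ t i) j]
  have htake : (List.ofFn (fun i => v (σ i) ++ t (σ i))).take j
      = (List.ofFn (fun i => v i ++ t i)).take j := by
    apply List.ext_getElem
    · simp
    · intro n h1 h2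
      have hn : n < (j : ℕ) := by
        simp only [List.length_take, List.length_ofFn] at h1
        omega
      have hnd : n < d := lt_trans hn j.2
      simp only [List.getElem_take, List.getElem_ofFn]
      rw [hlt ⟨n, hnd⟩ hn]
  rw [htake]
  apply append_lt_append_left'
  rw [List.append_assoc, List.append_assoc]
  exact lt_append_of_length_eq (hv hjσ) (by rw [hℓ, hℓ]) _ _

end Lex

section Red

/-- Reordering blocks does not change the content. -/
theorem flatten_ofFn_perm {α : Type*} {d : ℕ} (x : Fin d → List α) (σ : Perm (Fin d)) :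
    (List.ofFn (fun i => x (σ i))).flatten.Perm (List.ofFn x).flatten := by
  apply List.Perm.flatten
  exact Equiv.Perm.ofFn_comp_perm σ x

theorem prod_map_flatten_ofFn {α R : Type*} [Monoid R] (a : α → R) {d : ℕ}
    (x : Fin d → List α) :
    ((List.ofFn x).flatten.map a).prod = (List.ofFn (fun i => ((x i).map a).prod)).prod := by
  rw [List.map_flatten, List.prod_flatten, List.map_map, List.map_ofFn]
  rfl

/-- The rewriting step in a ring satisfying a multilinear identity. -/
theorem pi_rewrite {R : Type*} [Ring R] {d : ℕ} {c : Perm (Fin d) → ℤ} (hc : c 1 = 1)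
    (hPI : ∀ r : Fin d → R, ∑ σ : Perm (Fin d), c σ • (List.ofFn (fun i => r (σ i))).prod = 0)
    {α : Type*} (a : α → R) (p : List α) (x : Fin d → List α) :
    ((p ++ (List.ofFn x).flatten).map a).prod
      = - ∑ σ ∈ (Finset.univ : Finset (Perm (Fin d))).erase 1,
          c σ • ((p ++ (List.ofFn (fun i => x (σ i))).flatten).map a).prod := by
  have h := hPI (fun i => ((x i).map a).prod)
  rw [← Finset.add_sum_erase _ _ (Finset.mem_univ (1 : Perm (Fin d)))] at h
  simp only [hc, one_smul, Perm.coe_one, id_eq] at h
  have h2 := eq_neg_of_add_eq_zero_left h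
  simp only [List.map_append, List.prod_append, prod_map_flatten_ofFn]
  rw [h2, mul_neg, Finset.mul_sum]
  simp only [mul_smul_comm]

end Red

section Induct

/-- Induction on words of a fixed length over a finite ordered alphabet. -/
theorem lex_induction {α : Type*} [LinearOrder α] [Finite α] (L : ℕ) (P : List α → Prop)
    (h : ∀ w : List α, w.length = L → (∀ w' : List α, w'.length = L → w' < w → P w') → P w) :
    ∀ w : List α, w.length = L → P w := by
  have hfin : Finite {w : List α // w.length = L} := (List.finite_length_eq α L).to_subtype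
  let r : {w : List α // w.length = L} → {w : List α // w.length = L} → Prop :=
    fun a b => a.1 < b.1
  have : IsTrans {w : List α // w.length = L} r := ⟨fun a b c hab hbc => lt_trans hab hbc⟩
  have : Std.Irrefl r := ⟨fun a => lt_irrefl a.1⟩
  have wf : WellFounded r := Finite.wellFounded_of_trans_of_irrefl r
  have key : ∀ a : {w : List α // w.length = L}, P a.1 := by
    intro a
    induction a using wf.induction with
    | _ a ih =>
      exact h a.1 a.2 (fun w' hw' hlt => ih ⟨w', hw'⟩ hlt)
  intro w hw
  exact key ⟨w, hw⟩

theorem Occ.ofFn_decomp {α : Type*} {d : ℕ} {v : Fin d → List α} {w : List α}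
    (h : Occ (List.ofFn v) w) :
    ∃ (p : List α) (t : Fin d → List α), w = p ++ (List.ofFn (fun i => v i ++ t i)).flatten := by
  obtain ⟨p, ts, hts, hw⟩ := h.decomp
  rw [List.length_ofFn] at hts
  refine ⟨p, fun i => ts[(i : ℕ)], ?_⟩
  rw [hw]
  congr 2
  apply List.ext_getElem
  · simp [hts]
  · intro n h1 h2
    simp

/-- A word is reducible if it splits as a prefix followed by `d` blocks starting with strictly
decreasing words of the same length. -/
def Red (d : ℕ) {α : Type*} [LinearOrder α] (w : List α) : Prop :=
  ∃ (ℓ : ℕ) (v : Fin d → List α), (∀ i, (v i).length = ℓ) ∧ StrictAnti v ∧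
    Occ (List.ofFn v) w

/-- If the values of `E` satisfy the rewriting rule, the value of a reducible word is
a combination of the values of smaller words with the same letters. -/
theorem Red.mem_span {α M : Type*} [LinearOrder α] [AddCommGroup M] {d : ℕ}
    {c : Perm (Fin d) → ℤ} (E : List α → M)
    (hE : ∀ (p : List α) (x : Fin d → List α), E (p ++ (List.ofFn x).flatten)
      = - ∑ σ ∈ (Finset.univ : Finset (Perm (Fin d))).erase 1,
          c σ • E (p ++ (List.ofFn (fun i => x (σ i))).flatten))
    {w : List α} (hw : Red d w) (S : AddSubgroup M)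
    (hS : ∀ w' : List α, w'.Perm w → w' < w → E w' ∈ S) : E w ∈ S := by
  obtain ⟨ℓ, v, hℓ, hv, hocc⟩ := hw
  obtain ⟨p, t, rfl⟩ := hocc.ofFn_decomp
  rw [hE]
  apply S.neg_mem
  apply S.sum_mem
  intro σ hσ
  have hσ1 : σ ≠ 1 := (Finset.mem_erase.mp hσ).1
  apply S.zsmul_mem
  apply hS
  · exact (flatten_ofFn_perm (fun i => v i ++ t i) σ).append_left p
  · exact append_lt_append_left' (flatten_perm_lt v t ℓ hℓ hv σ hσ1) p

end Induct

end Pool.Agent.PIRing
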